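import Pool.Agent.H57.FC.Base

set_option autoImplicit false

/-! ROW ARG. Two facts on arguments of complex numbers. -/

namespace Pool.Agent.H57.FC

open Real

private lemma arg_div_of_re_pos {x y : ℂ} (hx : 0 < x.re) (hy : 0 < y.re) :
    Complex.arg (y / x) = Complex.arg y - Complex.arg x := by
  have hx0 : x ≠ 0 := by rintro rfl; simp at hx
  have hy0 : y ≠ 0 := by rintro rfl; simp at hy
  have ax : |Complex.arg x| < π / 2 := Complex.abs_arg_lt_pi_div_two_iff.2 (Or.inl hx)
  have ay : |Complex.arg y| < π / 2 := Complex.abs_arg_lt_pi_div_two_iff.2 (Or.inl hy)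
  rw [abs_lt] at ax ay
  have hne : Complex.arg x ≠ π := by linarith [ax.2, pi_pos]
  have hinv : Complex.arg x⁻¹ = -Complex.arg x := by rw [Complex.arg_inv, if_neg hne]
  rw [div_eq_mul_inv, (Complex.arg_mul_eq_add_arg_iff hy0 (inv_ne_zero hx0)).2, hinv]
  · ring
  · rw [hinv]
    constructor <;> linarith [ax.1, ax.2, ay.1, ay.2]

theorem arg_square {p p' q q' : ℂ} (h : Disjoint (segment ℝ p p') (segment ℝ q q')) :
    Complex.arg ((q' - p) / (q - p)) + Complex.arg ((q' - p') / (q' - p)) =
      Complex.arg ((q - p') / (q - p)) + Complex.arg ((q' - p') / (q - p')) := by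
  have hc1 : IsCompact (segment ℝ p p') := by
    rw [segment_eq_image_lineMap]
    exact isCompact_Icc.image AffineMap.lineMap_continuous
  have hc2 : IsCompact (segment ℝ q q') := by
    rw [segment_eq_image_lineMap]
    exact isCompact_Icc.image AffineMap.lineMap_continuous
  obtain ⟨f, s, t, hf1, hst, hf2⟩ := geometric_hahn_banach_compact_closed (convex_segment p p')
    hc1 (convex_segment q q') hc2.isClosed h
  set c : ℂ := ⟨f 1, -f Complex.I⟩ with hc
  have hfc : ∀ x : ℂ, (c * x).re = f x := by
    intro x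
    have hx : x = x.re • (1 : ℂ) + x.im • Complex.I := by
      apply Complex.ext <;> simp
    conv_rhs => rw [hx, map_add, map_smul, map_smul]
    rw [Complex.mul_re]
    simp only [hc, smul_eq_mul]
    ring
  have hpos : ∀ a ∈ segment ℝ p p', ∀ b ∈ segment ℝ q q', 0 < (c * (b - a)).re := by
    intro a ha b hb
    rw [hfc, map_sub]
    linarith [hf1 a ha, hf2 b hb]
  have h1 := hpos p (left_mem_segment ℝ p p') q (left_mem_segment ℝ q q')
  have h2 := hpos p (left_mem_segment ℝ p p') q' (right_mem_segment ℝ q q')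
  have h3 := hpos p' (right_mem_segment ℝ p p') q' (right_mem_segment ℝ q q')
  have h4 := hpos p' (right_mem_segment ℝ p p') q (left_mem_segment ℝ q q')
  have hc0 : c ≠ 0 := by
    intro h0
    rw [h0, zero_mul] at h1
    simp at h1
  have key : ∀ x y : ℂ, 0 < (c * x).re → 0 < (c * y).re →
      Complex.arg (y / x) = Complex.arg (c * y) - Complex.arg (c * x) := by
    intro x y hx hy
    rw [← arg_div_of_re_pos hx hy, mul_div_mul_left _ _ hc0]
  rw [key _ _ h1 h2, key _ _ h2 h3, key _ _ h1 h4, key _ _ h4 h3]
  ring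

private lemma arg_pos_of_im_pos {z : ℂ} (h : 0 < z.im) : 0 < Complex.arg z := by
  rcases eq_or_lt_of_le (Complex.arg_nonneg_iff.2 h.le) with h1 | h1
  · have := (Complex.arg_eq_zero_iff.1 h1.symm).2
    linarith
  · exact h1

private lemma arg_tri_aux {r : ℂ} (hr : r ≠ 0) (h : Complex.arg r ≠ π) :
    Complex.arg (1 + r) + Complex.arg (r / (1 + r)) = Complex.arg r := by
  have h1r : 1 + r ≠ 0 := by
    intro h0
    have : r = -1 := by linear_combination h0
    rw [this] at h
    exact h Complex.arg_neg_one
  have hr1 : r / (1 + r) ≠ 0 := div_ne_zero hr h1r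
  have him : (r / (1 + r)).im = r.im / Complex.normSq (1 + r) := by
    rw [Complex.div_im]
    simp only [Complex.add_re, Complex.one_re, Complex.add_im, Complex.one_im]
    ring
  have hns : 0 < Complex.normSq (1 + r) := Complex.normSq_pos.2 h1r
  have hang : ((Complex.arg r : ℝ) : Real.Angle) =
      ((Complex.arg (1 + r) + Complex.arg (r / (1 + r)) : ℝ) : Real.Angle) := by
    rw [Real.Angle.coe_add, ← Complex.arg_mul_coe_angle h1r hr1, mul_div_cancel₀ _ h1r]
  obtain ⟨k, hk⟩ := Real.Angle.angle_eq_iff_two_pi_dvd_sub.1 hang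
  have fin : ∀ b : ℝ, -1 < (k : ℝ) → (k : ℝ) < 1 → k = 0 := by
    intro _ h2 h3
    have h2' : (-1 : ℤ) < k := by exact_mod_cast h2
    have h3' : k < 1 := by exact_mod_cast h3
    omega
  have hpi := pi_pos
  rcases lt_trichotomy r.im 0 with hi | hi | hi
  · have a1 : Complex.arg r < 0 := Complex.arg_neg_iff.2 hi
    have a2 : Complex.arg (1 + r) < 0 := Complex.arg_neg_iff.2 (by simpa using hi)
    have a3 : Complex.arg (r / (1 + r)) < 0 :=
      Complex.arg_neg_iff.2 (by rw [him]; exact div_neg_of_neg_of_pos hi hns)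
    have b1 := Complex.neg_pi_lt_arg r
    have b2 := Complex.neg_pi_lt_arg (1 + r)
    have b3 := Complex.neg_pi_lt_arg (r / (1 + r))
    have hk0 : k = 0 := by
      refine fin 0 ?_ ?_
      · by_contra hcon
        push Not at hcon
        nlinarith
      · by_contra hcon
        push Not at hcon
        nlinarith
    rw [hk0] at hk
    simp at hk
    linarith
  · have hre : 0 < r.re := by
      by_contra hcon
      push Not at hcon
      rcases eq_or_lt_of_le hcon with h2 | h2
      · exact hr (Complex.ext h2 hi)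
      · exact h (Complex.arg_eq_pi_iff.2 ⟨h2, hi⟩)
    have hrr : r = (r.re : ℂ) := Complex.ext (by simp) (by simpa using hi)
    have e1 : Complex.arg r = 0 := by rw [hrr]; exact Complex.arg_ofReal_of_nonneg hre.le
    have e2 : Complex.arg (1 + r) = 0 := by
      have : 1 + r = ((1 + r.re : ℝ) : ℂ) := by rw [hrr]; simp
      rw [this]
      exact Complex.arg_ofReal_of_nonneg (by linarith)
    have e3 : Complex.arg (r / (1 + r)) = 0 := by
      have : r / (1 + r) = ((r.re / (1 + r.re) : ℝ) : ℂ) := by rw [hrr]; simp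
      rw [this]
      exact Complex.arg_ofReal_of_nonneg (by positivity)
    rw [e1, e2, e3, add_zero]
  · have a1 : 0 < Complex.arg r := arg_pos_of_im_pos hi
    have a2 : 0 < Complex.arg (1 + r) := arg_pos_of_im_pos (by simpa using hi)
    have a3 : 0 < Complex.arg (r / (1 + r)) :=
      arg_pos_of_im_pos (by rw [him]; exact div_pos hi hns)
    have b1 := Complex.arg_le_pi r
    have b2 := Complex.arg_le_pi (1 + r)
    have b3 := Complex.arg_le_pi (r / (1 + r))
    have hk0 : k = 0 := by
      refine fin 0 ?_ ?_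
      · by_contra hcon
        push Not at hcon
        nlinarith
      · by_contra hcon
        push Not at hcon
        nlinarith
    rw [hk0] at hk
    simp at hk
    linarith

theorem arg_tri {a b : ℂ} (ha : a ≠ 0) (hb : b ≠ 0) (h : Complex.arg (b / a) ≠ π) :
    Complex.arg ((a + b) / a) + Complex.arg (b / (a + b)) = Complex.arg (b / a) := by
  have h1 := arg_tri_aux (div_ne_zero hb ha) h
  have e1 : (a + b) / a = 1 + b / a := by field_simp
  have e2 : b / (a + b) = b / a / (1 + b / a) := by
    rw [← e1]
    field_simp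
  rw [e1, e2]
  exact h1

end Pool.Agent.H57.FC
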