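import Pool.Agent.H57.FC.Base

set_option autoImplicit false

/-! ROW BAS (about 130 lines). Basic facts on `Adm` and `Eqv`.

`Adm.shift`: clear.  `per_mul`: induction on k.
`Adm.inj`: vertices are distinct within a period: for `i < j < i + n` the points `x i`, `x j` differ: `j = i + 1`: `ne`;
`j = i + n - 1`: `x (i + n) = x i` and `ne (i + n - 1)`; otherwise the edges at `i` and `j` are disjoint and contain them.
`simp_of_range`: given `i + 1 < j`, `j + 1 < i + n`; subtract `n * (i / n)` from both (periodicity), so `i < n`; if `j < n` done;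
else replace `j` by `j - n` and swap the roles (`Disjoint.symm`): `(j - n) + 1 < i`, `i + 1 < (j - n) + n`.
`Adm.of_eqv`: `ne` from the distances; `obt`: `2 * inner (b - a) (c - b) = dist a c ^ 2 - dist a b ^ 2 - dist b c ^ 2`.
`Eqv.of_range`: periodicity, `i % n`.
`Adm.map` / `Adm.of_map`: an affine isometric map `i ↦ L (x i) + c`; `segment ℝ (L a + c) (L b + c)` is the image of
`segment ℝ a b` under the injective map `v ↦ L v + c` (`segment_image`-type lemmas or by hand: `L (s a + t b) + c =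
s (L a + c) + t (L b + c)` if `s + t = 1`), inner products are preserved.
`Jl`: the map `J` as a linear isometry. -/

namespace Pool.Agent.H57.FC

variable {V W : Type*} [NormedAddCommGroup V] [InnerProductSpace ℝ V]
  [NormedAddCommGroup W] [InnerProductSpace ℝ W]

theorem per_mul {n : ℕ} {x : ℕ → V} (hx : ∀ i, x (i + n) = x i) (i k : ℕ) : x (i + k * n) = x i := by
  induction k with
  | zero => simp
  | succ k ih =>
    have : i + (k + 1) * n = (i + k * n) + n := by ring
    rw [this, hx, ih]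

theorem BAS_mod {n : ℕ} {x : ℕ → V} (hx : ∀ i, x (i + n) = x i) (i s : ℕ) :
    x (i + s) = x (i % n + s) := by
  have h := per_mul hx (i % n + s) (i / n)
  have h2 : i % n + s + i / n * n = i + s := by
    have := Nat.mod_add_div i n
    rw [mul_comm] at this
    omega
  rw [h2] at h
  exact h

theorem Adm.shift {n : ℕ} {x : ℕ → V} (hx : Adm n x) (s : ℕ) : Adm n (fun i => x (i + s)) := by
  refine ⟨fun i => ?_, fun i j h1 h2 => ?_, fun i => ?_, fun i => ?_⟩
  · show x (i + n + s) = x (i + s)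
    rw [show i + n + s = i + s + n by ring]
    exact hx.per _
  · show Disjoint (segment ℝ (x (i + s)) (x (i + 1 + s))) (segment ℝ (x (j + s)) (x (j + 1 + s)))
    rw [show i + 1 + s = i + s + 1 by ring, show j + 1 + s = j + s + 1 by ring]
    exact hx.simp _ _ (by omega) (by omega)
  · show x (i + 1 + s) ≠ x (i + s)
    rw [show i + 1 + s = i + s + 1 by ring]
    exact hx.ne _
  · show 0 ≤ inner ℝ (x (i + 1 + s) - x (i + s)) (x (i + 2 + s) - x (i + 1 + s))
    rw [show i + 1 + s = i + s + 1 by ring, show i + 2 + s = i + s + 2 by ring]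
    exact hx.obt _

theorem Adm.inj {n : ℕ} {x : ℕ → V} (hx : Adm n x) {i j : ℕ} (hij : i < j) (hj : j < i + n) : x i ≠ x j := by
  by_cases h1 : j = i + 1
  · subst h1; exact (hx.ne i).symm
  by_cases h2 : j + 1 = i + n
  · have h3 := hx.ne j
    rw [h2, hx.per] at h3
    exact h3
  · have h3 := hx.simp i j (by omega) (by omega)
    intro h4
    exact Set.disjoint_left.1 h3 (left_mem_segment ℝ (x i) (x (i + 1)))
      (h4 ▸ left_mem_segment ℝ (x j) (x (j + 1)))

theorem simp_of_range {n : ℕ} (hn : 0 < n) {x : ℕ → V} (hx : ∀ i, x (i + n) = x i)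
    (h : ∀ i j, i + 1 < j → j < n → j + 1 < i + n →
      Disjoint (segment ℝ (x i) (x (i + 1))) (segment ℝ (x j) (x (j + 1)))) :
    ∀ i j, i + 1 < j → j + 1 < i + n →
      Disjoint (segment ℝ (x i) (x (i + 1))) (segment ℝ (x j) (x (j + 1))) := by
  have key : ∀ i j, i < n → i + 1 < j → j + 1 < i + n →
      Disjoint (segment ℝ (x i) (x (i + 1))) (segment ℝ (x j) (x (j + 1))) := by
    intro i j hi h1 h2
    by_cases hj : j < n
    · exact h i j h1 hj h2
    · obtain ⟨j', rfl⟩ : ∃ j', j = j' + n := ⟨j - n, by omega⟩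
      have h3 := h j' i (by omega) hi (by omega)
      rw [show j' + n + 1 = j' + 1 + n by ring, hx, hx]
      exact h3.symm
  intro i j h1 h2
  have hi := Nat.mod_lt i hn
  have hd := Nat.mod_add_div i n
  obtain ⟨j', hj'⟩ : ∃ j', j = j' + i / n * n := ⟨j - i / n * n, by
    have : n * (i / n) = i / n * n := mul_comm _ _
    omega⟩
  have hc : n * (i / n) = i / n * n := mul_comm _ _
  have h3 := key (i % n) j' hi (by omega) (by omega)
  have e0 := BAS_mod hx i 0
  have e1 := BAS_mod hx i 1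
  have e2 : x j = x j' := by rw [hj']; exact per_mul hx _ _
  have e3 : x (j + 1) = x (j' + 1) := by
    rw [hj', show j' + i / n * n + 1 = j' + 1 + i / n * n by ring]; exact per_mul hx _ _
  simp only [add_zero] at e0
  rw [e0, e1, e2, e3]
  exact h3

theorem BAS_inner (a b c : V) : inner ℝ (b - a) (c - b) =
    (dist a c ^ 2 - dist a b ^ 2 - dist b c ^ 2) / 2 := by
  have h1 : ‖(b - a) + (c - b)‖ ^ 2 = ‖b - a‖ ^ 2 + 2 * inner ℝ (b - a) (c - b) + ‖c - b‖ ^ 2 :=
    norm_add_sq_real _ _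
  rw [dist_comm a c, dist_comm a b, dist_comm b c, dist_eq_norm, dist_eq_norm, dist_eq_norm]
  have h2 : (b - a) + (c - b) = c - a := by abel
  rw [h2] at h1
  linarith

theorem Adm.of_eqv {n : ℕ} {x : ℕ → V} {y : ℕ → W} (hx : Adm n x) (he : Eqv y x)
    (hy : ∀ i, y (i + n) = y i)
    (hs : ∀ i j, i + 1 < j → j + 1 < i + n →
      Disjoint (segment ℝ (y i) (y (i + 1))) (segment ℝ (y j) (y (j + 1)))) : Adm n y := by
  refine ⟨hy, hs, fun i h => ?_, fun i => ?_⟩
  · have h1 := (he i).1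
    rw [h, dist_self] at h1
    exact hx.ne i (dist_eq_zero.1 h1.symm).symm
  · have h1 := hx.obt i
    rw [BAS_inner] at h1 ⊢
    rw [(he i).1, (he i).2, (he (i + 1)).1]
    exact h1

theorem Eqv.of_range {n : ℕ} (hn : 0 < n) {x : ℕ → V} {y : ℕ → W}
    (hx : ∀ i, x (i + n) = x i) (hy : ∀ i, y (i + n) = y i)
    (h : ∀ i, i < n → dist (x i) (x (i + 1)) = dist (y i) (y (i + 1)) ∧
      dist (x i) (x (i + 2)) = dist (y i) (y (i + 2))) : Eqv x y := by
  intro i
  have h1 := h (i % n) (Nat.mod_lt i hn)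
  have e0 := BAS_mod hx i 0
  have f0 := BAS_mod hy i 0
  simp only [add_zero] at e0 f0
  rw [e0, f0, BAS_mod hx i 1, BAS_mod hy i 1, BAS_mod hx i 2, BAS_mod hy i 2]
  exact h1

/-- the affine map `v ↦ L v + c` -/
def BAS_aff (L : V →ₗᵢ[ℝ] W) (c : W) : V →ᵃ[ℝ] W where
  toFun v := L v + c
  linear := L.toLinearMap
  map_vadd' p v := by
    simp only [vadd_eq_add, map_add, LinearIsometry.coe_toLinearMap]
    abel

theorem BAS_seg (L : V →ₗᵢ[ℝ] W) (c : W) (a b : V) :
    segment ℝ (L a + c) (L b + c) = (fun v => L v + c) '' segment ℝ a b :=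
  (image_segment ℝ (BAS_aff L c) a b).symm

theorem BAS_injf (L : V →ₗᵢ[ℝ] W) (c : W) : Function.Injective (fun v => L v + c) := by
  intro a b h
  exact L.injective (add_right_cancel h)

theorem BAS_in (L : V →ₗᵢ[ℝ] W) (c : W) (a b d : V) :
    inner ℝ (L b + c - (L a + c)) (L d + c - (L b + c)) = inner ℝ (b - a) (d - b) := by
  rw [add_sub_add_right_eq_sub, add_sub_add_right_eq_sub, ← map_sub, ← map_sub, L.inner_map_map]

theorem Adm.map {n : ℕ} {x : ℕ → V} (hx : Adm n x) (L : V →ₗᵢ[ℝ] W) (c : W) :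
    Adm n (fun i => L (x i) + c) := by
  refine ⟨fun i => ?_, fun i j h1 h2 => ?_, fun i h => ?_, fun i => ?_⟩
  · show L (x (i + n)) + c = L (x i) + c
    rw [hx.per]
  · show Disjoint (segment ℝ (L (x i) + c) (L (x (i + 1)) + c))
      (segment ℝ (L (x j) + c) (L (x (j + 1)) + c))
    rw [BAS_seg, BAS_seg]
    exact (Set.disjoint_image_iff (BAS_injf L c)).2 (hx.simp i j h1 h2)
  · exact hx.ne i (BAS_injf L c h)
  · show 0 ≤ inner ℝ (L (x (i + 1)) + c - (L (x i) + c)) (L (x (i + 2)) + c - (L (x (i + 1)) + c))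
    rw [BAS_in]
    exact hx.obt i

theorem Adm.of_map {n : ℕ} {x : ℕ → V} (L : V →ₗᵢ[ℝ] W) (c : W)
    (hx : Adm n (fun i => L (x i) + c)) : Adm n x := by
  refine ⟨fun i => ?_, fun i j h1 h2 => ?_, fun i h => ?_, fun i => ?_⟩
  · exact BAS_injf L c (hx.per i)
  · have h3 := hx.simp i j h1 h2
    have h4 : Disjoint (segment ℝ (L (x i) + c) (L (x (i + 1)) + c))
      (segment ℝ (L (x j) + c) (L (x (j + 1)) + c)) := h3
    rw [BAS_seg, BAS_seg] at h4
    exact (Set.disjoint_image_iff (BAS_injf L c)).1 h4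
  · exact hx.ne i (by show L (x (i + 1)) + c = L (x i) + c; rw [h])
  · have h3 : 0 ≤ inner ℝ (L (x (i + 1)) + c - (L (x i) + c))
        (L (x (i + 2)) + c - (L (x (i + 1)) + c)) := hx.obt i
    rw [BAS_in] at h3
    exact h3

theorem exists_Jl : ∃ L : ℂ →ₗᵢ[ℝ] E3, ∀ z, L z = J z := by
  refine ⟨⟨⟨⟨J, fun x y => ?_⟩, fun r x => ?_⟩, fun z => ?_⟩, fun z => rfl⟩
  · ext i; fin_cases i <;> simp [J]
  · ext i; fin_cases i <;> simp [J]
  · show ‖J z‖ = ‖z‖
    rw [EuclideanSpace.norm_eq, Fin.sum_univ_three, Complex.norm_eq_sqrt_sq_add_sq]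
    simp [J]

end Pool.Agent.H57.FC
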