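import Mathlib

set_option autoImplicit false

namespace Pool.Agent.H57.FC

open Real

/-- Euclidean 3-space -/
abbrev E3 := EuclideanSpace ℝ (Fin 3)

/-- A closed chain with `n` vertices is written as an `n`-periodic sequence `x : ℕ → V`.
`Adm n x`: the chain is periodic, any two nonadjacent edges are disjoint, the edges have positive length and
all joint angles are at least `π/2` (then adjacent edges only meet in their common vertex). -/
structure Adm {V : Type*} [NormedAddCommGroup V] [InnerProductSpace ℝ V] (n : ℕ) (x : ℕ → V) : Prop where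
  per : ∀ i, x (i + n) = x i
  simp : ∀ i j, i + 1 < j → j + 1 < i + n →
    Disjoint (segment ℝ (x i) (x (i + 1))) (segment ℝ (x j) (x (j + 1)))
  ne : ∀ i, x (i + 1) ≠ x i
  obt : ∀ i, 0 ≤ inner ℝ (x (i + 1) - x i) (x (i + 2) - x (i + 1))

/-- same edge lengths and same joint angles (the angle at a vertex is encoded by the distance of its two
neighbours) -/
def Eqv {V W : Type*} [NormedAddCommGroup V] [NormedAddCommGroup W] (x : ℕ → V) (y : ℕ → W) : Prop :=
  ∀ i, dist (x i) (x (i + 1)) = dist (y i) (y (i + 1)) ∧ dist (x i) (x (i + 2)) = dist (y i) (y (i + 2))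

/-- joined by a motion -/
def Conn (n : ℕ) (x y : ℕ → E3) : Prop :=
  ∃ γ : ℝ → ℕ → E3, (∀ i, Continuous fun t => γ t i) ∧ γ 0 = x ∧ γ 1 = y ∧
    ∀ t, 0 ≤ t → t ≤ 1 → Adm n (γ t) ∧ Eqv (γ t) x

/-- the plane as the plane `third coordinate = 0` of 3-space -/
noncomputable def J (z : ℂ) : E3 := !₂[z.re, z.im, 0]

/-- rotation of 3-space about the first axis by the angle `t` -/
noncomputable def rot (t : ℝ) (v : E3) : E3 :=
  !₂[v 0, cos t * v 1 - sin t * v 2, sin t * v 1 + cos t * v 2]

/-- turn (exterior angle with sign) of a planar chain at the vertex `i + 1` -/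
noncomputable def trn (z : ℕ → ℂ) (i : ℕ) : ℝ :=
  Complex.arg ((z (i + 2) - z (i + 1)) / (z (i + 1) - z i))

end Pool.Agent.H57.FC
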