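import Pool.Agent.H57.FC.Rig

set_option autoImplicit false

/-! ROW BMP (about 180 lines). The crank motion: the vertices `m, m+1, ..., n` of `z` are rotated about the real axis.

PROOF. From h1, h2, h3, periodicity: `z 0` (= `z n`), `z m`, `z (m+1)`, `z (n-1)` are real (equal to their conjugates), hence fixed
by `rot θ` after `J`.  Define `γ t i = if i % n ≤ m then J (z i) else rot (π * t) (J (z i))` (continuous, n-periodic).
(F1) for `i ≤ m + 1`, and for `i = n - 1`, and `i = n`: `γ t i = J (z i)`; (F2) for `m ≤ i ≤ n`: `γ t i = rot (π t) (J (z i))`.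
`Eqv (γ t) (J ∘ z)` by `Eqv.of_range`: for `i < n` the points `i, i+1` are both in `[0, m]` or both in `[m, n]`; the points
`i, i+2` are both in `[0, m+1]`, or both in `[m, n]`, or `i = n - 1` (then both are fixed: `n - 1`, and `n + 1 ≡ 1 ≤ m`).
`γ 0 = J ∘ z` (`rot 0 = id`).  `γ 1 = J ∘ w`: for `i < n` with `i ≤ m` by h1, else by h2 (`rot π (J c) = J (conj c)`), periodicity.
`Adm n (γ t)` by `Adm.of_eqv`; disjointness by `simp_of_range`, `i + 1 < j < n`, `j + 1 < i + n`:
for `t = 0`, `t = 1` it holds since `z`, `w` are admissible (`Adm.map` with `exists_Jl`).  For `0 < t < 1`: if both edges are in `[0, m]`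
or both in `[m, n]` the pair is an isometric image of the pair in `J ∘ z`.  Else `i + 1 ≤ m ≤ j`: a common point is `J c` with
`c ∈ segment (z i) (z (i+1))`, and also `rot (π t) (J c')`, `c' ∈ segment (z j) (z (j+1))`; third coordinate:
`sin (π t) * im c' = 0`, so `im c' = 0`, `rot (π t) (J c') = J c'`, `c = c'`: contradiction to `hz.simp`. -/

namespace Pool.Agent.H57.FC

open Real

private theorem bmp_J_fix (θ : ℝ) {c : ℂ} (hc : c.im = 0) : rot θ (J c) = J c := by
  ext i
  fin_cases i <;> simp [rot, J, hc]

private theorem bmp_rot_cos_one {θ : ℝ} (hs : sin θ = 0) (hc : cos θ = 1) (c : ℂ) :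
    rot θ (J c) = J c := by
  ext i
  fin_cases i <;> simp [rot, J, hs, hc]

private theorem bmp_rot_cos_neg {θ : ℝ} (hs : sin θ = 0) (hc : cos θ = -1) (c : ℂ) :
    rot θ (J c) = J ((starRingEnd ℂ) c) := by
  ext i
  fin_cases i <;> simp [rot, J, hs, hc]

private theorem bmp_J_inj {c d : ℂ} (h : J c = J d) : c = d := by
  have h0 := congrArg (fun v : E3 => v 0) h
  have h1 := congrArg (fun v : E3 => v 1) h
  simp [J] at h0 h1
  exact Complex.ext h0 h1

private theorem bmp_im {c : ℂ} (h : c = (starRingEnd ℂ) c) : c.im = 0 := by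
  have := congrArg Complex.im h
  rw [Complex.conj_im] at this
  linarith

private theorem bmp_cont (v : E3) : Continuous fun t : ℝ => rot (π * t) v := by
  unfold rot
  refine (PiLp.continuous_toLp 2 _).comp (continuous_pi fun i => ?_)
  fin_cases i
  · exact continuous_const
  · show Continuous fun t : ℝ => cos (π * t) * v 1 - sin (π * t) * v 2
    fun_prop
  · show Continuous fun t : ℝ => sin (π * t) * v 1 + cos (π * t) * v 2
    fun_prop

private theorem bmp_segJ {a b : ℂ} {p : E3} (hp : p ∈ segment ℝ (J a) (J b)) :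
    ∃ q ∈ segment ℝ a b, J q = p := by
  obtain ⟨L, hL⟩ := exists_Jl
  obtain ⟨s, t, hs, ht, hst, rfl⟩ := hp
  refine ⟨s • a + t • b, ⟨s, t, hs, ht, hst, rfl⟩, ?_⟩
  rw [← hL, ← hL, ← hL, map_add, map_smul, map_smul]

private theorem bmp_segR {θ : ℝ} {a b : ℂ} {p : E3}
    (hp : p ∈ segment ℝ (rot θ (J a)) (rot θ (J b))) :
    ∃ q ∈ segment ℝ a b, rot θ (J q) = p := by
  obtain ⟨L, hL⟩ := exists_Jl
  obtain ⟨R, hR⟩ := rot_isom θ
  obtain ⟨s, t, hs, ht, hst, rfl⟩ := hp
  refine ⟨s • a + t • b, ⟨s, t, hs, ht, hst, rfl⟩, ?_⟩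
  rw [← hL, ← hL, ← hL, ← hR, ← hR, ← hR, map_add, map_add, map_smul, map_smul, map_smul, map_smul]

private theorem bmp_conj_seg {a b q : ℂ} (hq : q ∈ segment ℝ a b) :
    (starRingEnd ℂ) q ∈ segment ℝ ((starRingEnd ℂ) a) ((starRingEnd ℂ) b) := by
  obtain ⟨s, t, hs, ht, hst, rfl⟩ := hq
  refine ⟨s, t, hs, ht, hst, ?_⟩
  simp

theorem bump_motion {n m : ℕ} (hm : 1 ≤ m) (hmn : m + 1 < n) {z w : ℕ → ℂ} (hz : Adm n z) (hw : Adm n w)
    (h1 : ∀ i, i ≤ m + 1 → w i = z i) (h2 : ∀ i, m ≤ i → i ≤ n → w i = (starRingEnd ℂ) (z i))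
    (h3 : w (n - 1) = z (n - 1)) :
    Conn n (fun i => J (z i)) (fun i => J (w i)) := by
  have hn : 0 < n := by omega
  -- real points
  have hn0 : z n = z 0 := by have := hz.per 0; rwa [zero_add] at this
  have hwn0 : w n = w 0 := by have := hw.per 0; rwa [zero_add] at this
  have r0 : (z n).im = 0 := by
    apply bmp_im
    rw [← h2 n (by omega) le_rfl, hwn0, h1 0 (by omega), hn0]
  have rm : (z m).im = 0 := bmp_im (by rw [← h2 m le_rfl (by omega), h1 m (by omega)])
  have rm1 : (z (m + 1)).im = 0 :=
    bmp_im (by rw [← h2 (m + 1) (by omega) (by omega), h1 (m + 1) le_rfl])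
  have rn1 : (z (n - 1)).im = 0 :=
    bmp_im (by rw [← h2 (n - 1) (by omega) (by omega), h3])
  obtain ⟨JL, hJL⟩ := exists_Jl
  have hJz : Adm n (fun i => J (z i)) := by
    have := hz.map JL 0
    simpa only [hJL, add_zero] using this
  have hper : ∀ i, J (z (i + n)) = J (z i) := fun i => by rw [hz.per]
  -- the motion
  let γ : ℝ → ℕ → E3 := fun t i => if i % n ≤ m then J (z i) else rot (π * t) (J (z i))
  have γper : ∀ t i, γ t (i + n) = γ t i := by
    intro t i
    simp only [γ, Nat.add_mod_right, hz.per]
  have F1 : ∀ t i, i ≤ m + 1 → γ t i = J (z i) := by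
    intro t i hi
    have hmod : i % n = i := Nat.mod_eq_of_lt (by omega)
    simp only [γ, hmod]
    split_ifs with h
    · rfl
    · have : i = m + 1 := by omega
      subst this
      exact bmp_J_fix _ rm1
  have F1n : ∀ t, γ t (n - 1) = J (z (n - 1)) := by
    intro t
    simp only [γ]
    split_ifs with h
    · rfl
    · exact bmp_J_fix _ rn1
  have F1n' : ∀ t, γ t (n - 1 + 2) = J (z (n - 1 + 2)) := by
    intro t
    have e : n - 1 + 2 = 1 + n := by omega
    rw [e, γper, hz.per]
    exact F1 t 1 (by omega)
  have F2 : ∀ t i, m ≤ i → i ≤ n → γ t i = rot (π * t) (J (z i)) := by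
    intro t i hi hin
    simp only [γ]
    split_ifs with h
    · rcases Nat.lt_or_ge i n with h' | h'
      · rw [Nat.mod_eq_of_lt h'] at h
        have : i = m := by omega
        subst this
        exact (bmp_J_fix _ rm).symm
      · have : i = n := by omega
        subst this
        exact (bmp_J_fix _ r0).symm
    · rfl
  have hEqv : ∀ t, Eqv (γ t) (fun i => J (z i)) := by
    intro t
    obtain ⟨R, hR⟩ := rot_isom (π * t)
    have hRd : ∀ a b, dist (rot (π * t) a) (rot (π * t) b) = dist a b := by
      intro a b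
      rw [← hR, ← hR]
      exact R.dist_map a b
    refine Eqv.of_range hn (γper t) hper fun i hi => ⟨?_, ?_⟩
    · rcases Nat.lt_or_ge m i with h | h
      · rw [F2 t i h.le hi.le, F2 t (i + 1) (by omega) (by omega), hRd]
      · rw [F1 t i (by omega), F1 t (i + 1) (by omega)]
    · rcases Nat.lt_or_ge i m with h | h
      · rw [F1 t i (by omega), F1 t (i + 2) (by omega)]
      · rcases Nat.lt_or_ge (i + 2) (n + 1) with h' | h'
        · rw [F2 t i h hi.le, F2 t (i + 2) (by omega) (by omega), hRd]
        · have : i = n - 1 := by omega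
          subst this
          rw [F1n, F1n']
  have hAdm : ∀ t, Adm n (γ t) := by
    intro t
    refine Adm.of_eqv hJz (hEqv t) (γper t) (simp_of_range hn (γper t) ?_)
    intro i j hij hj hji
    rcases Nat.lt_or_ge m j with hmj | hmj
    · rcases Nat.lt_or_ge i m with him | him
      · -- one edge of each kind
        rw [F1 t i (by omega), F1 t (i + 1) (by omega), F2 t j hmj.le hj.le,
          F2 t (j + 1) (by omega) (by omega), Set.disjoint_left]
        intro p hp hp'
        obtain ⟨q, hq, rfl⟩ := bmp_segJ hp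
        obtain ⟨q', hq', he⟩ := bmp_segR hp'
        by_cases hs : sin (π * t) = 0
        · have hc : cos (π * t) = 1 ∨ cos (π * t) = -1 := by
            have h := sin_sq_add_cos_sq (π * t)
            rw [hs] at h
            have h' : (cos (π * t) - 1) * (cos (π * t) + 1) = 0 := by nlinarith
            rcases mul_eq_zero.1 h' with h'' | h''
            · left; linarith
            · right; linarith
          rcases hc with hc | hc
          · rw [bmp_rot_cos_one hs hc] at he
            have hqq := bmp_J_inj he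
            rw [hqq] at hq'
            exact Set.disjoint_left.1 (hz.simp i j hij hji) hq hq'
          · rw [bmp_rot_cos_neg hs hc] at he
            have hqq := bmp_J_inj he
            have h4 := bmp_conj_seg hq'
            rw [hqq, ← h2 j hmj.le hj.le, ← h2 (j + 1) (by omega) (by omega)] at h4
            rw [← h1 i (by omega), ← h1 (i + 1) (by omega)] at hq
            exact Set.disjoint_left.1 (hw.simp i j hij hji) hq h4
        · have h5 := congrArg (fun v : E3 => v 2) he
          have h6 : sin (π * t) * q'.im = 0 := by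
            simpa [rot, J] using h5
          have h7 : q'.im = 0 := (mul_eq_zero.1 h6).resolve_left hs
          rw [bmp_J_fix _ h7] at he
          have hqq := bmp_J_inj he
          rw [hqq] at hq'
          exact Set.disjoint_left.1 (hz.simp i j hij hji) hq hq'
      · -- both edges are rotated
        rw [F2 t i him (by omega), F2 t (i + 1) (by omega) (by omega), F2 t j hmj.le hj.le,
          F2 t (j + 1) (by omega) (by omega)]
        obtain ⟨R, hR⟩ := rot_isom (π * t)
        have h8 := (hJz.map R 0).simp i j hij hji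
        simpa only [hR, add_zero] using h8
    · rw [F1 t i (by omega), F1 t (i + 1) (by omega), F1 t j (by omega), F1 t (j + 1) (by omega)]
      exact hJz.simp i j hij hji
  refine ⟨γ, ?_, ?_, ?_, fun t _ _ => ⟨hAdm t, hEqv t⟩⟩
  · intro i
    simp only [γ]
    split_ifs
    · exact continuous_const
    · exact bmp_cont _
  · funext i
    simp only [γ]
    split_ifs
    · rfl
    · exact bmp_rot_cos_one (by simp) (by simp) _
  · funext i
    have hzi : z i = z (i % n) := by
      have := per_mul hz.per (i % n) (i / n)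
      rw [← this]
      congr 1
      rw [mul_comm]
      exact (Nat.mod_add_div i n).symm
    have hwi : w i = w (i % n) := by
      have := per_mul hw.per (i % n) (i / n)
      rw [← this]
      congr 1
      rw [mul_comm]
      exact (Nat.mod_add_div i n).symm
    have hlt : i % n < n := Nat.mod_lt _ hn
    simp only [γ]
    split_ifs with h
    · rw [hzi, hwi, h1 _ (by omega)]
    · rw [bmp_rot_cos_neg (by simp) (by simp), hzi, hwi, h2 _ (by omega) hlt.le]

end Pool.Agent.H57.FC
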