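import Pool.Agent.H57.FC.Trn

set_option autoImplicit false

/-! ROW CGR (about 60 lines). Same lengths and same turns: congruent.

PROOF. Periodicity (`trn_per`): `trn z i = trn w i` for all i.  Put `u = (w 1 - w 0) / (z 1 - z 0)`, of norm 1 (`he 0`,
`dist = ‖ ‖`), `v = w 0 - u z 0`.  Induction: `w (i+1) - w i = u (z (i+1) - z i)`: with `r = (z (i+2) - z (i+1)) / (z (i+1) - z i)`,
`r' ` the same for w: `‖r‖ = ‖r'‖` and `arg r = arg r'`, so `r = r'` (`Complex.ext_norm_arg`).  Then `w i = u z i + v` by
induction. -/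

namespace Pool.Agent.H57.FC

open Real

theorem CGR_norm {z w : ℕ → ℂ} (he : Eqv z w) (i : ℕ) : ‖w (i + 1) - w i‖ = ‖z (i + 1) - z i‖ := by
  have h := (he i).1
  rw [dist_comm (z i), dist_comm (w i), dist_eq_norm, dist_eq_norm] at h
  exact h.symm

theorem congruent {n : ℕ} (hn : 3 ≤ n) {z w : ℕ → ℂ} (hz : Adm n z) (hw : Adm n w) (he : Eqv z w)
    (h : ∀ i, i < n → trn z i = trn w i) : ∃ u v : ℂ, ‖u‖ = 1 ∧ ∀ i, w i = u * z i + v := by
  have hz0 : ∀ i, z (i + 1) - z i ≠ 0 := fun i => sub_ne_zero.mpr (hz.ne i)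
  have hw0 : ∀ i, w (i + 1) - w i ≠ 0 := fun i => sub_ne_zero.mpr (hw.ne i)
  have hper : ∀ i, trn z i = trn w i := by
    intro i
    have h1 : ∀ x : ℕ → ℂ, (∀ i, x (i + n) = x i) → ∀ k i, trn x (i + k * n) = trn x i := by
      intro x hx k
      induction k with
      | zero => intro i; simp
      | succ k ih =>
        intro i
        have h2 : i + (k + 1) * n = (i + k * n) + n := by ring
        rw [h2, ← ih i]
        unfold trn
        have e1 : i + k * n + n + 2 = (i + k * n + 2) + n := by ring
        have e2 : i + k * n + n + 1 = (i + k * n + 1) + n := by ring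
        rw [e1, e2, hx, hx, hx]
    have h2 : i = i % n + (i / n) * n := by
      have := Nat.mod_add_div i n
      rw [mul_comm] at this
      exact this.symm
    rw [h2, h1 z hz.per, h1 w hw.per]
    exact h _ (Nat.mod_lt _ (by omega))
  have hr : ∀ i, (w (i + 2) - w (i + 1)) / (w (i + 1) - w i)
      = (z (i + 2) - z (i + 1)) / (z (i + 1) - z i) := by
    intro i
    apply Complex.ext_norm_arg
    · rw [norm_div, norm_div, CGR_norm he i, CGR_norm he (i + 1)]
    · exact (hper i).symm
  refine ⟨(w 1 - w 0) / (z 1 - z 0), w 0 - (w 1 - w 0) / (z 1 - z 0) * z 0, ?_, ?_⟩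
  · rw [norm_div, CGR_norm he 0]
    exact div_self (norm_ne_zero_iff.mpr (hz0 0))
  · set u := (w 1 - w 0) / (z 1 - z 0) with hu
    have hstep : ∀ i, w (i + 1) - w i = u * (z (i + 1) - z i) := by
      intro i
      induction i with
      | zero =>
        rw [hu]
        have := hz0 0
        rw [zero_add] at this ⊢
        field_simp
      | succ i ih =>
        have h3 := hr i
        rw [div_eq_div_iff (hw0 i) (hz0 i), ih] at h3
        have h4 := hz0 i
        have h5 : (w (i + 2) - w (i + 1)) = u * (z (i + 2) - z (i + 1)) := by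
          apply mul_right_cancel₀ h4
          rw [h3]
          ring
        exact h5
    intro i
    induction i with
    | zero => ring
    | succ i ih =>
      have h4 := hstep i
      have h5 : w (i + 1) = u * (z (i + 1) - z i) + w i := by rw [← h4]; ring
      rw [h5, ih]
      ring

end Pool.Agent.H57.FC
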