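import Pool.Agent.H57.FC.Bas

set_option autoImplicit false

/-! ROW CNN (about 80 lines). `Conn` is an equivalence relation and shift invariant.

symm: `γ (1 - t)`.  trans: `γ₁ (min (2 t) 1) i + γ₂ (max (2 t - 1) 0) i - y i` (for `t ≤ 1/2` it is `γ₁ (2 t) i`, for `1/2 ≤ t`
it is `γ₂ (2 t - 1) i`).  of_shift: `γ' t i = γ t (i + (n - 1) * s)`, because `i + (n - 1) * s + s = i + s * n`
(`per_mul`, `Adm.shift`). -/

namespace Pool.Agent.H57.FC

theorem Cnn.eqv_symm {x y : ℕ → E3} (h : Eqv x y) : Eqv y x := fun i => ⟨(h i).1.symm, (h i).2.symm⟩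

theorem Cnn.eqv_trans {x y z : ℕ → E3} (h : Eqv x y) (h' : Eqv y z) : Eqv x z :=
  fun i => ⟨(h i).1.trans (h' i).1, (h i).2.trans (h' i).2⟩

theorem Conn.refl {n : ℕ} {x : ℕ → E3} (hx : Adm n x) : Conn n x x :=
  ⟨fun _ => x, fun _ => continuous_const, rfl, rfl, fun _ _ _ => ⟨hx, fun _ => ⟨rfl, rfl⟩⟩⟩

theorem Conn.symm {n : ℕ} {x y : ℕ → E3} (h : Conn n x y) : Conn n y x := by
  obtain ⟨γ, hc, h0, h1, h⟩ := h
  have hyx : Eqv y x := by
    have := (h 1 zero_le_one le_rfl).2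
    rwa [h1] at this
  refine ⟨fun t => γ (1 - t), fun i => (hc i).comp (continuous_const.sub continuous_id), ?_, ?_, ?_⟩
  · simp only [sub_zero, h1]
  · simp only [sub_self, h0]
  · intro t ht0 ht1
    obtain ⟨h2, h3⟩ := h (1 - t) (by linarith) (by linarith)
    exact ⟨h2, Cnn.eqv_trans h3 (Cnn.eqv_symm hyx)⟩

theorem Conn.trans {n : ℕ} {x y z : ℕ → E3} (h : Conn n x y) (h' : Conn n y z) : Conn n x z := by
  obtain ⟨γ, hc, h0, h1, h⟩ := h
  obtain ⟨γ', hc', h0', h1', h'⟩ := h'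
  have hyx : Eqv y x := by
    have := (h 1 zero_le_one le_rfl).2
    rwa [h1] at this
  set δ : ℝ → ℕ → E3 := fun t i => γ (min (2 * t) 1) i + γ' (max (2 * t - 1) 0) i - y i with hδ
  have e1 : ∀ t, t ≤ 1 / 2 → δ t = γ (2 * t) := by
    intro t ht
    funext i
    have h2 : min (2 * t) 1 = 2 * t := min_eq_left (by linarith)
    have h3 : max (2 * t - 1) 0 = 0 := max_eq_right (by linarith)
    simp only [hδ, h2, h3, h0']
    simp
  have e2 : ∀ t, 1 / 2 ≤ t → δ t = γ' (2 * t - 1) := by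
    intro t ht
    funext i
    have h2 : min (2 * t) 1 = 1 := min_eq_right (by linarith)
    have h3 : max (2 * t - 1) 0 = 2 * t - 1 := max_eq_left (by linarith)
    simp only [hδ, h2, h3, h1]
    simp
  refine ⟨δ, fun i => ?_, ?_, ?_, ?_⟩
  · refine ((hc i).comp ?_).add ((hc' i).comp ?_) |>.sub continuous_const
    · fun_prop
    · fun_prop
  · rw [e1 0 (by norm_num)]
    simpa using h0
  · rw [e2 1 (by norm_num)]
    have : (2 * 1 - 1 : ℝ) = 1 := by norm_num
    rw [this, h1']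
  · intro t ht0 ht1
    rcases le_total t (1 / 2) with ht | ht
    · rw [e1 t ht]
      exact h (2 * t) (by linarith) (by linarith)
    · rw [e2 t ht]
      obtain ⟨h2, h3⟩ := h' (2 * t - 1) (by linarith) (by linarith)
      exact ⟨h2, Cnn.eqv_trans h3 hyx⟩

theorem Conn.of_shift {n : ℕ} (hn : 0 < n) {x y : ℕ → E3} (s : ℕ) (hx : ∀ i, x (i + n) = x i)
    (hy : ∀ i, y (i + n) = y i) (h : Conn n (fun i => x (i + s)) (fun i => y (i + s))) : Conn n x y := by
  obtain ⟨γ, hc, h0, h1, h⟩ := h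
  have hs : ∀ i, i + (n - 1) * s + s = i + s * n := by
    intro i
    obtain ⟨m, rfl⟩ : ∃ m, n = m + 1 := ⟨n - 1, by omega⟩
    simp only [Nat.add_sub_cancel]
    ring
  refine ⟨fun t i => γ t (i + (n - 1) * s), fun i => hc _, ?_, ?_, ?_⟩
  · funext i
    have : γ 0 (i + (n - 1) * s) = x (i + (n - 1) * s + s) := by rw [h0]
    simp only [this, hs, per_mul hx]
  · funext i
    have : γ 1 (i + (n - 1) * s) = y (i + (n - 1) * s + s) := by rw [h1]
    simp only [this, hs, per_mul hy]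
  · intro t ht0 ht1
    obtain ⟨h2, h3⟩ := h t ht0 ht1
    refine ⟨h2.shift ((n - 1) * s), fun i => ?_⟩
    have h4 := h3 (i + (n - 1) * s)
    have a0 : x (i + (n - 1) * s + s) = x i := by rw [hs, per_mul hx]
    have a1 : x (i + (n - 1) * s + 1 + s) = x (i + 1) := by
      have : i + (n - 1) * s + 1 + s = (i + 1) + (n - 1) * s + s := by ring
      rw [this, hs, per_mul hx]
    have a2 : x (i + (n - 1) * s + 2 + s) = x (i + 2) := by
      have : i + (n - 1) * s + 2 + s = (i + 2) + (n - 1) * s + s := by ring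
      rw [this, hs, per_mul hx]
    simp only [a0, a1, a2] at h4
    have b1 : i + 1 + (n - 1) * s = i + (n - 1) * s + 1 := by ring
    have b2 : i + 2 + (n - 1) * s = i + (n - 1) * s + 2 := by ring
    simp only [b1, b2]
    exact h4

end Pool.Agent.H57.FC
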