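import Pool.Agent.H57.FC.Base

set_option autoImplicit false

/-! ROW CNT (about 90 lines). Counting for at most 7 vertices.

PROOF. Let `A = {σ i < 0 < σ' i}`, `B = {σ' i < 0 < σ i}`, `C = {σ i < 0, σ' i < 0}`, `D` = the rest (`σ i, σ' i ≥ 0`, hence equal).
On C and D `σ = σ'`.  Not all equal: `A ∪ B ≠ ∅`; subtracting the sums: `∑_A |σ| = ∑_B |σ|`, so both A and B are nonempty.
Adding the sums: `∑_D |σ| - ∑_C |σ| = 2 π` (as `σ + σ' = 0` on A, B).  As `|σ| ≤ π/2`: `|D| ≥ 4`, and `|D| ≥ 5` if C is nonempty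
(strict inequality).  `|A| + |B| + |C| + |D| = n ≤ 7`.  If C is nonempty: 1 + 1 + 1 + 5 > 7.  So C is empty and
`|A| + |B| ≤ 3`, so `|A| = 1` (then σ ≥ 0 off the element of A) or `|B| = 1` (then σ' ≥ 0 off the element of B). -/

namespace Pool.Agent.H57.FC

open Real

theorem count7 {n : ℕ} (hn : n ≤ 7) {σ σ' : ℕ → ℝ} (h1 : ∀ i, i < n → |σ i| ≤ π / 2)
    (h2 : ∀ i, i < n → |σ' i| = |σ i|) (s : ∑ i ∈ Finset.range n, σ i = 2 * π)
    (s' : ∑ i ∈ Finset.range n, σ' i = 2 * π) :
    (∀ i, i < n → σ i = σ' i) ∨ (∃ a, a < n ∧ ∀ i, i < n → i ≠ a → 0 ≤ σ i) ∨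
      (∃ a, a < n ∧ ∀ i, i < n → i ≠ a → 0 ≤ σ' i) := by
  by_contra hcon
  rw [not_or, not_or] at hcon
  obtain ⟨c1, c2, c3⟩ := hcon
  simp only [not_forall] at c1
  obtain ⟨i0, hi0, hne⟩ := c1
  have c2' : ∀ a, a < n → ∃ i, i < n ∧ i ≠ a ∧ σ i < 0 := by
    intro a ha
    by_contra hc
    apply c2
    refine ⟨a, ha, fun i hi hia => ?_⟩
    by_contra hc2
    exact hc ⟨i, hi, hia, not_le.1 hc2⟩
  have c3' : ∀ a, a < n → ∃ i, i < n ∧ i ≠ a ∧ σ' i < 0 := by
    intro a ha
    by_contra hc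
    apply c3
    refine ⟨a, ha, fun i hi hia => ?_⟩
    by_contra hc2
    exact hc ⟨i, hi, hia, not_le.1 hc2⟩
  have hπ := Real.pi_pos
  set S := (Finset.range n).filter (fun i => σ i < 0) with hS
  set S' := (Finset.range n).filter (fun i => σ' i < 0) with hS'
  have hcS : 2 ≤ S.card := by
    obtain ⟨i, hi, -, hi'⟩ := c2' i0 hi0
    obtain ⟨j, hj, hji, hj'⟩ := c2' i hi
    have : 1 < S.card := Finset.one_lt_card.2 ⟨i, by simp [hS, hi, hi'], j, by simp [hS, hj, hj'],
      fun h => hji h.symm⟩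
    omega
  have hcS' : 2 ≤ S'.card := by
    obtain ⟨i, hi, -, hi'⟩ := c3' i0 hi0
    obtain ⟨j, hj, hji, hj'⟩ := c3' i hi
    have : 1 < S'.card := Finset.one_lt_card.2
      ⟨i, by simp [hS', hi, hi'], j, by simp [hS', hj, hj'], fun h => hji h.symm⟩
    omega
  have habs : ∀ i, i < n → σ' i = σ i ∨ σ' i = -σ i := fun i hi => abs_eq_abs.1 (h2 i hi)
  -- the pointwise bound
  have hpt : ∀ i ∈ Finset.range n, σ i + σ' i ≤ if i ∈ S ∪ S' then 0 else π := by
    intro i hi
    have hin := Finset.mem_range.1 hi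
    have a1 := h1 i hin
    have a2 := habs i hin
    split_ifs with hu
    · rw [Finset.mem_union, hS, hS', Finset.mem_filter, Finset.mem_filter] at hu
      rcases a2 with a2 | a2
      · rw [a2] at hu ⊢
        rcases hu with hu | hu <;> linarith [hu.2]
      · rw [a2]
        linarith
    · rw [abs_le] at a1
      rcases a2 with a2 | a2
      · rw [a2]
        linarith [a1.2]
      · rw [a2]
        linarith
  have hsum : ∑ i ∈ Finset.range n, (σ i + σ' i) = 4 * π := by
    rw [Finset.sum_add_distrib, s, s']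
    ring
  have hsub : S ∪ S' ⊆ Finset.range n :=
    Finset.union_subset (Finset.filter_subset _ _) (Finset.filter_subset _ _)
  have hite : ∑ i ∈ Finset.range n, (if i ∈ S ∪ S' then 0 else π) =
      ((n : ℝ) - (S ∪ S').card) * π := by
    have e1 : ∀ i ∈ Finset.range n, (if i ∈ S ∪ S' then (0 : ℝ) else π) =
        π - (if i ∈ S ∪ S' then π else 0) := by
      intro i _
      split_ifs <;> ring
    rw [Finset.sum_congr rfl e1, Finset.sum_sub_distrib, Finset.sum_const, Finset.card_range,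
      ← Finset.sum_filter, Finset.sum_const]
    have e2 : (Finset.range n).filter (fun i => i ∈ S ∪ S') = S ∪ S' := by
      ext i
      rw [Finset.mem_filter]
      exact ⟨fun h => h.2, fun h => ⟨hsub h, h⟩⟩
    rw [e2, nsmul_eq_mul, nsmul_eq_mul]
    ring
  have hle := Finset.sum_le_sum hpt
  rw [hsum, hite] at hle
  have hU4 : (S ∪ S').card ≤ 3 := by
    have h4 : (4 : ℝ) ≤ (n : ℝ) - (S ∪ S').card := le_of_mul_le_mul_right hle hπ
    have h5 : ((S ∪ S').card : ℝ) ≤ 3 := by
      have : (n : ℝ) ≤ 7 := by exact_mod_cast hn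
      linarith
    exact_mod_cast h5
  have hinter : 1 ≤ (S ∩ S').card := by
    have := Finset.card_union_add_card_inter S S'
    omega
  obtain ⟨c, hc⟩ := Finset.card_pos.1 hinter
  have hcS1 := (Finset.mem_filter.1 (Finset.mem_inter.1 hc).1)
  have hcS2 := (Finset.mem_filter.1 (Finset.mem_inter.1 hc).2)
  have hlt : ∑ i ∈ Finset.range n, (σ i + σ' i) <
      ∑ i ∈ Finset.range n, (if i ∈ S ∪ S' then 0 else π) := by
    apply Finset.sum_lt_sum hpt
    refine ⟨c, hcS1.1, ?_⟩
    rw [if_pos (Finset.mem_union_left _ (Finset.mem_inter.1 hc).1)]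
    linarith [hcS1.2, hcS2.2]
  rw [hsum, hite] at hlt
  have hU2 : (S ∪ S').card ≤ 2 := by
    have h4 : (4 : ℝ) < (n : ℝ) - (S ∪ S').card := lt_of_mul_lt_mul_right hlt hπ.le
    have h5 : ((S ∪ S').card : ℝ) < 3 := by
      have : (n : ℝ) ≤ 7 := by exact_mod_cast hn
      linarith
    have h6 : (S ∪ S').card < 3 := by exact_mod_cast h5
    omega
  have hSU : S = S ∪ S' :=
    Finset.eq_of_subset_of_card_le Finset.subset_union_left (hU2.trans hcS)
  have hSU' : S' = S ∪ S' :=
    Finset.eq_of_subset_of_card_le Finset.subset_union_right (hU2.trans hcS')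
  have hSS : S = S' := hSU.trans hSU'.symm
  apply hne
  rcases habs i0 hi0 with h | h
  · exact h.symm
  · by_cases hneg : σ i0 < 0
    · have hm : i0 ∈ S := Finset.mem_filter.2 ⟨Finset.mem_range.2 hi0, hneg⟩
      rw [hSS] at hm
      have := (Finset.mem_filter.1 hm).2
      linarith
    · have hm : i0 ∉ S' := by
        rw [← hSS]
        intro hm
        exact hneg (Finset.mem_filter.1 hm).2
      have hnn : ¬ σ' i0 < 0 := fun h' => hm (Finset.mem_filter.2 ⟨Finset.mem_range.2 hi0, h'⟩)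
      rw [not_lt] at hneg hnn
      linarith

/-- if all turns of the first chain but the one at `a` are nonnegative, then the two chains have the same turns or
the turn at `a` changes sign and is negative for the first chain.
PROOF: if `σ a ≥ 0`: `∑ |σ i| = 2 π = ∑ σ' i ≤ ∑ |σ' i| = ∑ |σ i|`, so `σ' i = |σ' i| = |σ i| = σ i` for all i.
If `σ a < 0` and `σ' a < 0` (so `σ' a = σ a`): the same comparison of the sums over `i ≠ a`.
Else `σ a < 0`, `σ' a = -σ a` (`|σ' a| = |σ a|`). -/
theorem cases_one {n : ℕ} {σ σ' : ℕ → ℝ} {a : ℕ} (ha : a < n)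
    (h2 : ∀ i, i < n → |σ' i| = |σ i|) (s : ∑ i ∈ Finset.range n, σ i = 2 * π)
    (s' : ∑ i ∈ Finset.range n, σ' i = 2 * π) (h : ∀ i, i < n → i ≠ a → 0 ≤ σ i) :
    (∀ i, i < n → σ i = σ' i) ∨ (σ a < 0 ∧ σ' a = -σ a) := by
  have hmem : a ∈ Finset.range n := Finset.mem_range.2 ha
  by_cases hsa : σ' a = σ a
  · left
    have hz : ∑ i ∈ (Finset.range n).erase a, (|σ' i| - σ' i) = 0 := by
      have e1 : ∀ i ∈ (Finset.range n).erase a, |σ' i| - σ' i = σ i - σ' i := by
        intro i hi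
        rw [Finset.mem_erase, Finset.mem_range] at hi
        rw [h2 i hi.2, abs_of_nonneg (h i hi.2 hi.1)]
      rw [Finset.sum_congr rfl e1, Finset.sum_sub_distrib]
      have e2 := Finset.add_sum_erase (Finset.range n) σ hmem
      have e3 := Finset.add_sum_erase (Finset.range n) σ' hmem
      linarith
    have hall := (Finset.sum_eq_zero_iff_of_nonneg fun i _ => sub_nonneg.2 (le_abs_self (σ' i))).1 hz
    intro i hi
    by_cases hia : i = a
    · rw [hia, hsa]
    · have := hall i (Finset.mem_erase.2 ⟨hia, Finset.mem_range.2 hi⟩)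
      rw [h2 i hi, abs_of_nonneg (h i hi hia)] at this
      linarith
  · right
    have hn : σ' a = -σ a := by
      rcases abs_eq_abs.1 (h2 a ha) with h' | h'
      · exact absurd h' hsa
      · exact h'
    refine ⟨?_, hn⟩
    by_contra hc
    rw [not_lt] at hc
    have hz : ∑ i ∈ Finset.range n, (|σ' i| - σ' i) = 0 := by
      have e1 : ∀ i ∈ Finset.range n, |σ' i| - σ' i = σ i - σ' i := by
        intro i hi
        rw [Finset.mem_range] at hi
        by_cases hia : i = a
        · rw [h2 i hi, hia, abs_of_nonneg hc]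
        · rw [h2 i hi, abs_of_nonneg (h i hi hia)]
      rw [Finset.sum_congr rfl e1, Finset.sum_sub_distrib, s, s', sub_self]
    have hall := (Finset.sum_eq_zero_iff_of_nonneg fun i _ => sub_nonneg.2 (le_abs_self (σ' i))).1 hz
    have h3 := hall a hmem
    rw [h2 a ha, abs_of_nonneg hc] at h3
    exact hsa (by linarith)

end Pool.Agent.H57.FC
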