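import Mathlib

set_option autoImplicit false

/-!
Definitions for closed fixed-angle chains.  A placement of a closed chain with `n` links is a map
`x : Fin n → EuclideanSpace ℝ (Fin 3)`; link `i` joins `x i` and `x (finRotate n i)`, and `finRotate n i` is `i + 1` mod `n`.
-/

namespace Pool.Agent.H57.FC

open Real

/-- the chain does not meet itself: the vertices are distinct, consecutive edges only meet in their common vertex,
other pairs of edges are disjoint -/
def Simple {n : ℕ} (x : Fin n → EuclideanSpace ℝ (Fin 3)) : Prop :=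
  Function.Injective x ∧ ∀ i j : Fin n, i ≠ j →
    (j = finRotate n i →
      segment ℝ (x i) (x (finRotate n i)) ∩ segment ℝ (x j) (x (finRotate n j)) ⊆ {x j}) ∧
    (j ≠ finRotate n i → i ≠ finRotate n j →
      Disjoint (segment ℝ (x i) (x (finRotate n i))) (segment ℝ (x j) (x (finRotate n j))))

/-- the joint angle of a closed chain at the vertex `i` -/
noncomputable def jointAngle {n : ℕ} (x : Fin n → EuclideanSpace ℝ (Fin 3)) (i : Fin n) : ℝ :=
  EuclideanGeometry.angle (x ((finRotate n).symm i)) (x i) (x (finRotate n i))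

/-- two placements have the same link lengths and the same joint angles -/
def SameChain {n : ℕ} (x y : Fin n → EuclideanSpace ℝ (Fin 3)) : Prop :=
  (∀ i, dist (x i) (x (finRotate n i)) = dist (y i) (y (finRotate n i))) ∧
    ∀ i, jointAngle x i = jointAngle y i

/-- a non-self-intersecting placement lying in a plane -/
def FlatState {n : ℕ} (x : Fin n → EuclideanSpace ℝ (Fin 3)) : Prop :=
  Simple x ∧ Module.finrank ℝ (affineSpan ℝ (Set.range x)).direction ≤ 2

/-- all joint angles are at least `π / 2` -/
def Nonacute {n : ℕ} (x : Fin n → EuclideanSpace ℝ (Fin 3)) : Prop := ∀ i, π / 2 ≤ jointAngle x i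

/-- joined by a dihedral motion: a continuous path of non-self-intersecting placements with the same link lengths
and joint angles -/
def JoinedByMotion {n : ℕ} (x y : Fin n → EuclideanSpace ℝ (Fin 3)) : Prop :=
  ∃ γ : ℝ → (Fin n → EuclideanSpace ℝ (Fin 3)), Continuous γ ∧ γ 0 = x ∧ γ 1 = y ∧
    ∀ t ∈ Set.Icc (0 : ℝ) 1, Simple (γ t) ∧ SameChain (γ t) x

/-- the turn at the vertex `i`: vector product of the incoming and the outgoing link -/
noncomputable def turnVec {n : ℕ} (x : Fin n → EuclideanSpace ℝ (Fin 3)) (i : Fin n) : Fin 3 → ℝ :=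
  crossProduct (x i - x ((finRotate n).symm i)).ofLp (x (finRotate n i) - x i).ofLp

/-- at most one reflex vertex: all vertices but at most one turn to the same side -/
def AtMostOneReflex {n : ℕ} (x : Fin n → EuclideanSpace ℝ (Fin 3)) : Prop :=
  ∃ k, ∀ i j, i ≠ k → j ≠ k → 0 ≤ turnVec x i ⬝ᵥ turnVec x j

end Pool.Agent.H57.FC
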