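import Pool.Agent.H57.FC.Rel

set_option autoImplicit false

/-! Sufficient conditions for the exchange condition. -/

namespace Pool.Agent.H57.FC

open Real

theorem PossibleReflex.pos {n : ℕ} {τ : Fin n → ℝ} (h0 : ∀ v, 0 ≤ τ v) {R : Finset (Fin n)} (h : PossibleReflex τ R) :
    ∀ v ∈ R, 0 < τ v := fun v hv => lt_of_le_of_ne (h0 v) (h.1 v hv).symm

/-- the two differences of different possible sets are nonempty -/
theorem PossibleReflex.diff {n : ℕ} {τ : Fin n → ℝ} (h0 : ∀ v, 0 ≤ τ v) {R R' : Finset (Fin n)} (h : PossibleReflex τ R)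
    (h' : PossibleReflex τ R') (hne : R ≠ R') : (R \ R').Nonempty ∧ ∑ v ∈ R \ R', τ v = ∑ v ∈ R' \ R, τ v := by
  have e1 := Finset.sum_inter_add_sum_sdiff R R' τ
  have e2 := Finset.sum_inter_add_sum_sdiff R' R τ
  rw [Finset.inter_comm] at e2
  have e3 : ∑ v ∈ R \ R', τ v = ∑ v ∈ R' \ R, τ v := by
    have := h.2
    have := h'.2
    linarith
  refine ⟨?_, e3⟩
  by_contra hc
  rw [Finset.not_nonempty_iff_eq_empty] at hc
  rw [hc, Finset.sum_empty] at e3
  have e4 : R' \ R = ∅ := by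
    by_contra h5
    obtain ⟨v, hv⟩ := Finset.nonempty_iff_ne_empty.2 h5
    have h6 := Finset.sum_pos (s := R' \ R) (f := τ)
      (fun i hi => h'.pos h0 i (Finset.mem_sdiff.1 hi).1) ⟨v, hv⟩
    linarith
  exact hne (Finset.Subset.antisymm (Finset.sdiff_eq_empty_iff_subset.1 hc) (Finset.sdiff_eq_empty_iff_subset.1 e4))

/-- the turns outside of two possible sets -/
theorem PossibleReflex.out {n : ℕ} {τ : Fin n → ℝ} {R R' : Finset (Fin n)} (h : PossibleReflex τ R)
    (h' : PossibleReflex τ R') : ∑ v ∈ (R ∪ R')ᶜ, τ v = 2 * π + ∑ v ∈ R ∩ R', τ v := by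
  have e1 := Finset.sum_union_inter (s₁ := R) (s₂ := R') (f := τ)
  have e2 := Finset.sum_add_sum_compl (R ∪ R') τ
  have := h.2
  have := h'.2
  linarith

theorem small_union {n : ℕ} {τ : Fin n → ℝ} (h0 : ∀ v, 0 ≤ τ v) {R R' : Finset (Fin n)} (h : PossibleReflex τ R)
    (h' : PossibleReflex τ R') (hne : R ≠ R') (hc : (R ∪ R').card ≤ 3) :
    ((R \ R').card = 1 ∧ (R' \ R).card = 1) ∨ R.card = 1 ∨ R'.card = 1 := by
  have c1 := Finset.card_pos.2 (h.diff h0 h' hne).1
  have c2 := Finset.card_pos.2 (h'.diff h0 h hne.symm).1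
  have c3 := Finset.card_sdiff_add_card_inter R R'
  have c4 := Finset.card_sdiff_add_card_inter R' R
  have c5 := Finset.card_union_add_card_inter R R'
  rw [Finset.inter_comm R' R] at c4
  omega

theorem exchange_of {n : ℕ} {τ : Fin n → ℝ} (h0 : ∀ v, 0 ≤ τ v) (h1 : ∀ v, τ v ≤ π / 2)
    (h : n ≤ 7 ∨ (∀ D : Finset (Fin n), D.card + 4 = n → ∑ v ∈ D, τ v < 2 * π) ∨
      (∀ A B : Finset (Fin n), Disjoint A B → A.Nonempty → B.Nonempty → (∀ v ∈ A ∪ B, τ v ≠ 0) →
        ∑ v ∈ A, τ v = ∑ v ∈ B, τ v → A.card = 1 ∧ B.card = 1) ∨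
      (n = 8 ∧ ∀ A B : Finset (Fin n), Disjoint A B → A.card = 2 → B.card = 2 → (∀ v ∈ A ∪ B, τ v ≠ 0) →
        (∀ v, v ∉ A ∪ B → τ v = π / 2) → ∑ v ∈ A, τ v ≠ ∑ v ∈ B, τ v)) : ExchangeCondition τ := by
  have hπ := Real.pi_pos
  intro R R' p p' hne
  have pd := p.diff h0 p' hne
  have pd' := p'.diff h0 p hne.symm
  have po := p.out p'
  have hi0 : 0 ≤ ∑ v ∈ R ∩ R', τ v := Finset.sum_nonneg fun v _ => h0 v
  have cc := Finset.card_add_card_compl (R ∪ R')
  rw [Fintype.card_fin] at cc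
  -- at least four vertices outside
  have h4 : 4 ≤ (R ∪ R')ᶜ.card := by
    have e1 : ∑ v ∈ (R ∪ R')ᶜ, τ v ≤ (R ∪ R')ᶜ.card • (π / 2) := Finset.sum_le_card_nsmul _ _ _ fun v _ => h1 v
    rw [nsmul_eq_mul] at e1
    by_contra hc
    have e2 : ((R ∪ R')ᶜ.card : ℝ) ≤ 3 := by exact_mod_cast (by omega : (R ∪ R')ᶜ.card ≤ 3)
    nlinarith
  have hsm : (R ∪ R').card ≤ 3 → ((R \ R').card = 1 ∧ (R' \ R).card = 1) ∨ R.card = 1 ∨ R'.card = 1 :=
    small_union h0 p p' hne
  rcases h with h | h | h | ⟨hn, h⟩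
  · exact hsm (by omega)
  · apply hsm
    by_contra hc
    have e1 : (R ∪ R')ᶜ.card ≤ n - 4 := by omega
    obtain ⟨D, hD1, hD2⟩ := Finset.exists_superset_card_eq e1 (by rw [Fintype.card_fin]; omega)
    have e2 := h D (by omega)
    have e3 : ∑ v ∈ (R ∪ R')ᶜ, τ v ≤ ∑ v ∈ D, τ v :=
      Finset.sum_le_sum_of_subset_of_nonneg hD1 fun v _ _ => h0 v
    linarith
  · left
    refine h (R \ R') (R' \ R) disjoint_sdiff_sdiff pd.1 pd'.1 ?_ pd.2
    intro v hv
    rw [Finset.mem_union, Finset.mem_sdiff, Finset.mem_sdiff] at hv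
    rcases hv with hv | hv
    · exact p.1 v hv.1
    · exact p'.1 v hv.1
  · by_cases h5 : (R ∪ R').card ≤ 3
    · exact hsm h5
    · have e1 : (R ∪ R')ᶜ.card = 4 := by omega
      have e2 : (R ∪ R').card = 4 := by omega
      -- the sum outside is at most 2 π
      have e3 : ∑ v ∈ (R ∪ R')ᶜ, τ v ≤ (R ∪ R')ᶜ.card • (π / 2) := Finset.sum_le_card_nsmul _ _ _ fun v _ => h1 v
      rw [nsmul_eq_mul, e1] at e3
      push_cast at e3
      have e4 : ∑ v ∈ R ∩ R', τ v = 0 := by linarith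
      have e5 : R ∩ R' = ∅ := by
        by_contra h6
        obtain ⟨v, hv⟩ := Finset.nonempty_iff_ne_empty.2 h6
        have := Finset.sum_pos (s := R ∩ R') (f := τ)
          (fun i hi => p.pos h0 i (Finset.mem_inter.1 hi).1) ⟨v, hv⟩
        linarith
      have e6 : ∀ v ∈ (R ∪ R')ᶜ, τ v = π / 2 := by
        have e7 : ∑ v ∈ (R ∪ R')ᶜ, (π / 2 - τ v) = 0 := by
          rw [Finset.sum_sub_distrib, Finset.sum_const, e1, nsmul_eq_mul]
          push_cast
          linarith
        intro v hv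
        have := (Finset.sum_eq_zero_iff_of_nonneg fun i _ => sub_nonneg.2 (h1 i)).1 e7 v hv
        linarith
      have c3 := Finset.card_sdiff_add_card_inter R R'
      have c4 := Finset.card_sdiff_add_card_inter R' R
      have c5 := Finset.card_union_add_card_inter R R'
      rw [Finset.inter_comm R' R] at c4
      rw [e5, Finset.card_empty] at c3 c4 c5
      have c1 := Finset.card_pos.2 pd.1
      have c2 := Finset.card_pos.2 pd'.1
      by_cases c6 : R.card = 2
      · exfalso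
        have hdis : Disjoint R R' := Finset.disjoint_iff_inter_eq_empty.2 e5
        refine h R R' hdis c6 (by omega) ?_ ?_ ?_
        · intro v hv
          rcases Finset.mem_union.1 hv with hv | hv
          · exact p.1 v hv
          · exact p'.1 v hv
        · intro v hv
          exact e6 v (Finset.mem_compl.2 hv)
        · have := p.2
          have := p'.2
          linarith
      · omega

end Pool.Agent.H57.FC
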