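import Pool.Agent.H57.FC.Pln
import Pool.Agent.H57.FC.Defs

set_option autoImplicit false

namespace Pool.Agent.H57.FC

open Real

section

variable {n : ℕ} (hn : 0 < n)

/-- the periodic sequence of a closed chain -/
def ex {V : Type*} (p : Fin n → V) (i : ℕ) : V := p ⟨i % n, Nat.mod_lt _ hn⟩

theorem rotate_mk (i : ℕ) :
    finRotate n ⟨i % n, Nat.mod_lt _ hn⟩ = ⟨(i + 1) % n, Nat.mod_lt _ hn⟩ := by
  obtain ⟨m, rfl⟩ : ∃ m, n = m + 1 := ⟨n - 1, by omega⟩
  rw [finRotate_apply]
  apply Fin.ext
  rw [Fin.val_add]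
  simp [Nat.add_mod]

theorem rotate_symm_mk (i : ℕ) :
    (finRotate n).symm ⟨(i + 1) % n, Nat.mod_lt _ hn⟩ = ⟨i % n, Nat.mod_lt _ hn⟩ := by
  rw [Equiv.symm_apply_eq, rotate_mk hn i]

theorem ex_per {V : Type*} (p : Fin n → V) (i : ℕ) : ex hn p (i + n) = ex hn p i := by
  unfold ex; congr 2; simp

theorem ex_val {V : Type*} (p : Fin n → V) (i : Fin n) : ex hn p i.val = p i := by
  unfold ex; congr 1; exact Fin.ext (Nat.mod_eq_of_lt i.isLt)

theorem fin_eq (i : Fin n) : i = ⟨i.val % n, Nat.mod_lt _ hn⟩ := Fin.ext (Nat.mod_eq_of_lt i.isLt).symm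

/-- predecessor index -/
theorem fin_eq' (i : Fin n) : i = ⟨(i.val + n - 1 + 1) % n, Nat.mod_lt _ hn⟩ := by
  apply Fin.ext
  have : i.val + n - 1 + 1 = i.val + n := by omega
  simp only [this]
  rw [Nat.add_mod_right, Nat.mod_eq_of_lt i.isLt]

theorem jointAngle_ex (p : Fin n → EuclideanSpace ℝ (Fin 3)) (i : ℕ) :
    jointAngle p ⟨(i + 1) % n, Nat.mod_lt _ hn⟩ =
      EuclideanGeometry.angle (ex hn p i) (ex hn p (i + 1)) (ex hn p (i + 2)) := by
  unfold jointAngle
  rw [rotate_symm_mk hn, rotate_mk hn]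
  rfl

theorem mod_lt_cases {i j : ℕ} (h1 : i < j) (h2 : j < i + n) : i % n ≠ j % n := by
  intro h
  have h3 : (j - i) % n = 0 := by
    have := (Nat.modEq_iff_dvd' h1.le).1 h
    exact Nat.eq_zero_of_dvd_of_lt (by
      rcases this with ⟨c, hc⟩
      exact ⟨0, by rw [hc]; simp⟩) (Nat.mod_lt _ (by omega))
  have h4 : n ∣ j - i := Nat.dvd_of_mod_eq_zero h3
  have := Nat.le_of_dvd (by omega) h4
  omega

theorem adm_ex {p : Fin n → EuclideanSpace ℝ (Fin 3)} (h3 : 3 ≤ n) (hp : Simple p) (ha : Nonacute p) :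
    Adm n (ex hn p) where
  per := ex_per hn p
  simp := by
    intro i j hij hji
    have h := hp.2 ⟨i % n, Nat.mod_lt _ hn⟩ ⟨j % n, Nat.mod_lt _ hn⟩
      (fun h => mod_lt_cases (by omega : i < j) (by omega) (congrArg Fin.val h))
    have h' := h.2 (by
      rw [rotate_mk hn]
      exact fun h => mod_lt_cases hij (by omega) (congrArg Fin.val h).symm) (by
      rw [rotate_mk hn]
      intro h
      have h' : i % n = (j + 1) % n := congrArg Fin.val h
      exact mod_lt_cases (by omega : i < j + 1) hji h')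
    rw [rotate_mk hn, rotate_mk hn] at h'
    exact h'
  ne := by
    intro i h
    have := hp.1 h
    exact mod_lt_cases (by omega : i < i + 1) (by omega) (congrArg Fin.val this).symm
  obt := by
    intro i
    have h := ha ⟨(i + 1) % n, Nat.mod_lt _ hn⟩
    rw [jointAngle_ex hn] at h
    set a := ex hn p i
    set b := ex hn p (i + 1)
    set c := ex hn p (i + 2)
    have h1 : cos (EuclideanGeometry.angle a b c) ≤ 0 := by
      apply Real.cos_nonpos_of_pi_div_two_le_of_le h
      have := EuclideanGeometry.angle_le_pi a b c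
      linarith [Real.pi_pos]
    have h2 := InnerProductGeometry.cos_angle_mul_norm_mul_norm (a - b) (c - b)
    have h3 : inner ℝ (a - b) (c - b) ≤ 0 := by
      rw [← h2]
      exact mul_nonpos_of_nonpos_of_nonneg h1 (by positivity)
    have h4 : b - a = -(a - b) := by abel
    rw [h4, inner_neg_left]
    linarith

theorem eqv_ex {p q : Fin n → EuclideanSpace ℝ (Fin 3)} (h : SameChain p q) : Eqv (ex hn p) (ex hn q) := by
  have h1 : ∀ i, dist (ex hn p i) (ex hn p (i + 1)) = dist (ex hn q i) (ex hn q (i + 1)) := by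
    intro i
    have := h.1 ⟨i % n, Nat.mod_lt _ hn⟩
    rw [rotate_mk hn] at this
    exact this
  intro i
  refine ⟨h1 i, ?_⟩
  have h2 := h.2 ⟨(i + 1) % n, Nat.mod_lt _ hn⟩
  rw [jointAngle_ex hn, jointAngle_ex hn] at h2
  have h3 := h1 i
  have h4 := h1 (i + 1)
  have key : ∀ a b c : E3, dist a c ^ 2 = dist a b ^ 2 + dist b c ^ 2 -
      2 * (cos (EuclideanGeometry.angle a b c) * (dist a b * dist b c)) := by
    intro a b c
    have h2 := InnerProductGeometry.cos_angle_mul_norm_mul_norm (a - b) (c - b)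
    have h5 : EuclideanGeometry.angle a b c = InnerProductGeometry.angle (a - b) (c - b) := rfl
    rw [h5, dist_comm b c]
    simp only [dist_eq_norm]
    rw [h2, ← real_inner_self_eq_norm_sq, ← real_inner_self_eq_norm_sq, ← real_inner_self_eq_norm_sq]
    simp only [inner_sub_left, inner_sub_right]
    rw [real_inner_comm a c, real_inner_comm a b, real_inner_comm b c]
    ring
  have h5 := key (ex hn p i) (ex hn p (i + 1)) (ex hn p (i + 2))
  have h6 := key (ex hn q i) (ex hn q (i + 1)) (ex hn q (i + 2))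
  have h4' : dist (ex hn p (i + 1)) (ex hn p (i + 2)) = dist (ex hn q (i + 1)) (ex hn q (i + 2)) := h4
  rw [h2, h3, h4', ← h6] at h5
  exact (pow_left_inj₀ dist_nonneg dist_nonneg (by norm_num)).1 h5

theorem flat_ex {p : Fin n → EuclideanSpace ℝ (Fin 3)}
    (h : Module.finrank ℝ (affineSpan ℝ (Set.range p)).direction ≤ 2) :
    ∃ ν : E3, ν ≠ 0 ∧ ∀ i, inner ℝ ν (ex hn p i - ex hn p 0) = 0 := by
  set D := (affineSpan ℝ (Set.range p)).direction
  have h1 := D.finrank_add_finrank_orthogonal
  rw [finrank_euclideanSpace_fin] at h1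
  have h2 : Dᗮ ≠ ⊥ := by
    intro hb
    rw [hb, finrank_bot] at h1
    omega
  obtain ⟨ν, hν, hν0⟩ := Submodule.exists_mem_ne_zero_of_ne_bot h2
  refine ⟨ν, hν0, fun i => ?_⟩
  rw [Submodule.mem_orthogonal'] at hν
  apply hν
  have m : ∀ k, ex hn p k ∈ affineSpan ℝ (Set.range p) := fun k =>
    subset_affineSpan ℝ _ (Set.mem_range_self _)
  exact AffineSubspace.vsub_mem_direction (m i) (m 0)

theorem crs_ex (p : Fin n → EuclideanSpace ℝ (Fin 3)) (i j : ℕ) :
    crs (ex hn p) i j = turnVec p ⟨(i + 1) % n, Nat.mod_lt _ hn⟩ ⬝ᵥ turnVec p ⟨(j + 1) % n, Nat.mod_lt _ hn⟩ := by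
  unfold crs turnVec
  rw [rotate_symm_mk hn, rotate_symm_mk hn, rotate_mk hn, rotate_mk hn, cross_dot_cross]
  have key : ∀ a b : E3, inner ℝ a b = a.ofLp ⬝ᵥ b.ofLp := by
    intro a b
    rw [EuclideanSpace.inner_eq_star_dotProduct, star_trivial, dotProduct_comm]
  simp only [key]
  rfl

theorem adj_inter {a b c : E3} (h : 0 ≤ inner ℝ (b - a) (c - b)) : segment ℝ a b ∩ segment ℝ b c ⊆ {b} := by
  rintro y ⟨h1, h2⟩
  rw [segment_eq_image'] at h1 h2
  obtain ⟨s, ⟨hs0, hs1⟩, hs⟩ := h1
  obtain ⟨t, ⟨ht0, ht1⟩, ht⟩ := h2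
  simp only at hs ht
  have e1 : b - y = (1 - s) • (b - a) := by rw [← hs]; module
  have e2 : y - b = t • (c - b) := by rw [← ht]; module
  have e3 : inner ℝ (y - b) (y - b) = -((1 - s) * (t * inner ℝ (b - a) (c - b))) := by
    have : y - b = -(b - y) := by abel
    conv_lhs => rw [this]
    rw [inner_neg_neg]
    have e4 : inner ℝ (b - y) (b - y) = -inner ℝ (b - y) (y - b) := by
      rw [← inner_neg_right, neg_sub]
    rw [e4, e2, e1, inner_smul_left, inner_smul_right]
    simp
  have e5 : 0 ≤ (1 - s) * (t * inner ℝ (b - a) (c - b)) :=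
    mul_nonneg (by linarith) (mul_nonneg ht0 h)
  have e6 : inner ℝ (y - b) (y - b) ≤ 0 := by linarith
  rw [real_inner_self_nonpos, sub_eq_zero] at e6
  exact e6

theorem simple_of_adm {f : Fin n → EuclideanSpace ℝ (Fin 3)} (h : Adm n (ex hn f)) : Simple f := by
  constructor
  · intro i j hij
    by_contra hne
    rw [← ex_val hn f i, ← ex_val hn f j] at hij
    rcases lt_or_gt_of_ne (fun h => hne (Fin.ext h) : i.val ≠ j.val) with h' | h'
    · exact h.inj h' (by omega) hij
    · exact h.inj h' (by omega) hij.symm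
  · have main : ∀ i j : Fin n, i.val < j.val → j ≠ finRotate n i → i ≠ finRotate n j →
        Disjoint (segment ℝ (f i) (f (finRotate n i))) (segment ℝ (f j) (f (finRotate n j))) := by
      intro i j hij h1 h2
      have e := h.simp i.val j.val ?_ ?_
      · have e1 : f i = ex hn f i.val := (ex_val hn f i).symm
        have e2 : f j = ex hn f j.val := (ex_val hn f j).symm
        have e3 : f (finRotate n i) = ex hn f (i.val + 1) := by
          conv_lhs => rw [fin_eq hn i, rotate_mk hn]
          rfl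
        have e4 : f (finRotate n j) = ex hn f (j.val + 1) := by
          conv_lhs => rw [fin_eq hn j, rotate_mk hn]
          rfl
        rw [e1, e2, e3, e4]
        exact e
      · by_contra hc
        have hc' : j.val = i.val + 1 := by omega
        apply h1
        conv_rhs => rw [fin_eq hn i, rotate_mk hn]
        apply Fin.ext
        simp only
        rw [Nat.mod_eq_of_lt (by omega), hc']
      · by_contra hc
        have hc' : j.val + 1 = n ∧ i.val = 0 := by omega
        apply h2
        conv_rhs => rw [fin_eq hn j, rotate_mk hn]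
        apply Fin.ext
        simp only
        rw [hc'.1, hc'.2, Nat.mod_self]
    intro i j hij
    constructor
    · intro hj
      subst hj
      have e1 : f i = ex hn f i.val := (ex_val hn f i).symm
      have e3 : f (finRotate n i) = ex hn f (i.val + 1) := by
        conv_lhs => rw [fin_eq hn i, rotate_mk hn]
        rfl
      have e4 : f (finRotate n (finRotate n i)) = ex hn f (i.val + 2) := by
        conv_lhs => rw [fin_eq hn i, rotate_mk hn, rotate_mk hn]
        rfl
      rw [e1, e3, e4]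
      exact adj_inter (h.obt i.val)
    · intro h1 h2
      rcases lt_or_gt_of_ne (fun h => hij (Fin.ext h) : i.val ≠ j.val) with h' | h'
      · exact main i j h' h1 h2
      · exact (main j i h' h2 h1).symm

theorem angle_of_dist {a b c a' b' c' : E3} (h1 : dist a b = dist a' b') (h2 : dist b c = dist b' c')
    (h3 : dist a c = dist a' c') : EuclideanGeometry.angle a b c = EuclideanGeometry.angle a' b' c' := by
  have key : ∀ a b c : E3, 2 * inner ℝ (a - b) (c - b) = dist a b ^ 2 + dist b c ^ 2 - dist a c ^ 2 := by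
    intro a b c
    rw [dist_comm b c]
    simp only [dist_eq_norm]
    rw [← real_inner_self_eq_norm_sq, ← real_inner_self_eq_norm_sq, ← real_inner_self_eq_norm_sq]
    simp only [inner_sub_left, inner_sub_right]
    rw [real_inner_comm a c, real_inner_comm a b, real_inner_comm b c]
    ring
  have e1 := key a b c
  have e2 := key a' b' c'
  rw [h1, h2, h3, ← e2] at e1
  have e3 : inner ℝ (a - b) (c - b) = inner ℝ (a' - b') (c' - b') := by linarith
  have d1 : ‖a - b‖ = ‖a' - b'‖ := by rw [← dist_eq_norm, h1, dist_eq_norm]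
  have d2 : ‖c - b‖ = ‖c' - b'‖ := by
    rw [← dist_eq_norm, dist_comm, h2, dist_comm, dist_eq_norm]
  have u1 : EuclideanGeometry.angle a b c = InnerProductGeometry.angle (a - b) (c - b) := rfl
  have u2 : EuclideanGeometry.angle a' b' c' = InnerProductGeometry.angle (a' - b') (c' - b') := rfl
  rw [u1, u2]
  unfold InnerProductGeometry.angle
  rw [e3, d1, d2]

theorem same_of_eqv {f g : Fin n → EuclideanSpace ℝ (Fin 3)} (h : Eqv (ex hn f) (ex hn g)) :
    SameChain f g := by
  constructor
  · intro i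
    have e := (h i.val).1
    have e1 : ∀ f : Fin n → EuclideanSpace ℝ (Fin 3), f (finRotate n i) = ex hn f (i.val + 1) := by
      intro f
      conv_lhs => rw [fin_eq hn i, rotate_mk hn]
      rfl
    rw [e1 f, e1 g, ← ex_val hn f i, ← ex_val hn g i]
    exact e
  · intro i
    rw [fin_eq' hn i, jointAngle_ex hn, jointAngle_ex hn]
    set k := i.val + n - 1
    exact angle_of_dist (h k).1 (h (k + 1)).1 (h k).2

theorem joined_of_conn {p q : Fin n → EuclideanSpace ℝ (Fin 3)}
    (h : Conn n (ex hn p) (ex hn q)) : JoinedByMotion p q := by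
  obtain ⟨γ, hc, h0, h1, hγ⟩ := h
  refine ⟨fun t i => γ t i.val, continuous_pi fun i => hc _, ?_, ?_, ?_⟩
  · funext i; simp only [h0, ex_val]
  · funext i; simp only [h1, ex_val]
  · rintro t ⟨ht, ht1⟩
    obtain ⟨ha, he⟩ := hγ t ht ht1
    have hv : ex hn (fun i : Fin n => γ t i.val) = γ t := by
      funext k
      unfold ex
      simp only
      conv_rhs => rw [← Nat.mod_add_div k n, mul_comm, per_mul ha.per]
    exact ⟨simple_of_adm hn (by rw [hv]; exact ha), same_of_eqv hn (by rw [hv]; exact he)⟩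

end

theorem SameChain.symm {n : ℕ} {x y : Fin n → EuclideanSpace ℝ (Fin 3)} (h : SameChain x y) : SameChain y x :=
  ⟨fun i => (h.1 i).symm, fun i => (h.2 i).symm⟩

theorem SameChain.trans {n : ℕ} {x y z : Fin n → EuclideanSpace ℝ (Fin 3)} (h : SameChain x y)
    (h' : SameChain y z) : SameChain x z :=
  ⟨fun i => (h.1 i).trans (h'.1 i), fun i => (h.2 i).trans (h'.2 i)⟩

theorem few_links {n : ℕ} (h3 : 3 ≤ n) (h7 : n ≤ 7) {p q : Fin n → EuclideanSpace ℝ (Fin 3)}
    (hp : FlatState p) (hq : FlatState q) (h : SameChain q p) (ha : Nonacute p) : JoinedByMotion p q := by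
  have hn : 0 < n := by omega
  have ha' : Nonacute q := fun i => by rw [h.2 i]; exact ha i
  exact joined_of_conn hn (main_nat h3 (adm_ex hn h3 hp.1 ha) (adm_ex hn h3 hq.1 ha')
    (eqv_ex hn h.symm) (flat_ex hn hp.2) (flat_ex hn hq.2) (Or.inl h7))

theorem one_reflex {n : ℕ} (h3 : 3 ≤ n) {o p q : Fin n → EuclideanSpace ℝ (Fin 3)}
    (ho : FlatState o) (hp : FlatState p) (hq : FlatState q) (h1 : SameChain p o) (h2 : SameChain q o)
    (ha : Nonacute o) (hr : AtMostOneReflex o) : JoinedByMotion p q := by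
  have hn : 0 < n := by omega
  have ha1 : Nonacute p := fun i => by rw [h1.2 i]; exact ha i
  have ha2 : Nonacute q := fun i => by rw [h2.2 i]; exact ha i
  have hk : ∃ k, k < n ∧ ∀ i j, i < n → j < n → i ≠ k → j ≠ k → 0 ≤ crs (ex hn o) i j := by
    obtain ⟨k, hk⟩ := hr
    refine ⟨(k.val + n - 1) % n, Nat.mod_lt _ hn, ?_⟩
    have hne : ∀ i, i < n → i ≠ (k.val + n - 1) % n → (⟨(i + 1) % n, Nat.mod_lt _ hn⟩ : Fin n) ≠ k := by
      intro i hi hik hc
      apply hik
      have hc' : (i + 1) % n = k.val := congrArg Fin.val hc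
      by_cases hi' : i + 1 < n
      · rw [Nat.mod_eq_of_lt hi'] at hc'
        have : k.val + n - 1 = i + n := by omega
        rw [this, Nat.add_mod_right, Nat.mod_eq_of_lt hi]
      · have : i + 1 = n := by omega
        rw [this, Nat.mod_self] at hc'
        have : k.val + n - 1 = i := by omega
        rw [this, Nat.mod_eq_of_lt hi]
    intro i j hi hj hik hjk
    rw [crs_ex]
    exact hk _ _ (hne i hi hik) (hne j hj hjk)
  have c1 := main_nat h3 (adm_ex hn h3 ho.1 ha) (adm_ex hn h3 hp.1 ha1)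
    (eqv_ex hn h1.symm) (flat_ex hn ho.2) (flat_ex hn hp.2) (Or.inr hk)
  have c2 := main_nat h3 (adm_ex hn h3 ho.1 ha) (adm_ex hn h3 hq.1 ha2)
    (eqv_ex hn h2.symm) (flat_ex hn ho.2) (flat_ex hn hq.2) (Or.inr hk)
  exact joined_of_conn hn (c1.symm.trans c2)

end Pool.Agent.H57.FC
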