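import Pool.Agent.H57.FC.Rig

set_option autoImplicit false

/-! ROW FLT (about 130 lines). A flat chain can be moved rigidly into the plane `J ℂ`.

PROOF. Let `k = !₂[0, 0, 1]`.  Replacing `ν` by `-ν` and scaling, `‖ν‖ = 1` and `inner ν k ≤ 0`.  For `u ≠ 0` let
`s u v = v - (2 * inner u v / inner u u) • u` (reflection, a linear isometry: `reflection (ℝ ∙ u)ᗮ`, or by hand).
Put `w = k - ν`, `inner w k = 1 - inner ν k ≥ 1 > 0`; `s w` maps `ν` to `k`.  For `t ∈ [0,1]` put `u t = (1 - t) k + t w`,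
`inner (u t) k > 0`, so `u t ≠ 0`; for arbitrary real `t` use `t' = max 0 (min 1 t)`.  `L t = s k ∘ s (u t)` is a continuous
family of linear isometries, `L 0 = s k ∘ s k = id`, `L 1 ν = s k k = -k`.  So `inner k (L 1 (x i - x 0)) = - inner (L 1 ν) (L 1 (x i - x 0)) = 0`,
i.e. third coordinate 0.  Translation part: `c t = - t • L 1 (x 0)`.  By `conn_of_isom`, `Conn n x (i ↦ L 1 (x i) - L 1 (x 0))`, and
this is `J (z i)` with `z i = ⟨first coordinate, second coordinate⟩`.  `Adm n z` by `Adm.of_map` (with `exists_Jl`), distances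
preserved. -/

namespace Pool.Agent.H57.FC

open Submodule

/-- reflection in the plane orthogonal to `u` -/
private noncomputable def fltS (u : E3) : E3 →ₗᵢ[ℝ] E3 :=
  (Submodule.reflection (ℝ ∙ u)ᗮ).toLinearIsometry

private theorem fltS_apply (u v : E3) : fltS u v = v - (2 * inner ℝ u v / ‖u‖ ^ 2) • u := by
  have h1 : fltS u v = Submodule.reflection (ℝ ∙ u)ᗮ v := rfl
  rw [h1, Submodule.reflection_orthogonal_apply, Submodule.reflection_apply,
    Submodule.starProjection_singleton]
  simp only [RCLike.ofReal_real_eq_id, id_eq, two_smul]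
  rw [neg_sub, ← add_smul]
  congr 2
  ring

private theorem fltS_fltS (u v : E3) : fltS u (fltS u v) = v :=
  Submodule.reflection_reflection (ℝ ∙ u)ᗮ v

private noncomputable def fltK : E3 := !₂[0, 0, 1]

private theorem fltK_norm : ‖fltK‖ = 1 := by
  rw [EuclideanSpace.norm_eq]
  simp [fltK, Fin.sum_univ_three]

private theorem fltK_inner (v : E3) : inner ℝ fltK v = v 2 := by
  simp [fltK, PiLp.inner_apply, Fin.sum_univ_three]

theorem flatten {n : ℕ} {x : ℕ → E3} (hx : Adm n x) (ν : E3) (hν : ν ≠ 0)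
    (hp : ∀ i, inner ℝ ν (x i - x 0) = 0) :
    ∃ z : ℕ → ℂ, Adm n z ∧ Conn n x (fun i => J (z i)) ∧ ∀ i j, dist (z i) (z j) = dist (x i) (x j) := by
  -- normalisation of the normal vector
  obtain ⟨μ, hμ1, hμk, hμp⟩ : ∃ μ : E3, ‖μ‖ = 1 ∧ inner ℝ μ fltK ≤ 0 ∧
      ∀ i, inner ℝ μ (x i - x 0) = 0 := by
    have hn : ‖ν‖ ≠ 0 := norm_ne_zero_iff.2 hν
    have h1 : ‖(‖ν‖⁻¹ • ν)‖ = 1 := by
      rw [norm_smul, norm_inv, norm_norm, inv_mul_cancel₀ hn]
    rcases le_total (inner ℝ (‖ν‖⁻¹ • ν) fltK) 0 with h | h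
    · refine ⟨‖ν‖⁻¹ • ν, h1, h, fun i => ?_⟩
      rw [real_inner_smul_left, hp, mul_zero]
    · refine ⟨-(‖ν‖⁻¹ • ν), by rw [norm_neg, h1], ?_, fun i => ?_⟩
      · rw [inner_neg_left]
        linarith
      · rw [inner_neg_left, real_inner_smul_left, hp, mul_zero, neg_zero]
  set w : E3 := fltK - μ with hw
  set u : ℝ → E3 := fun t => (1 - max 0 (min 1 t)) • fltK + (max 0 (min 1 t)) • w with hu
  have hkk : inner ℝ fltK fltK = (1 : ℝ) := by
    rw [real_inner_self_eq_norm_sq, fltK_norm]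
    norm_num
  have hune : ∀ t, u t ≠ 0 := by
    intro t h0
    have h1 : inner ℝ (u t) fltK = 1 - max 0 (min 1 t) * inner ℝ μ fltK := by
      simp only [hu, hw]
      rw [inner_add_left, real_inner_smul_left, real_inner_smul_left, inner_sub_left, hkk]
      ring
    rw [h0, inner_zero_left] at h1
    have h2 : max 0 (min 1 t) * inner ℝ μ fltK ≤ 0 :=
      mul_nonpos_of_nonneg_of_nonpos (le_max_left _ _) hμk
    linarith
  have huc : Continuous u := by
    simp only [hu]
    fun_prop
  set L : ℝ → E3 →ₗᵢ[ℝ] E3 := fun t => (fltS fltK).comp (fltS (u t)) with hL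
  have hLv : ∀ t v, L t v = fltS fltK (fltS (u t) v) := fun t v => rfl
  clear_value L
  have hLc : ∀ v, Continuous fun t => L t v := by
    intro v
    have h1 : (fun t => L t v) = fun t => fltS fltK (v - (2 * inner ℝ (u t) v / ‖u t‖ ^ 2) • u t) := by
      funext t
      rw [hLv, fltS_apply (u t)]
    rw [h1]
    refine (fltS fltK).continuous.comp ?_
    have h2 : Continuous fun t => (2 * inner ℝ (u t) v / ‖u t‖ ^ 2 : ℝ) := by
      refine Continuous.div ?_ (huc.norm.pow 2) fun t => ?_
      · exact continuous_const.mul (huc.inner continuous_const)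
      · exact pow_ne_zero 2 (norm_ne_zero_iff.2 (hune t))
    exact continuous_const.sub (h2.smul huc)
  have hL0 : ∀ v, L 0 v = v := by
    intro v
    have h1 : u 0 = fltK := by simp [hu]
    rw [hLv, h1]
    exact fltS_fltS _ _
  have hu1 : u 1 = w := by simp [hu]
  have hL1 : L 1 μ = -fltK := by
    have h1 : fltS w fltK = μ := by
      have := Submodule.reflection_sub (F := E3) (v := fltK) (w := μ) (by rw [fltK_norm, hμ1])
      exact this
    have h2 : fltS w μ = fltK := by
      rw [← h1, fltS_fltS]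
    rw [hLv, hu1, h2]
    exact Submodule.reflection_orthogonalComplement_singleton_eq_neg fltK
  -- the motion
  set c : ℝ → E3 := fun t => -(t • L 1 (x 0)) with hc
  have hcc : Continuous c := by
    simp only [hc]
    fun_prop
  have hconn := conn_of_isom hx L c hLc hcc hL0 (by simp [hc])
  have h2 : ∀ i, (L 1 (x i) + c 1) 2 = 0 := by
    intro i
    have h3 : L 1 (x i) + c 1 = L 1 (x i - x 0) := by
      simp only [hc, one_smul, map_sub]
      abel
    rw [h3, ← fltK_inner]
    have h4 : fltK = -(L 1 μ) := by rw [hL1, neg_neg]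
    rw [h4, inner_neg_left, LinearIsometry.inner_map_map, hμp, neg_zero]
  set z : ℕ → ℂ := fun i => ⟨(L 1 (x i) + c 1) 0, (L 1 (x i) + c 1) 1⟩ with hz
  have hJ : ∀ i, J (z i) = L 1 (x i) + c 1 := by
    intro i
    have h3 := h2 i
    ext j
    fin_cases j
    · simp [J, hz]
    · simp [J, hz]
    · simp only [J, hz]
      exact h3.symm
  obtain ⟨Jl, hJl⟩ := exists_Jl
  refine ⟨z, ?_, ?_, ?_⟩
  · refine Adm.of_map Jl 0 ?_
    have h3 : (fun i => Jl (z i) + 0) = fun i => L 1 (x i) + c 1 := by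
      funext i
      rw [add_zero, hJl, hJ]
    rw [h3]
    exact hx.map (L 1) (c 1)
  · have h3 : (fun i => J (z i)) = fun i => L 1 (x i) + c 1 := funext hJ
    rw [h3]
    exact hconn
  · intro i j
    rw [← Jl.dist_map, hJl, hJl, hJ, hJ, dist_add_right, (L 1).dist_map]

end Pool.Agent.H57.FC
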