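import Pool.Agent.H57.FC.Defs

set_option autoImplicit false

/-!
Linear relations between the links of a closed chain.
-/

namespace Pool.Agent.H57.FC

/-- the real linear relations between the vectors `v 0, v 1, ...` -/
def relations {n : ℕ} {V : Type*} [AddCommGroup V] [Module ℝ V] (v : Fin n → V) : Submodule ℝ (Fin n → ℝ) where
  carrier := {l | ∑ i, l i • v i = 0}
  add_mem' := by
    intro a b ha hb
    have ha' : ∑ i, a i • v i = 0 := ha
    have hb' : ∑ i, b i • v i = 0 := hb
    show ∑ i, (a i + b i) • v i = 0
    simp only [add_smul, Finset.sum_add_distrib, ha', hb', add_zero]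
  zero_mem' := by
    show ∑ i, (0 : ℝ) • v i = 0
    simp
  smul_mem' := by
    intro c a ha
    have ha' : ∑ i, a i • v i = 0 := ha
    show ∑ i, (c * a i) • v i = 0
    simp only [mul_smul, ← Finset.smul_sum, ha', smul_zero]

/-- the vectors of factors `l` for which the chain with the links `l i • (o (i + 1) - o i)` is closed -/
def closing {n : ℕ} (o : Fin n → EuclideanSpace ℝ (Fin 3)) : Submodule ℝ (Fin n → ℝ) :=
  relations fun i => o (finRotate n i) - o i

end Pool.Agent.H57.FC
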