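import Pool.Agent.H57.FC.Rel

set_option autoImplicit false

/-! Generic lengths: for fixed directions of the links (closed nonacute flat state) all closing length vectors outside finitely many
proper subspaces give a unique flat state. -/

namespace Pool.Agent.H57.FC

open Real

theorem exp_eq_of_pm {t τ : ℝ} (ht : t = τ ∨ t = -τ) (hτ : |τ| ≤ π / 2)
    (h : Complex.exp ((t : ℂ) * Complex.I) = Complex.exp ((τ : ℂ) * Complex.I)) : t = τ := by
  rcases ht with ht | ht
  · exact ht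
  · have h1 := congrArg Complex.im h
    rw [Complex.exp_ofReal_mul_I_im, Complex.exp_ofReal_mul_I_im, ht, sin_neg] at h1
    have h2 : sin τ = 0 := by linarith
    have hπ := Real.pi_pos
    rw [abs_le] at hτ
    have h3 : τ = 0 := by
      rw [Real.sin_eq_zero_iff_of_lt_of_lt (by linarith [hτ.1]) (by linarith [hτ.2])] at h2
      exact h2
    rw [ht, h3, neg_zero]

/-- the real combination of two independent complex numbers -/
theorem real_comb (ρ r : ℂ) (hr : r.im ≠ 0) : ∃ a b : ℝ, ρ = a + b * r := by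
  refine ⟨ρ.re - ρ.im / r.im * r.re, ρ.im / r.im, ?_⟩
  apply Complex.ext
  · simp
  · simp
    field_simp

theorem sign_rigid {n : ℕ} (hn : 3 ≤ n) {z : ℕ → ℂ} (hz : Adm n z) (tz : ∑ i ∈ Finset.range n, trn z i = 2 * π)
    (t : ℕ → ℝ) (ht : ∀ i, t i = trn z i ∨ t i = -trn z i)
    (h : ∀ l : ℕ → ℝ, ∑ j ∈ Finset.range n, (l j : ℂ) * (z (j + 1) - z j) = 0 →
      ∑ j ∈ Finset.range n, (l j : ℂ) * ((‖z (j + 1) - z j‖ : ℂ) *
        Complex.exp (((∑ i ∈ Finset.range j, t i : ℝ) : ℂ) * Complex.I)) = 0) :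
    (∀ j, j + 1 < n → t j = trn z j) ∨ (∀ j, j + 1 < n → t j = -trn z j) := by
  have hπ := Real.pi_pos
  -- a vertex that is not straight
  obtain ⟨j0, hj0, hne0⟩ : ∃ j0, j0 + 1 < n ∧ trn z j0 ≠ 0 := by
    by_contra hc
    obtain ⟨m, rfl⟩ : ∃ m, n = m + 1 := ⟨n - 1, by omega⟩
    rw [Finset.sum_range_succ] at tz
    have h1 : ∑ i ∈ Finset.range m, trn z i = 0 := by
      refine Finset.sum_eq_zero fun i hi => ?_
      by_contra h2
      exact hc ⟨i, by have := Finset.mem_range.1 hi; omega, h2⟩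
    have h2 := (abs_le.1 (abs_trn_le hz m)).2
    linarith
  obtain ⟨e, he⟩ : ∃ e : ℕ → ℂ, e = fun j => z (j + 1) - z j := ⟨_, rfl⟩
  obtain ⟨E, hE⟩ : ∃ E : ℕ → ℂ, E = fun j => (‖z (j + 1) - z j‖ : ℂ) *
    Complex.exp (((∑ i ∈ Finset.range j, t i : ℝ) : ℂ) * Complex.I) := ⟨_, rfl⟩
  have e0 : ∀ j, e j ≠ 0 := fun j => by rw [he]; exact sub_ne_zero.2 (hz.ne j)
  have en0 : ∀ j, (‖e j‖ : ℂ) ≠ 0 := fun j => by exact_mod_cast norm_ne_zero_iff.2 (e0 j)
  have E0 : ∀ j, E j ≠ 0 := by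
    intro j
    rw [hE]
    have := en0 j
    rw [he] at this
    exact mul_ne_zero this (Complex.exp_ne_zero _)
  -- the ratios of consecutive edges
  have re : ∀ k, e (k + 1) = (‖e (k + 1)‖ : ℂ) / (‖e k‖ : ℂ) * Complex.exp ((trn z k : ℂ) * Complex.I) * e k := by
    intro k
    have h2 := Complex.norm_mul_exp_arg_mul_I (e (k + 1) / e k)
    rw [norm_div, Complex.ofReal_div] at h2
    have h3 : trn z k = Complex.arg (e (k + 1) / e k) := by rw [he]; rfl
    rw [h3, h2, div_mul_cancel₀ _ (e0 k)]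
  have rE : ∀ k, E (k + 1) = (‖e (k + 1)‖ : ℂ) / (‖e k‖ : ℂ) * Complex.exp ((t k : ℂ) * Complex.I) * E k := by
    intro k
    have h1 : E (k + 1) = (‖e (k + 1)‖ : ℂ) * Complex.exp (((∑ i ∈ Finset.range (k + 1), t i : ℝ) : ℂ) * Complex.I) := by
      rw [hE, he]
    have h2 : E k = (‖e k‖ : ℂ) * Complex.exp (((∑ i ∈ Finset.range k, t i : ℝ) : ℂ) * Complex.I) := by
      rw [hE, he]
    rw [h1, h2, Finset.sum_range_succ]
    have h3 : Complex.exp (((∑ i ∈ Finset.range k, t i + t k : ℝ) : ℂ) * Complex.I) =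
        Complex.exp (((∑ i ∈ Finset.range k, t i : ℝ) : ℂ) * Complex.I) * Complex.exp ((t k : ℂ) * Complex.I) := by
      rw [← Complex.exp_add]
      congr 1
      push_cast
      ring
    rw [h3]
    have := en0 k
    field_simp
  obtain ⟨r, hr⟩ : ∃ r : ℂ, r = (‖e (j0 + 1)‖ : ℂ) / (‖e j0‖ : ℂ) * Complex.exp ((trn z j0 : ℂ) * Complex.I) := ⟨_, rfl⟩
  have hrim : r.im ≠ 0 := by
    rw [hr, ← Complex.ofReal_div, Complex.im_ofReal_mul, Complex.exp_ofReal_mul_I_im]
    have h1 : ‖e (j0 + 1)‖ / ‖e j0‖ ≠ 0 := div_ne_zero (norm_ne_zero_iff.2 (e0 _)) (norm_ne_zero_iff.2 (e0 _))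
    refine mul_ne_zero h1 fun h2 => hne0 ?_
    have h3 := abs_le.1 (abs_trn_le hz j0)
    rw [Real.sin_eq_zero_iff_of_lt_of_lt (by linarith [h3.1]) (by linarith [h3.2])] at h2
    exact h2
  have key : ∀ k, k < n → ∃ a b : ℝ, e k = (a + b * r) * e j0 ∧ E k = a * E j0 + b * E (j0 + 1) := by
    intro k hk
    obtain ⟨a, b, hab⟩ := real_comb (e k / e j0) r hrim
    have h1 : e k = (a + b * r) * e j0 := by rw [← hab, div_mul_cancel₀ _ (e0 j0)]
    refine ⟨a, b, h1, ?_⟩
    have h2 : e (j0 + 1) = r * e j0 := by rw [hr]; exact re j0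
    have h3 := h (fun j => (if j = k then -1 else 0) + (if j = j0 then a else 0) + (if j = j0 + 1 then b else 0)) (by
      have h4 : ∀ j ∈ Finset.range n, (((if j = k then -1 else 0) + (if j = j0 then a else 0) +
          (if j = j0 + 1 then b else 0) : ℝ) : ℂ) * (z (j + 1) - z j) =
          (if j = k then -e j else 0) + (if j = j0 then a * e j else 0) + (if j = j0 + 1 then b * e j else 0) := by
        intro j _
        rw [he]
        split_ifs <;> push_cast <;> ring
      rw [Finset.sum_congr rfl h4, Finset.sum_add_distrib, Finset.sum_add_distrib, Finset.sum_ite_eq', Finset.sum_ite_eq',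
        Finset.sum_ite_eq', if_pos (Finset.mem_range.2 hk), if_pos (Finset.mem_range.2 (by omega)),
        if_pos (Finset.mem_range.2 hj0), h2, h1]
      ring)
    have h4 : ∀ j ∈ Finset.range n, (((if j = k then -1 else 0) + (if j = j0 then a else 0) +
        (if j = j0 + 1 then b else 0) : ℝ) : ℂ) * ((‖z (j + 1) - z j‖ : ℂ) *
        Complex.exp (((∑ i ∈ Finset.range j, t i : ℝ) : ℂ) * Complex.I)) =
        (if j = k then -E j else 0) + (if j = j0 then a * E j else 0) + (if j = j0 + 1 then b * E j else 0) := by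
      intro j _
      rw [hE]
      split_ifs <;> push_cast <;> ring
    rw [Finset.sum_congr rfl h4, Finset.sum_add_distrib, Finset.sum_add_distrib, Finset.sum_ite_eq', Finset.sum_ite_eq',
      Finset.sum_ite_eq', if_pos (Finset.mem_range.2 hk), if_pos (Finset.mem_range.2 (by omega)),
      if_pos (Finset.mem_range.2 hj0)] at h3
    linear_combination -h3
  rcases ht j0 with h0 | h0
  · left
    have hEr : E (j0 + 1) = r * E j0 := by rw [hr, ← h0]; exact rE j0
    have hk : ∀ k, k < n → E k * e j0 = e k * E j0 := by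
      intro k hk
      obtain ⟨a, b, h1, h2⟩ := key k hk
      rw [h1, h2, hEr]
      ring
    intro k hk1
    apply exp_eq_of_pm (ht k) (abs_trn_le hz k)
    have h1 := hk k (by omega)
    have h2 := hk (k + 1) hk1
    have h3 : (‖e (k + 1)‖ : ℂ) / (‖e k‖ : ℂ) ≠ 0 := div_ne_zero (en0 _) (en0 _)
    have h4 : ((‖e (k + 1)‖ : ℂ) / (‖e k‖ : ℂ) * (e k * E j0)) * Complex.exp ((t k : ℂ) * Complex.I) =
        ((‖e (k + 1)‖ : ℂ) / (‖e k‖ : ℂ) * (e k * E j0)) * Complex.exp ((trn z k : ℂ) * Complex.I) := by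
      linear_combination h2 + (re k) * E j0 - (rE k) * e j0 -
        (‖e (k + 1)‖ : ℂ) / (‖e k‖ : ℂ) * Complex.exp ((t k : ℂ) * Complex.I) * h1
    exact mul_left_cancel₀ (mul_ne_zero h3 (mul_ne_zero (e0 k) (E0 j0))) h4
  · right
    have hEr : E (j0 + 1) = (starRingEnd ℂ) r * E j0 := by
      rw [rE j0, hr, h0]
      congr 1
      rw [map_mul, map_div₀, Complex.conj_ofReal, Complex.conj_ofReal, ← Complex.exp_conj, map_mul, Complex.conj_ofReal,
        Complex.conj_I]
      congr 2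
      push_cast
      ring
    have hk : ∀ k, k < n → E k * (starRingEnd ℂ) (e j0) = (starRingEnd ℂ) (e k) * E j0 := by
      intro k hk
      obtain ⟨a, b, h1, h2⟩ := key k hk
      rw [h1, h2, hEr, map_mul, map_add, map_mul, Complex.conj_ofReal, Complex.conj_ofReal]
      ring
    intro k hk1
    have hc0 : ∀ j, (starRingEnd ℂ) (e j) ≠ 0 := fun j => (map_ne_zero _).2 (e0 j)
    apply exp_eq_of_pm (t := t k) (τ := -trn z k) (by
      rcases ht k with h' | h'
      · right; rw [neg_neg]; exact h'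
      · left; exact h') (by rw [abs_neg]; exact abs_trn_le hz k)
    have h1 := hk k (by omega)
    have h2 := hk (k + 1) hk1
    have h5 : (starRingEnd ℂ) (e (k + 1)) = (‖e (k + 1)‖ : ℂ) / (‖e k‖ : ℂ) *
        Complex.exp (((-trn z k : ℝ) : ℂ) * Complex.I) * (starRingEnd ℂ) (e k) := by
      conv_lhs => rw [re k]
      rw [map_mul, map_mul, map_div₀, Complex.conj_ofReal, Complex.conj_ofReal, ← Complex.exp_conj, map_mul,
        Complex.conj_ofReal, Complex.conj_I]
      congr 3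
      push_cast
      ring
    have h3 : (‖e (k + 1)‖ : ℂ) / (‖e k‖ : ℂ) ≠ 0 := div_ne_zero (en0 _) (en0 _)
    have h4 : ((‖e (k + 1)‖ : ℂ) / (‖e k‖ : ℂ) * ((starRingEnd ℂ) (e k) * E j0)) * Complex.exp ((t k : ℂ) * Complex.I) =
        ((‖e (k + 1)‖ : ℂ) / (‖e k‖ : ℂ) * ((starRingEnd ℂ) (e k) * E j0)) *
          Complex.exp (((-trn z k : ℝ) : ℂ) * Complex.I) := by
      linear_combination h2 + h5 * E j0 - (rE k) * (starRingEnd ℂ) (e j0) -
        (‖e (k + 1)‖ : ℂ) / (‖e k‖ : ℂ) * Complex.exp ((t k : ℂ) * Complex.I) * h1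
    exact mul_left_cancel₀ (mul_ne_zero h3 (mul_ne_zero (hc0 k) (E0 j0))) h4

end Pool.Agent.H57.FC
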