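import Pool.Agent.H57.FC.Gen
import Pool.Agent.H57.FC.GDefs

set_option autoImplicit false

/-! Generic lengths, second part: the theorem for chains in space. -/

namespace Pool.Agent.H57.FC

open Real

theorem mem_relations {n : ℕ} {V : Type*} [AddCommGroup V] [Module ℝ V] (v : Fin n → V) (l : Fin n → ℝ) :
    l ∈ relations v ↔ ∑ i, l i • v i = 0 := Iff.rfl

theorem ex_succ {n : ℕ} (hn : 0 < n) {V : Type*} (f : Fin n → V) (i : Fin n) : ex hn f (i.val + 1) = f (finRotate n i) := by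
  conv_rhs => rw [fin_eq hn i, rotate_mk hn]
  rfl

theorem closing_iff {n : ℕ} (hn : 0 < n) {o : Fin n → EuclideanSpace ℝ (Fin 3)} {z : ℕ → ℂ}
    (hd : ∀ i j, dist (z i) (z j) = dist (ex hn o i) (ex hn o j)) (l : Fin n → ℝ) :
    l ∈ closing o ↔ ∑ i : Fin n, l i • (z (i.val + 1) - z i.val) = 0 := by
  unfold closing
  rw [mem_relations]
  have hab : ∀ i j : Fin n, inner ℝ (o (finRotate n i) - o i) (o (finRotate n j) - o j) =
      inner ℝ (z (i.val + 1) - z i.val) (z (j.val + 1) - z j.val) := by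
    intro i j
    rw [inner_of_dist hd, ex_succ, ex_succ, ex_val, ex_val]
  have h1 : inner ℝ (∑ i, l i • (o (finRotate n i) - o i)) (∑ i, l i • (o (finRotate n i) - o i)) =
      inner ℝ (∑ i : Fin n, l i • (z (i.val + 1) - z i.val)) (∑ i : Fin n, l i • (z (i.val + 1) - z i.val)) := by
    simp only [sum_inner, inner_sum, inner_smul_left, inner_smul_right, hab]
  rw [← inner_self_eq_zero (𝕜 := ℝ) (x := ∑ i, l i • (o (finRotate n i) - o i)), h1, inner_self_eq_zero]

theorem jointAngle_scaled {n : ℕ} {o p : Fin n → EuclideanSpace ℝ (Fin 3)} {l : Fin n → ℝ} (hl : ∀ i, 0 < l i)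
    (hp : ∀ i, p (finRotate n i) - p i = l i • (o (finRotate n i) - o i)) (v : Fin n) :
    jointAngle p v = jointAngle o v := by
  obtain ⟨u, hu⟩ : ∃ u, finRotate n u = v := ⟨(finRotate n).symm v, Equiv.apply_symm_apply _ _⟩
  have h1 : (finRotate n).symm v = u := by rw [← hu, Equiv.symm_apply_apply]
  have h2 : p u - p v = l u • (o u - o v) := by
    have := hp u
    rw [hu] at this
    rw [← neg_sub, this, ← smul_neg, neg_sub]
  unfold jointAngle EuclideanGeometry.angle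
  rw [h1, vsub_eq_sub, vsub_eq_sub, vsub_eq_sub, vsub_eq_sub, h2, hp v,
    InnerProductGeometry.angle_smul_left_of_pos _ _ (hl u), InnerProductGeometry.angle_smul_right_of_pos _ _ (hl v)]

theorem im_conj_mul {a b : ℂ} (ha : a ≠ 0) :
    ((starRingEnd ℂ) a * b).im = ‖a‖ * ‖b‖ * sin (Complex.arg (b / a)) := by
  have h1 := Complex.norm_mul_exp_arg_mul_I (b / a)
  rw [norm_div] at h1
  have hna : ‖a‖ ≠ 0 := norm_ne_zero_iff.2 ha
  have h2 : b = ((‖b‖ / ‖a‖ : ℝ) : ℂ) * Complex.exp (Complex.arg (b / a) * Complex.I) * a := by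
    rw [h1, div_mul_cancel₀ _ ha]
  have h3 : (starRingEnd ℂ) a * b = ((‖a‖ * ‖b‖ : ℝ) : ℂ) * Complex.exp (Complex.arg (b / a) * Complex.I) := by
    conv_lhs => rw [h2]
    have h4 : (starRingEnd ℂ) a * a = ((‖a‖ ^ 2 : ℝ) : ℂ) := by
      rw [mul_comm, Complex.mul_conj, Complex.normSq_eq_norm_sq]
    calc (starRingEnd ℂ) a * (((‖b‖ / ‖a‖ : ℝ) : ℂ) * Complex.exp (Complex.arg (b / a) * Complex.I) * a)
        = ((starRingEnd ℂ) a * a) * ((‖b‖ / ‖a‖ : ℝ) : ℂ) * Complex.exp (Complex.arg (b / a) * Complex.I) := by ring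
      _ = ((‖a‖ * ‖b‖ : ℝ) : ℂ) * Complex.exp (Complex.arg (b / a) * Complex.I) := by
        rw [h4, ← Complex.ofReal_mul]
        congr 2
        field_simp
  rw [h3, Complex.im_ofReal_mul, Complex.exp_ofReal_mul_I_im]

theorem sin_rigid {σ τ : ℝ} (h : σ = τ ∨ σ = -τ) (hτ : |τ| ≤ π / 2) {P Q : ℝ} (hP : 0 < P) (hQ : 0 < Q)
    (he : P * sin σ = Q * sin τ) : σ = τ := by
  rcases h with h | h
  · exact h
  · rw [h, sin_neg] at he
    have h1 : (P + Q) * sin τ = 0 := by linarith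
    have h2 : sin τ = 0 := (mul_eq_zero.1 h1).resolve_left (by linarith)
    have hπ := Real.pi_pos
    rw [abs_le] at hτ
    rw [Real.sin_eq_zero_iff_of_lt_of_lt (by linarith [hτ.1]) (by linarith [hτ.2])] at h2
    rw [h, h2, neg_zero]

theorem turns_scaled {n : ℕ} (hn : 0 < n) {o p : Fin n → EuclideanSpace ℝ (Fin 3)} {l : Fin n → ℝ} (hl : ∀ i, 0 < l i)
    (hp : ∀ i, p (finRotate n i) - p i = l i • (o (finRotate n i) - o i)) {z z1 : ℕ → ℂ} (hz : Adm n z) (hz1 : Adm n z1)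
    (hd : ∀ i j, dist (z i) (z j) = dist (ex hn o i) (ex hn o j))
    (hd1 : ∀ i j, dist (z1 i) (z1 j) = dist (ex hn p i) (ex hn p j))
    (tz : ∑ i ∈ Finset.range n, trn z i = 2 * π) (tz1 : ∑ i ∈ Finset.range n, trn z1 i = 2 * π) :
    ∀ i, i < n → trn z1 i = trn z i := by
  have hπ := Real.pi_pos
  have habs : ∀ i, i < n → |trn z1 i| = |trn z i| := by
    intro i hi
    have h1 := abs_trn_angle hn hz hd ⟨i, hi⟩
    have h2 := abs_trn_angle hn hz1 hd1 ⟨i, hi⟩
    rw [jointAngle_scaled hl hp, ← h1] at h2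
    exact h2
  have hpm : ∀ i, i < n → trn z1 i = trn z i ∨ trn z1 i = -trn z i := fun i hi => abs_eq_abs.1 (habs i hi)
  -- the links of p
  have hedge : ∀ i, ex hn p (i + 1) - ex hn p i = ex hn l i • (ex hn o (i + 1) - ex hn o i) := by
    intro i
    have := hp ⟨i % n, Nat.mod_lt _ hn⟩
    rw [rotate_mk hn] at this
    exact this
  have hlx : ∀ i, 0 < ex hn l i := fun i => hl _
  have hI : ∀ z : ℕ → ℂ, Adm n z → ∀ i, ∃ P : ℝ, 0 < P ∧
      ((starRingEnd ℂ) (z (i + 1) - z i) * (z (i + 2) - z (i + 1))).im = P * sin (trn z i) := by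
    intro z hz i
    have n1 : z (i + 1) - z i ≠ 0 := sub_ne_zero.2 (hz.ne _)
    have n2 : z (i + 2) - z (i + 1) ≠ 0 := sub_ne_zero.2 (hz.ne _)
    exact ⟨‖z (i + 1) - z i‖ * ‖z (i + 2) - z (i + 1)‖, mul_pos (norm_pos_iff.2 n1) (norm_pos_iff.2 n2), im_conj_mul n1⟩
  have hcr : ∀ i j, ∃ P Q : ℝ, 0 < P ∧ 0 < Q ∧
      P * (sin (trn z1 i) * sin (trn z1 j)) = Q * (sin (trn z i) * sin (trn z j)) := by
    intro i j
    have h1 : crs z1 i j = crs (ex hn p) i j := by
      unfold crs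
      rw [inner_of_dist hd1, inner_of_dist hd1, inner_of_dist hd1, inner_of_dist hd1]
    have h2 : crs z i j = crs (ex hn o) i j := by
      unfold crs
      rw [inner_of_dist hd, inner_of_dist hd, inner_of_dist hd, inner_of_dist hd]
    have h3 : crs (ex hn p) i j = ex hn l i * ex hn l (i + 1) * ex hn l j * ex hn l (j + 1) * crs (ex hn o) i j := by
      have e1 := hedge (i + 1)
      have e2 := hedge (j + 1)
      have e3 : i + 1 + 1 = i + 2 := by ring
      have e4 : j + 1 + 1 = j + 2 := by ring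
      rw [e3] at e1
      rw [e4] at e2
      unfold crs
      rw [hedge i, hedge j, e1, e2]
      simp only [inner_smul_left, inner_smul_right, conj_trivial]
      ring
    have h4 := crs_complex z1 i j
    have h5 := crs_complex z i j
    obtain ⟨a1, a1p, a1e⟩ := hI z1 hz1 i
    obtain ⟨a2, a2p, a2e⟩ := hI z1 hz1 j
    obtain ⟨b1, b1p, b1e⟩ := hI z hz i
    obtain ⟨b2, b2p, b2e⟩ := hI z hz j
    rw [a1e, a2e] at h4
    rw [b1e, b2e] at h5
    rw [h1, h3, ← h2, h5] at h4
    refine ⟨a1 * a2, ex hn l i * ex hn l (i + 1) * ex hn l j * ex hn l (j + 1) * (b1 * b2), mul_pos a1p a2p,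
      mul_pos (mul_pos (mul_pos (mul_pos (hlx _) (hlx _)) (hlx _)) (hlx _)) (mul_pos b1p b2p), ?_⟩
    linear_combination -h4
  -- a vertex with a positive turn
  obtain ⟨i0, hi0, hpos⟩ : ∃ i0, i0 < n ∧ 0 < trn z i0 := by
    by_contra hc
    have : ∑ i ∈ Finset.range n, trn z i ≤ 0 := by
      refine Finset.sum_nonpos fun i hi => ?_
      by_contra h'
      exact hc ⟨i, Finset.mem_range.1 hi, not_le.1 h'⟩
    linarith
  have hs0 : 0 < sin (trn z i0) := by
    have := (abs_le.1 (abs_trn_le hz i0)).2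
    exact Real.sin_pos_of_pos_of_lt_pi hpos (by linarith)
  rcases hpm i0 hi0 with h0 | h0
  · intro j hj
    obtain ⟨P, Q, hP, hQ, h⟩ := hcr i0 j
    rw [h0] at h
    refine sin_rigid (hpm j hj) (abs_trn_le hz j) (mul_pos hP hs0) (mul_pos hQ hs0) ?_
    linear_combination h
  · exfalso
    have hall : ∀ j ∈ Finset.range n, trn z1 j = -trn z j := by
      intro j hj
      have hj' := Finset.mem_range.1 hj
      obtain ⟨P, Q, hP, hQ, h⟩ := hcr i0 j
      rw [h0, sin_neg] at h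
      refine sin_rigid (τ := -trn z j) ?_ (by rw [abs_neg]; exact abs_trn_le hz j) (mul_pos hP hs0) (mul_pos hQ hs0) ?_
      · rcases hpm j hj' with h' | h'
        · right; rw [neg_neg]; exact h'
        · left; exact h'
      · rw [sin_neg]
        linear_combination -h
    rw [Finset.sum_congr rfl hall, Finset.sum_neg_distrib, tz] at tz1
    linarith

end Pool.Agent.H57.FC
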