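import Pool.Agent.H57.FC.Gen2

set_option autoImplicit false

/-! Generic lengths, third part. -/

namespace Pool.Agent.H57.FC

open Real

/-- the turns with the signs `s` -/
noncomputable def sturn {n : ℕ} (z : ℕ → ℂ) (s : Fin n → Bool) (i : ℕ) : ℝ :=
  if h : i < n then (if s ⟨i, h⟩ then trn z i else -trn z i) else trn z i

/-- the links of the chain after a change of the signs of the turns -/
noncomputable def slink {n : ℕ} (z : ℕ → ℂ) (s : Fin n → Bool) (j : Fin n) : ℂ :=
  (‖z (j.val + 1) - z j.val‖ : ℂ) * Complex.exp (((∑ i ∈ Finset.range j.val, sturn z s i : ℝ) : ℂ) * Complex.I)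

theorem sturn_pm {n : ℕ} (z : ℕ → ℂ) (s : Fin n → Bool) (i : ℕ) : sturn z s i = trn z i ∨ sturn z s i = -trn z i := by
  unfold sturn
  split_ifs
  · left; rfl
  · right; rfl
  · left; rfl

theorem sturn_of {n : ℕ} {z w : ℕ → ℂ} (h : ∀ i, i < n → trn w i = trn z i ∨ trn w i = -trn z i) {i : ℕ} (hi : i < n) :
    sturn z (fun j : Fin n => decide (trn w j.val = trn z j.val)) i = trn w i := by
  unfold sturn
  rw [dif_pos hi]
  by_cases hc : trn w i = trn z i
  · rw [if_pos (by simpa using hc), hc]
  · rw [if_neg (by simpa using hc)]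
    exact ((h i hi).resolve_left hc).symm

/-- the core: for fixed `z` (planar flat state with total turn `2 π`) and a flat state `w` with turns `± trn z i` and link lengths
`l i ‖z (i + 1) - z i‖`, where `l` is not in any of the proper subspaces: the turns of `w` and `z` agree -/
theorem generic_core {n : ℕ} (hn : 3 ≤ n) {z w : ℕ → ℂ} (hz : Adm n z) (hw : Adm n w)
    (tz : ∑ i ∈ Finset.range n, trn z i = 2 * π) (tw : ∑ i ∈ Finset.range n, trn w i = 2 * π)
    (h : ∀ i, i < n → trn w i = trn z i ∨ trn w i = -trn z i) (l : Fin n → ℝ)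
    (hlen : ∀ i : Fin n, ‖w (i.val + 1) - w i.val‖ = l i * ‖z (i.val + 1) - z i.val‖)
    (hl : ∀ s : Fin n → Bool, l ∈ relations (slink z s) →
      ∀ l' : Fin n → ℝ, ∑ i : Fin n, l' i • (z (i.val + 1) - z i.val) = 0 → l' ∈ relations (slink z s)) :
    ∀ i, i < n → trn w i = trn z i := by
  have hπ := Real.pi_pos
  obtain ⟨s, hs⟩ : ∃ s : Fin n → Bool, s = fun j : Fin n => decide (trn w j.val = trn z j.val) := ⟨_, rfl⟩
  have hst : ∀ i, i < n → sturn z s i = trn w i := fun i hi => by rw [hs]; exact sturn_of h hi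
  -- closure of w
  have hmem : l ∈ relations (slink z s) := by
    rw [mem_relations]
    obtain ⟨α, hα⟩ : ∃ α, α = Complex.arg (w 1 - w 0) := ⟨_, rfl⟩
    have ew := edge_lift hw α (by rw [hα, Complex.norm_mul_exp_arg_mul_I])
    have hwn : w n = w 0 := by have := hw.per 0; rwa [zero_add] at this
    have hsum : ∑ j ∈ Finset.range n, (w (j + 1) - w j) = 0 := by
      rw [Finset.sum_range_sub, hwn, sub_self]
    rw [Finset.sum_range] at hsum
    have h1 : ∀ j : Fin n, w (j.val + 1) - w j.val = Complex.exp ((α : ℂ) * Complex.I) * (l j • slink z s j) := by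
      intro j
      rw [ew j.val, hlen j]
      unfold slink
      have h2 : ∑ i ∈ Finset.range j.val, sturn z s i = ∑ i ∈ Finset.range j.val, trn w i :=
        Finset.sum_congr rfl fun i hi => hst i (lt_trans (Finset.mem_range.1 hi) j.isLt)
      rw [h2, Complex.real_smul]
      have h3 : Complex.exp (((α + ∑ i ∈ Finset.range j.val, trn w i : ℝ) : ℂ) * Complex.I) =
          Complex.exp ((α : ℂ) * Complex.I) * Complex.exp (((∑ i ∈ Finset.range j.val, trn w i : ℝ) : ℂ) * Complex.I) := by
        rw [← Complex.exp_add]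
        congr 1
        push_cast
        ring
      rw [h3]
      push_cast
      ring
    rw [Finset.sum_congr rfl fun j _ => h1 j, ← Finset.mul_sum] at hsum
    exact (mul_eq_zero.1 hsum).resolve_left (Complex.exp_ne_zero _)
  have hrig := sign_rigid hn hz tz (sturn z s) (sturn_pm z s) (by
    intro l' hl'
    rw [Finset.sum_range] at hl'
    have h1 := hl s hmem (fun i => l' i.val) (by
      rw [← hl']
      exact Finset.sum_congr rfl fun i _ => Complex.real_smul)
    rw [mem_relations] at h1
    rw [Finset.sum_range, ← h1]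
    refine Finset.sum_congr rfl fun i _ => ?_
    rw [Complex.real_smul]
    rfl)
  obtain ⟨m, rfl⟩ : ∃ m, n = m + 1 := ⟨n - 1, by omega⟩
  have tz' := tz
  have tw' := tw
  rw [Finset.sum_range_succ] at tz' tw'
  rcases hrig with h1 | h1
  · have h2 : ∀ i, i < m → trn w i = trn z i := by
      intro i hi
      rw [← hst i (by omega), h1 i (by omega)]
    have h3 : ∑ i ∈ Finset.range m, trn w i = ∑ i ∈ Finset.range m, trn z i :=
      Finset.sum_congr rfl fun i hi => h2 i (Finset.mem_range.1 hi)
    intro i hi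
    rcases Nat.lt_or_ge i m with h4 | h4
    · exact h2 i h4
    · have h5 : i = m := by omega
      rw [h5]
      linarith
  · exfalso
    have h2 : ∀ i ∈ Finset.range m, trn w i = -trn z i := by
      intro i hi
      have hi' := Finset.mem_range.1 hi
      rw [← hst i (by omega), h1 i (by omega)]
    rw [Finset.sum_congr rfl h2, Finset.sum_neg_distrib] at tw'
    have h3 := (abs_le.1 (abs_trn_le hz m)).2
    have h4 := (abs_le.1 (abs_trn_le hw m)).2
    linarith

theorem generic_lengths {n : ℕ} (h3 : 3 ≤ n) {o : Fin n → EuclideanSpace ℝ (Fin 3)} (ho : FlatState o) (ha : Nonacute o) :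
    ∃ 𝒰 : Set (Submodule ℝ (Fin n → ℝ)), 𝒰.Finite ∧ (∀ U ∈ 𝒰, U < closing o) ∧
      ∀ l : Fin n → ℝ, (∀ i, 0 < l i) → (∀ U ∈ 𝒰, l ∉ U) →
        ∀ p : Fin n → EuclideanSpace ℝ (Fin 3), FlatState p →
          (∀ i, p (finRotate n i) - p i = l i • (o (finRotate n i) - o i)) →
          (∀ q, FlatState q → SameChain q p → ∀ i j, dist (q i) (q j) = dist (p i) (p j)) ∧
          ∀ q q', FlatState q → FlatState q' → SameChain q p → SameChain q' p → JoinedByMotion q q' := by
  have hn : 0 < n := by omega
  have hx := adm_ex hn h3 ho.1 ha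
  obtain ⟨z, hz, cz, dz, tz⟩ := exists_planar h3 hx (flat_ex hn ho.2)
  refine ⟨{U | (∃ s : Fin n → Bool, U = closing o ⊓ relations (slink z s)) ∧ U ≠ closing o}, ?_, ?_, ?_⟩
  · refine (Set.finite_range fun s : Fin n → Bool => closing o ⊓ relations (slink z s)).subset ?_
    rintro U ⟨⟨s, rfl⟩, -⟩
    exact ⟨s, rfl⟩
  · rintro U ⟨⟨s, rfl⟩, hU⟩
    exact lt_of_le_of_ne inf_le_left hU
  · intro l hl hbad p hp hlp
    have hap : Nonacute p := fun i => by rw [jointAngle_scaled hl hlp i]; exact ha i
    have hy := adm_ex hn h3 hp.1 hap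
    obtain ⟨z1, hz1, c1, d1, tz1⟩ := exists_planar h3 hy (flat_ex hn hp.2)
    have hturn := turns_scaled hn hl hlp hz hz1 dz d1 tz tz1
    have hlc : l ∈ closing o := by
      unfold closing
      rw [mem_relations]
      have e1 : ∑ i, l i • (o (finRotate n i) - o i) = ∑ i, (p (finRotate n i) - p i) :=
        Finset.sum_congr rfl fun i _ => (hlp i).symm
      rw [e1, Finset.sum_sub_distrib, Equiv.sum_comp (finRotate n) p, sub_self]
    have main : ∀ q, FlatState q → SameChain q p →
        (∀ i j, dist (q i) (q j) = dist (p i) (p j)) ∧ Conn n (ex hn p) (ex hn q) := by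
      intro q hq hqp
      have haq : Nonacute q := fun i => by rw [hqp.2 i]; exact hap i
      have hyq := adm_ex hn h3 hq.1 haq
      obtain ⟨w, hw, cw, dw, tw⟩ := exists_planar h3 hyq (flat_ex hn hq.2)
      have ezw : Eqv z1 w := ((Eqv.of_dist d1).trans' (eqv_ex hn hqp.symm)).trans' (Eqv.of_dist dw).symm'
      have hpm : ∀ i, i < n → trn w i = trn z i ∨ trn w i = -trn z i := by
        intro i hi
        rw [← hturn i hi]
        exact abs_eq_abs.1 (trn_eqv hz1 hw ezw i).symm
      have hlen : ∀ i : Fin n, ‖w (i.val + 1) - w i.val‖ = l i * ‖z (i.val + 1) - z i.val‖ := by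
        intro i
        have e1 := (ezw i.val).1
        have e2 : dist (z1 i.val) (z1 (i.val + 1)) = l i * dist (z i.val) (z (i.val + 1)) := by
          rw [d1, dz, ex_succ, ex_succ, ex_val, ex_val, dist_comm (p i), dist_comm (o i), dist_eq_norm, dist_eq_norm,
            hlp i, norm_smul, Real.norm_of_nonneg (hl i).le]
        rw [← dist_eq_norm, ← dist_eq_norm, dist_comm (w _), dist_comm (z (i.val + 1)), ← e1, e2]
      have hcore := generic_core h3 hz hw tz tw hpm l hlen (by
        intro s hs l' hl'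
        by_cases hU : closing o ⊓ relations (slink z s) = closing o
        · have h1 : l' ∈ closing o := (closing_iff hn dz l').2 hl'
          rw [← hU] at h1
          exact h1.2
        · exact absurd ⟨hlc, hs⟩ (hbad _ ⟨⟨s, rfl⟩, hU⟩))
      have hall : ∀ i, i < n → trn z1 i = trn w i := fun i hi => by rw [hturn i hi, hcore i hi]
      constructor
      · obtain ⟨u, v, hu, hv⟩ := congruent h3 hz1 hw ezw hall
        intro i j
        rw [← ex_val hn q i, ← ex_val hn q j, ← ex_val hn p i, ← ex_val hn p j, ← dw, ← d1, hv, hv, dist_eq_norm,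
          dist_eq_norm, add_sub_add_right_eq_sub, ← mul_sub, norm_mul, hu, one_mul]
      · exact (c1.trans (planar_signs h3 hz1 hw ezw tz1 tw (Or.inl hall))).trans cw.symm
    refine ⟨fun q hq hqp => (main q hq hqp).1, fun q q' hq hq' h1 h2 => ?_⟩
    exact joined_of_conn hn ((main q hq h1).2.symm.trans (main q' hq' h2).2)

end Pool.Agent.H57.FC
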