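import Pool.Agent.H57.FC.Gen3

set_option autoImplicit false

/-! Generic lengths, fourth part: good length vectors are dense. -/

namespace Pool.Agent.H57.FC

open Real

theorem segment_compact (a b : E3) : IsCompact (segment ℝ a b) := by
  rw [segment_eq_image]
  exact isCompact_Icc.image (by fun_prop)

theorem seg_sep {a b c d : E3} (h : Disjoint (segment ℝ a b) (segment ℝ c d)) :
    ∃ η : ℝ, 0 < η ∧ ∀ u ∈ segment ℝ a b, ∀ v ∈ segment ℝ c d, η ≤ dist u v := by
  obtain ⟨r, hr, h1⟩ := Metric.exists_pos_forall_lt_edist (segment_compact a b) (segment_compact c d).isClosed h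
  refine ⟨r, by exact_mod_cast hr, fun u hu v hv => ?_⟩
  have h2 := (h1 u hu v hv).le
  rw [edist_nndist, ENNReal.coe_le_coe] at h2
  exact_mod_cast h2

theorem comb_close {a b a' b' : E3} {ε s t : ℝ} (ha : ‖a' - a‖ ≤ ε) (hb : ‖b' - b‖ ≤ ε) (hs : 0 ≤ s) (ht : 0 ≤ t)
    (hst : s + t = 1) : ‖(s • a' + t • b') - (s • a + t • b)‖ ≤ ε := by
  have h1 : (s • a' + t • b') - (s • a + t • b) = s • (a' - a) + t • (b' - b) := by
    rw [smul_sub, smul_sub]
    abel
  rw [h1]
  calc ‖s • (a' - a) + t • (b' - b)‖ ≤ ‖s • (a' - a)‖ + ‖t • (b' - b)‖ := norm_add_le _ _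
    _ = s * ‖a' - a‖ + t * ‖b' - b‖ := by
      rw [norm_smul, norm_smul, Real.norm_of_nonneg hs, Real.norm_of_nonneg ht]
    _ ≤ s * ε + t * ε := add_le_add (mul_le_mul_of_nonneg_left ha hs) (mul_le_mul_of_nonneg_left hb ht)
    _ = ε := by rw [← add_mul, hst, one_mul]

theorem seg_stable {a b c d a' b' c' d' : E3} {η ε : ℝ} (hε : 2 * ε < η)
    (h : ∀ u ∈ segment ℝ a b, ∀ v ∈ segment ℝ c d, η ≤ dist u v) (ha : ‖a' - a‖ ≤ ε) (hb : ‖b' - b‖ ≤ ε)
    (hc : ‖c' - c‖ ≤ ε) (hd : ‖d' - d‖ ≤ ε) : Disjoint (segment ℝ a' b') (segment ℝ c' d') := by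
  rw [Set.disjoint_left]
  rintro w ⟨s, t, hs, ht, hst, hw⟩ ⟨s', t', hs', ht', hst', hw'⟩
  have h1 := h (s • a + t • b) ⟨s, t, hs, ht, hst, rfl⟩ (s' • c + t' • d) ⟨s', t', hs', ht', hst', rfl⟩
  have h2 := comb_close ha hb hs ht hst
  have h3 := comb_close hc hd hs' ht' hst'
  rw [hw] at h2
  rw [hw'] at h3
  have h4 : dist (s • a + t • b) (s' • c + t' • d) ≤ ‖w - (s • a + t • b)‖ + ‖w - (s' • c + t' • d)‖ := by
    rw [dist_eq_norm]
    have : s • a + t • b - (s' • c + t' • d) = -(w - (s • a + t • b)) + (w - (s' • c + t' • d)) := by abel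
    rw [this]
    refine (norm_add_le _ _).trans ?_
    rw [norm_neg]
  linarith

/-- uniform separation of the nonadjacent edges -/
theorem adm_sep {n : ℕ} (hn : 0 < n) {x : ℕ → E3} (hx : Adm n x) : ∃ η : ℝ, 0 < η ∧ ∀ i j, i + 1 < j → j < n → j + 1 < i + n →
    ∀ u ∈ segment ℝ (x i) (x (i + 1)), ∀ v ∈ segment ℝ (x j) (x (j + 1)), η ≤ dist u v := by
  have h1 : ∀ ij : Fin n × Fin n, ∃ η : ℝ, 0 < η ∧ (ij.1.val + 1 < ij.2.val → ij.2.val + 1 < ij.1.val + n →
      ∀ u ∈ segment ℝ (x ij.1.val) (x (ij.1.val + 1)), ∀ v ∈ segment ℝ (x ij.2.val) (x (ij.2.val + 1)), η ≤ dist u v) := by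
    intro ij
    by_cases hc : ij.1.val + 1 < ij.2.val ∧ ij.2.val + 1 < ij.1.val + n
    · obtain ⟨η, hη, h⟩ := seg_sep (hx.simp _ _ hc.1 hc.2)
      exact ⟨η, hη, fun _ _ => h⟩
    · exact ⟨1, one_pos, fun h h' => absurd ⟨h, h'⟩ hc⟩
  choose η hη h using h1
  have hne : (Finset.univ : Finset (Fin n × Fin n)).Nonempty := ⟨(⟨0, hn⟩, ⟨0, hn⟩), Finset.mem_univ _⟩
  refine ⟨Finset.univ.inf' hne η, (Finset.lt_inf'_iff hne).2 fun i _ => hη i, ?_⟩
  intro i j h1 h2 h3 u hu v hv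
  exact (Finset.inf'_le η (Finset.mem_univ ((⟨i, by omega⟩, ⟨j, h2⟩) : Fin n × Fin n))).trans
    (h (⟨i, by omega⟩, ⟨j, h2⟩) h1 h3 u hu v hv)

/-- the chain with the links `l i • (o (i + 1) - o i)` -/
theorem exists_scaled {n : ℕ} (h3 : 3 ≤ n) {o : Fin n → EuclideanSpace ℝ (Fin 3)} (ho : FlatState o) (ha : Nonacute o) :
    ∃ δ : ℝ, 0 < δ ∧ ∀ l : Fin n → ℝ, l ∈ closing o → (∀ i, |l i - 1| < δ) →
      ∃ p : Fin n → EuclideanSpace ℝ (Fin 3), FlatState p ∧ ∀ i, p (finRotate n i) - p i = l i • (o (finRotate n i) - o i) := by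
  have hn : 0 < n := by omega
  have hx := adm_ex hn h3 ho.1 ha
  obtain ⟨η, hη, hsep⟩ := adm_sep hn hx
  obtain ⟨L, hL⟩ : ∃ L : ℝ, L = ∑ i ∈ Finset.range n, ‖ex hn o (i + 1) - ex hn o i‖ := ⟨_, rfl⟩
  have hL0 : 0 ≤ L := by rw [hL]; exact Finset.sum_nonneg fun _ _ => norm_nonneg _
  refine ⟨min (1 / 2) (η / (4 * (L + 1))), lt_min (by norm_num) (by positivity), ?_⟩
  intro l hl hlδ
  have hl1 : ∀ i, |l i - 1| < 1 / 2 := fun i => (hlδ i).trans_le (min_le_left _ _)
  have hl2 : ∀ i, |l i - 1| < η / (4 * (L + 1)) := fun i => (hlδ i).trans_le (min_le_right _ _)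
  have hlpos : ∀ i, 0 < ex hn l i := by
    intro i
    have := (abs_lt.1 (hl1 ⟨i % n, Nat.mod_lt _ hn⟩)).1
    unfold ex
    linarith
  obtain ⟨y, hy⟩ : ∃ y : ℕ → E3, y = fun k => ex hn o 0 + ∑ i ∈ Finset.range k, ex hn l i • (ex hn o (i + 1) - ex hn o i) :=
    ⟨_, rfl⟩
  have hstep : ∀ k, y (k + 1) - y k = ex hn l k • (ex hn o (k + 1) - ex hn o k) := by
    intro k
    rw [hy]
    simp only
    rw [Finset.sum_range_succ]
    abel
  have hclose : ∑ i ∈ Finset.range n, ex hn l i • (ex hn o (i + 1) - ex hn o i) = 0 := by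
    rw [Finset.sum_range]
    have h1 := (mem_relations _ l).1 hl
    rw [← h1]
    refine Finset.sum_congr rfl fun i _ => ?_
    rw [ex_succ, ex_val, ex_val]
  have hper : ∀ k, y (k + n) = y k := by
    intro k
    induction k with
    | zero =>
      rw [zero_add, hy]
      simp only
      rw [hclose, Finset.sum_range_zero]
    | succ k ih =>
      have h1 := hstep (k + n)
      have h2 := hstep k
      have e1 : ex hn l (k + n) = ex hn l k := ex_per hn l k
      have e2 : ex hn o (k + n + 1) = ex hn o (k + 1) := by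
        rw [show k + n + 1 = k + 1 + n by ring]; exact ex_per hn o (k + 1)
      have e3 : ex hn o (k + n) = ex hn o k := ex_per hn o k
      rw [e1, e2, e3, ← h2, ih] at h1
      have h4 : y (k + n + 1) = y (k + 1) := sub_left_injective h1
      rw [show k + 1 + n = k + n + 1 by ring]
      exact h4
  have hdist : ∀ k, k ≤ n → ‖y k - ex hn o k‖ ≤ η / 4 := by
    intro k hk
    have h1 : y k - ex hn o k = ∑ i ∈ Finset.range k, (ex hn l i - 1) • (ex hn o (i + 1) - ex hn o i) := by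
      have h2 := Finset.sum_range_sub (ex hn o) k
      have h3 : ∀ i ∈ Finset.range k, (ex hn l i - 1) • (ex hn o (i + 1) - ex hn o i) =
          ex hn l i • (ex hn o (i + 1) - ex hn o i) - (ex hn o (i + 1) - ex hn o i) := by
        intro i _
        rw [sub_smul, one_smul]
      rw [Finset.sum_congr rfl h3, Finset.sum_sub_distrib, h2, hy]
      simp only
      abel
    rw [h1]
    have h2 : ∀ i, |ex hn l i - 1| ≤ η / (4 * (L + 1)) := fun i => (hl2 _).le
    calc ‖∑ i ∈ Finset.range k, (ex hn l i - 1) • (ex hn o (i + 1) - ex hn o i)‖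
        ≤ ∑ i ∈ Finset.range k, ‖(ex hn l i - 1) • (ex hn o (i + 1) - ex hn o i)‖ := norm_sum_le _ _
      _ ≤ ∑ i ∈ Finset.range k, η / (4 * (L + 1)) * ‖ex hn o (i + 1) - ex hn o i‖ := by
        refine Finset.sum_le_sum fun i _ => ?_
        rw [norm_smul, Real.norm_eq_abs]
        exact mul_le_mul_of_nonneg_right (h2 i) (norm_nonneg _)
      _ = η / (4 * (L + 1)) * ∑ i ∈ Finset.range k, ‖ex hn o (i + 1) - ex hn o i‖ := by rw [Finset.mul_sum]
      _ ≤ η / (4 * (L + 1)) * L := by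
        refine mul_le_mul_of_nonneg_left ?_ (by positivity)
        rw [hL]
        exact Finset.sum_le_sum_of_subset_of_nonneg (Finset.range_mono hk) fun _ _ _ => norm_nonneg _
      _ ≤ η / 4 := by
        rw [div_mul_eq_mul_div, div_le_div_iff₀ (by positivity) (by norm_num)]
        nlinarith
  have hadm : Adm n y := by
    refine ⟨hper, ?_, ?_, ?_⟩
    · refine simp_of_range hn hper fun i j h1 h2 h3 => ?_
      exact seg_stable (η := η) (ε := η / 4) (by linarith) (hsep i j h1 h2 h3) (hdist i (by omega)) (hdist (i + 1) (by omega))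
        (hdist j (by omega)) (hdist (j + 1) (by omega))
    · intro i h
      have h1 := hstep i
      rw [h, sub_self] at h1
      rcases smul_eq_zero.1 h1.symm with h2 | h2
      · exact (hlpos i).ne' h2
      · exact hx.ne i (sub_eq_zero.1 h2)
    · intro i
      have h1 := hstep (i + 1)
      rw [hstep i, h1, inner_smul_left, inner_smul_right, conj_trivial]
      exact mul_nonneg (hlpos i).le (mul_nonneg (hlpos (i + 1)).le (hx.obt i))
  have hex : ex hn (fun i : Fin n => y i.val) = y := by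
    funext k
    unfold ex
    simp only
    conv_rhs => rw [← Nat.mod_add_div k n, mul_comm, per_mul hper]
  refine ⟨fun i => y i.val, ⟨simple_of_adm hn (by rw [hex]; exact hadm), ?_⟩, ?_⟩
  · refine (Submodule.finrank_mono ?_).trans ho.2
    rw [direction_affineSpan, direction_affineSpan]
    have hmem : ∀ k, y k - ex hn o 0 ∈ vectorSpan ℝ (Set.range o) := by
      intro k
      rw [hy]
      simp only [add_sub_cancel_left]
      refine Submodule.sum_mem _ fun i _ => Submodule.smul_mem _ _ ?_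
      exact vsub_mem_vectorSpan ℝ ⟨_, rfl⟩ ⟨_, rfl⟩
    rw [vectorSpan_def, Submodule.span_le]
    rintro _ ⟨_, ⟨i, rfl⟩, _, ⟨j, rfl⟩, rfl⟩
    have := Submodule.sub_mem _ (hmem i.val) (hmem j.val)
    rw [sub_sub_sub_cancel_right] at this
    exact this
  · intro i
    have h1 := hstep i.val
    rw [ex_val, ex_succ, ex_val] at h1
    have h2 : y (i.val + 1) = y (finRotate n i).val := by
      have := ex_succ hn (fun i : Fin n => y i.val) i
      rw [hex] at this
      exact this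
    rw [h2] at h1
    exact h1

theorem dense_good {n : ℕ} (h3 : 3 ≤ n) {o : Fin n → EuclideanSpace ℝ (Fin 3)} (ho : FlatState o) (ha : Nonacute o)
    {𝒰 : Set (Submodule ℝ (Fin n → ℝ))} (hf : 𝒰.Finite) (hU : ∀ U ∈ 𝒰, U < closing o) {δ : ℝ} (hδ : 0 < δ) :
    ∃ (l : Fin n → ℝ) (p : Fin n → EuclideanSpace ℝ (Fin 3)), (∀ i, 0 < l i) ∧ (∀ i, |l i - 1| < δ) ∧ (∀ U ∈ 𝒰, l ∉ U) ∧
      FlatState p ∧ ∀ i, p (finRotate n i) - p i = l i • (o (finRotate n i) - o i) := by
  obtain ⟨δ1, hδ1, hp⟩ := exists_scaled h3 ho ha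
  have hone : (1 : Fin n → ℝ) ∈ closing o := by
    unfold closing
    rw [mem_relations]
    simp only [Pi.one_apply, one_smul]
    rw [Finset.sum_sub_distrib, Equiv.sum_comp (finRotate n) o, sub_self]
  -- a closing vector outside of all the subspaces
  obtain ⟨v, hv, hvU⟩ : ∃ v ∈ closing o, ∀ U ∈ 𝒰, v ∉ U := by
    by_contra hc
    have : Finite 𝒰 := hf.to_subtype
    have hcov : ⋃ U : 𝒰, ((Submodule.comap (closing o).subtype U.1 : Submodule ℝ (closing o)) : Set (closing o)) = Set.univ := by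
      rw [Set.eq_univ_iff_forall]
      intro v
      by_contra h1
      apply hc
      refine ⟨v.1, v.2, fun U hU' h2 => h1 ?_⟩
      exact Set.mem_iUnion.2 ⟨⟨U, hU'⟩, h2⟩
    obtain ⟨U, h1⟩ := Subspace.exists_eq_top_of_iUnion_eq_univ hcov
    have h2 : closing o ≤ U.1 := Submodule.comap_subtype_eq_top.1 h1
    exact absurd h2 (not_le_of_gt (hU U.1 U.2))
  obtain ⟨M, hM⟩ : ∃ M : ℝ, M = ∑ i, |v i| := ⟨_, rfl⟩
  have hM0 : 0 ≤ M := by rw [hM]; exact Finset.sum_nonneg fun _ _ => abs_nonneg _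
  have hvM : ∀ i, |v i| ≤ M := fun i => by
    rw [hM]; exact Finset.single_le_sum (f := fun i => |v i|) (fun _ _ => abs_nonneg _) (Finset.mem_univ i)
  obtain ⟨ε, hε⟩ : ∃ ε : ℝ, ε = min (min δ δ1) 1 := ⟨_, rfl⟩
  have hε0 : 0 < ε := by rw [hε]; exact lt_min (lt_min hδ hδ1) one_pos
  have hεa : ε ≤ δ := by rw [hε]; exact (min_le_left _ _).trans (min_le_left _ _)
  have hεb : ε ≤ δ1 := by rw [hε]; exact (min_le_left _ _).trans (min_le_right _ _)
  have hεc : ε ≤ 1 := by rw [hε]; exact min_le_right _ _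
  have hbad : {t : ℝ | ∃ U ∈ 𝒰, (1 : Fin n → ℝ) + t • v ∈ U}.Finite := by
    have h1 : {t : ℝ | ∃ U ∈ 𝒰, (1 : Fin n → ℝ) + t • v ∈ U} = ⋃ U ∈ 𝒰, {t : ℝ | (1 : Fin n → ℝ) + t • v ∈ U} := by
      ext t
      simp
    rw [h1]
    refine hf.biUnion fun U hU' => Set.Subsingleton.finite ?_
    intro t ht t' ht'
    by_contra hne
    have h2 : ((1 : Fin n → ℝ) + t • v) - ((1 : Fin n → ℝ) + t' • v) ∈ U := U.sub_mem ht ht'
    rw [add_sub_add_left_eq_sub, ← sub_smul] at h2
    exact hvU U hU' ((U.smul_mem_iff (sub_ne_zero.2 hne)).1 h2)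
  obtain ⟨t, ht, htbad⟩ := (Set.Ioo_infinite (show (0 : ℝ) < ε / (M + 1) by positivity)).exists_notMem_finite hbad
  have hsmall : ∀ i, |((1 : Fin n → ℝ) + t • v) i - 1| < ε := by
    intro i
    have h1 : ((1 : Fin n → ℝ) + t • v) i - 1 = t * v i := by
      simp
    rw [h1, abs_mul, abs_of_pos ht.1]
    have h2 : t * |v i| ≤ t * M := mul_le_mul_of_nonneg_left (hvM i) ht.1.le
    have h3 : t * (M + 1) < ε := (lt_div_iff₀ (by positivity)).1 ht.2
    nlinarith [ht.1]
  obtain ⟨p, hp1, hp2⟩ := hp ((1 : Fin n → ℝ) + t • v) ((closing o).add_mem hone ((closing o).smul_mem t hv))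
    (fun i => (hsmall i).trans_le hεb)
  refine ⟨(1 : Fin n → ℝ) + t • v, p, ?_, ?_, ?_, hp1, hp2⟩
  · intro i
    have h1 := (abs_lt.1 ((hsmall i).trans_le hεc)).1
    linarith
  · exact fun i => (hsmall i).trans_le hεa
  · intro U hU' h1
    exact htbad ⟨U, hU', h1⟩

end Pool.Agent.H57.FC
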