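import Pool.Agent.H57.FC.Base

set_option autoImplicit false

/-! ROW SGN (about 150 lines). The two closure equations (pure real analysis; this is the heart of the proof).

Notation: `ψ j = (φ j + φ' j) / 2`, `ρ j = φ' j - φ j`.  `ψ 0 = 0`, `ψ (n-1) = 2 π`, `ρ 0 = τ`, `ρ (n-1) = -τ`.
From `hs`: with `d = φ (j+1) - φ j ∈ [0, π/2]`, `φ' (j+1) - φ' j = d` or `-d`: in the first case `ψ` increases by `d` and `ρ` is
unchanged, in the second case `ψ` is unchanged and `ρ` decreases by `2 d`.  So `ψ` is nondecreasing, `ρ` nonincreasing on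
`[0, n-1]`, all `ρ j ∈ [-τ, τ] ⊂ [-π/2, π/2]`, all `ψ j ∈ [0, 2 π]`.
Let `m j = l j * cos (ρ j / 2) > 0`, `t j = tan (ρ j / 2)` (nonincreasing, `Real.strictMonoOn_tan`).
Imaginary parts of `c`, `c'`: `∑ l j sin (ψ j - ρ j / 2) = 0 = ∑ l j sin (ψ j + ρ j / 2)`; adding and subtracting:
`∑ m j sin (ψ j) = 0` and (IMAGINARY part of the difference) `∑ l j sin (ρ j / 2) cos (ψ j) = 0`; REAL part of the difference:
`∑ l j sin (ρ j / 2) sin (ψ j) = 0`, i.e. `∑ m j t j sin (ψ j) = 0`.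
Let `k` = first index with `ψ k > π` (exists as `ψ (n-1) = 2 π`), `k ≤ n - 1`.  Then
`∑ m j (t j - t k) sin (ψ j) = 0` and every term is `≥ 0` (for `j < k`: `t j ≥ t k`, `0 ≤ ψ j ≤ π`; for `j ≥ k`: `t j ≤ t k`,
`π < ψ j ≤ 2 π`).  So for every `j < n`: `t j = t k` (hence `ρ j = ρ k`) or `sin (ψ j) = 0`.
Let `j1` = first index with `ψ j1 > 0`: `ψ (j1 - 1) = 0`, `0 < ψ j1 ≤ π / 2`, so `sin ≠ 0`, `ρ j1 = ρ k`.
Let `j2` = last index with `ψ j2 < 2 π`: `ψ (j2 + 1) = 2 π`, `ψ j2 ≥ 3 π / 2`, so `ρ j2 = ρ k`.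
Monotonicity: `ρ j = ρ k =: ρ` for `j1 ≤ j ≤ j2`; and `ρ (j1 - 1) = ρ j1`, `ρ (j2 + 1) = ρ j2` since `ψ` changes there.
`j1 ≥ 1` since `ψ 0 = 0`; `j1 ≤ j2` since `ψ j1 < 2 π`; `j2 + 1 < n`, i.e. `j2 ≠ n - 1` since `ψ (n-1) = 2 π`.
For `j < j1`: `ψ j = 0`; for `j2 < j < n`: `ψ j = 2 π`. -/

namespace Pool.Agent.H57.FC

open Real

private theorem Sgn_mono {n : ℕ} {f : ℕ → ℝ} (h : ∀ j, j + 1 < n → f j ≤ f (j + 1)) :
    ∀ i j, i ≤ j → j < n → f i ≤ f j := by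
  intro i j hij
  induction j, hij using Nat.le_induction with
  | base => intro _; exact le_refl _
  | succ j _ ih =>
    intro hj
    exact le_trans (ih (by omega)) (h j hj)

private theorem Sgn_re {n : ℕ} {l φ : ℕ → ℝ}
    (c : ∑ j ∈ Finset.range n, (l j : ℂ) * Complex.exp ((φ j : ℂ) * Complex.I) = 0) :
    ∑ j ∈ Finset.range n, l j * cos (φ j) = 0 := by
  have h := congrArg Complex.re c
  rw [Complex.re_sum, Complex.zero_re] at h
  rw [← h]
  refine Finset.sum_congr rfl fun j _ => ?_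
  rw [Complex.re_ofReal_mul, Complex.exp_ofReal_mul_I_re]

private theorem Sgn_im {n : ℕ} {l φ : ℕ → ℝ}
    (c : ∑ j ∈ Finset.range n, (l j : ℂ) * Complex.exp ((φ j : ℂ) * Complex.I) = 0) :
    ∑ j ∈ Finset.range n, l j * sin (φ j) = 0 := by
  have h := congrArg Complex.im c
  rw [Complex.im_sum, Complex.zero_im] at h
  rw [← h]
  refine Finset.sum_congr rfl fun j _ => ?_
  rw [Complex.im_ofReal_mul, Complex.exp_ofReal_mul_I_im]

theorem closure_sign {n : ℕ} (hn : 3 ≤ n) {l φ φ' : ℕ → ℝ} {τ : ℝ}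
    (hl : ∀ j, j < n → 0 < l j) (hτ : 0 < τ) (hτ2 : τ ≤ π / 2)
    (h0 : φ 0 = -(τ / 2)) (h0' : φ' 0 = τ / 2)
    (hs : ∀ j, j + 1 < n → 0 ≤ φ (j + 1) - φ j ∧ φ (j + 1) - φ j ≤ π / 2 ∧
      |φ' (j + 1) - φ' j| = φ (j + 1) - φ j)
    (hN : φ (n - 1) = 2 * π + τ / 2) (hN' : φ' (n - 1) = 2 * π - τ / 2)
    (c : ∑ j ∈ Finset.range n, (l j : ℂ) * Complex.exp ((φ j : ℂ) * Complex.I) = 0)
    (c' : ∑ j ∈ Finset.range n, (l j : ℂ) * Complex.exp ((φ' j : ℂ) * Complex.I) = 0) :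
    ∃ (j1 j2 : ℕ) (ρ : ℝ), 1 ≤ j1 ∧ j1 ≤ j2 ∧ j2 + 1 < n ∧
      (∀ j, j1 ≤ j + 1 → j ≤ j2 + 1 → φ' j - φ j = ρ) ∧
      (∀ j, j < j1 → φ' j + φ j = 0) ∧ (∀ j, j2 < j → j < n → φ' j + φ j = 4 * π) := by
  have hπ : 0 < π := Real.pi_pos
  obtain ⟨ψ, hψ⟩ : ∃ ψ : ℕ → ℝ, ∀ j, ψ j = (φ j + φ' j) / 2 := ⟨_, fun _ => rfl⟩
  obtain ⟨ρ, hρ⟩ : ∃ ρ : ℕ → ℝ, ∀ j, ρ j = φ' j - φ j := ⟨_, fun _ => rfl⟩
  -- one step
  have step : ∀ j, j + 1 < n → ψ j ≤ ψ (j + 1) ∧ ψ (j + 1) ≤ ψ j + π / 2 ∧ ρ (j + 1) ≤ ρ j ∧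
      (ψ (j + 1) = ψ j ∨ ρ (j + 1) = ρ j) := by
    intro j hj
    obtain ⟨h1, h2, h3⟩ := hs j hj
    rw [hψ, hψ, hρ, hρ]
    rcases abs_choice (φ' (j + 1) - φ' j) with h4 | h4
    · rw [h4] at h3
      exact ⟨by linarith, by linarith, by linarith, Or.inr (by linarith)⟩
    · rw [h4] at h3
      exact ⟨by linarith, by linarith, by linarith, Or.inl (by linarith)⟩
  have hψm : ∀ i j, i ≤ j → j < n → ψ i ≤ ψ j := Sgn_mono fun j hj => (step j hj).1
  have hρm : ∀ i j, i ≤ j → j < n → ρ j ≤ ρ i := by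
    intro i j hij hj
    have := Sgn_mono (f := fun j => -ρ j) (n := n) (fun j hj => neg_le_neg (step j hj).2.2.1)
      i j hij hj
    simpa using this
  have hψ0 : ψ 0 = 0 := by rw [hψ, h0, h0']; ring
  have hψN : ψ (n - 1) = 2 * π := by rw [hψ, hN, hN']; ring
  have hρ0 : ρ 0 = τ := by rw [hρ, h0, h0']; ring
  have hρN : ρ (n - 1) = -τ := by rw [hρ, hN, hN']; ring
  have hψr : ∀ j, j < n → 0 ≤ ψ j ∧ ψ j ≤ 2 * π := by
    intro j hj
    exact ⟨hψ0 ▸ hψm 0 j (Nat.zero_le j) hj, hψN ▸ hψm j (n - 1) (by omega) (by omega)⟩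
  have hρr : ∀ j, j < n → -τ ≤ ρ j ∧ ρ j ≤ τ := by
    intro j hj
    exact ⟨hρN ▸ hρm j (n - 1) (by omega) (by omega), hρ0 ▸ hρm 0 j (Nat.zero_le j) hj⟩
  -- the two sums
  have hφ1 : ∀ j, φ j = ψ j - ρ j / 2 := fun j => by rw [hψ, hρ]; ring
  have hφ2 : ∀ j, φ' j = ψ j + ρ j / 2 := fun j => by rw [hψ, hρ]; ring
  have S1 : ∑ j ∈ Finset.range n, l j * cos (ρ j / 2) * sin (ψ j) = 0 := by
    have h1 := Sgn_im c
    have h2 := Sgn_im c'
    have h3 : ∑ j ∈ Finset.range n, (l j * sin (φ j) + l j * sin (φ' j)) = 0 := by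
      rw [Finset.sum_add_distrib, h1, h2, add_zero]
    have h4 : ∀ j, l j * sin (φ j) + l j * sin (φ' j) = 2 * (l j * cos (ρ j / 2) * sin (ψ j)) := by
      intro j
      rw [hφ1, hφ2, sin_sub, sin_add]
      ring
    rw [Finset.sum_congr rfl fun j _ => h4 j, ← Finset.mul_sum] at h3
    linarith
  have S2 : ∑ j ∈ Finset.range n, l j * sin (ρ j / 2) * sin (ψ j) = 0 := by
    have h1 := Sgn_re c
    have h2 := Sgn_re c'
    have h3 : ∑ j ∈ Finset.range n, (l j * cos (φ j) - l j * cos (φ' j)) = 0 := by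
      rw [Finset.sum_sub_distrib, h1, h2, sub_zero]
    have h4 : ∀ j, l j * cos (φ j) - l j * cos (φ' j) = 2 * (l j * sin (ρ j / 2) * sin (ψ j)) := by
      intro j
      rw [hφ1, hφ2, cos_sub, cos_add]
      ring
    rw [Finset.sum_congr rfl fun j _ => h4 j, ← Finset.mul_sum] at h3
    linarith
  -- the index k
  have hk_ex : ∃ j, π < ψ j := ⟨n - 1, by rw [hψN]; linarith⟩
  classical
  obtain ⟨k, hkdef⟩ : ∃ k, k = Nat.find hk_ex := ⟨_, rfl⟩
  have hk1 : π < ψ k := by rw [hkdef]; exact Nat.find_spec hk_ex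
  have hk2 : ∀ j, j < k → ψ j ≤ π := by
    intro j hj
    rw [hkdef] at hj
    exact not_lt.mp (Nat.find_min hk_ex hj)
  have hkn : k < n := by
    have : k ≤ n - 1 := by
      rw [hkdef]
      exact Nat.find_min' hk_ex (by rw [hψN]; linarith)
    omega
  have S3 : ∑ j ∈ Finset.range n, l j * sin ((ρ j - ρ k) / 2) * sin (ψ j) = 0 := by
    have h4 : ∀ j, l j * sin ((ρ j - ρ k) / 2) * sin (ψ j) =
        cos (ρ k / 2) * (l j * sin (ρ j / 2) * sin (ψ j)) -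
          sin (ρ k / 2) * (l j * cos (ρ j / 2) * sin (ψ j)) := by
      intro j
      rw [sub_div, sin_sub]
      ring
    rw [Finset.sum_congr rfl fun j _ => h4 j, Finset.sum_sub_distrib, ← Finset.mul_sum,
      ← Finset.mul_sum, S1, S2]
    ring
  have hnn : ∀ j ∈ Finset.range n, 0 ≤ l j * sin ((ρ j - ρ k) / 2) * sin (ψ j) := by
    intro j hj
    have hj' := Finset.mem_range.mp hj
    have hr1 := hρr j hj'
    have hr2 := hρr k hkn
    have hp := hψr j hj'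
    have hlj := hl j hj'
    rcases lt_or_ge j k with h | h
    · have h1 : ρ k ≤ ρ j := hρm j k h.le hkn
      have h2 : 0 ≤ sin ((ρ j - ρ k) / 2) :=
        sin_nonneg_of_nonneg_of_le_pi (by linarith) (by linarith)
      have h3 : 0 ≤ sin (ψ j) := sin_nonneg_of_nonneg_of_le_pi hp.1 (hk2 j h)
      positivity
    · have h1 : ρ j ≤ ρ k := hρm k j h hj'
      have h2 : sin ((ρ j - ρ k) / 2) ≤ 0 :=
        sin_nonpos_of_nonpos_of_neg_pi_le (by linarith) (by linarith)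
      have h3 : sin (ψ j) ≤ 0 := by
        have h4 : π < ψ j := lt_of_lt_of_le hk1 (hψm k j h hj')
        have h5 : sin (ψ j - 2 * π) ≤ 0 :=
          sin_nonpos_of_nonpos_of_neg_pi_le (by linarith) (by linarith)
        rwa [sin_sub_two_pi] at h5
      have h4 : 0 ≤ -sin ((ρ j - ρ k) / 2) * -sin (ψ j) :=
        mul_nonneg (by linarith) (by linarith)
      have h5 : l j * sin ((ρ j - ρ k) / 2) * sin (ψ j)
          = l j * (-sin ((ρ j - ρ k) / 2) * -sin (ψ j)) := by ring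
      rw [h5]
      exact mul_nonneg hlj.le h4
  have hz := (Finset.sum_eq_zero_iff_of_nonneg hnn).mp S3
  have key : ∀ j, j < n → sin (ψ j) ≠ 0 → ρ j = ρ k := by
    intro j hj hsj
    have h1 := hz j (Finset.mem_range.mpr hj)
    have h2 : sin ((ρ j - ρ k) / 2) = 0 := by
      rcases mul_eq_zero.mp h1 with h | h
      · rcases mul_eq_zero.mp h with h | h
        · exact absurd h (hl j hj).ne'
        · exact h
      · exact absurd h hsj
    have hr1 := hρr j hj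
    have hr2 := hρr k hkn
    have h3 : (ρ j - ρ k) / 2 = 0 := by
      by_contra hne
      rcases lt_or_gt_of_ne hne with h | h
      · have := sin_neg_of_neg_of_neg_pi_lt h (by linarith)
        linarith
      · have := sin_pos_of_pos_of_lt_pi h (by linarith)
        linarith
    linarith
  -- the index j1
  have h1_ex : ∃ j, 0 < ψ j := ⟨n - 1, by rw [hψN]; linarith⟩
  obtain ⟨j1, hj1def⟩ : ∃ j1, j1 = Nat.find h1_ex := ⟨_, rfl⟩
  have hj1a : 0 < ψ j1 := by rw [hj1def]; exact Nat.find_spec h1_ex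
  have hj1b : ∀ j, j < j1 → ψ j ≤ 0 := by
    intro j hj
    rw [hj1def] at hj
    exact not_lt.mp (Nat.find_min h1_ex hj)
  have hj1c : ∀ j, 0 < ψ j → j1 ≤ j := by
    intro j hj
    rw [hj1def]
    exact Nat.find_min' h1_ex hj
  have hj1n : j1 < n := by
    have := hj1c (n - 1) (by rw [hψN]; linarith)
    omega
  have hj1pos : 1 ≤ j1 := by
    rcases Nat.eq_zero_or_pos j1 with h | h
    · rw [h, hψ0] at hj1a
      exact absurd hj1a (lt_irrefl _)
    · exact h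
  obtain ⟨i1, hi1⟩ : ∃ i1, j1 = i1 + 1 := ⟨j1 - 1, by omega⟩
  have hi1a : ψ i1 = 0 := le_antisymm (hj1b i1 (by omega)) (hψr i1 (by omega)).1
  have hst1 := step i1 (by omega)
  rw [← hi1] at hst1
  have hρ1 : ρ j1 = ρ k := by
    refine key j1 hj1n (ne_of_gt ?_)
    exact sin_pos_of_pos_of_lt_pi hj1a (by linarith [hst1.2.1])
  have hρi1 : ρ i1 = ρ k := by
    rcases hst1.2.2.2 with h | h
    · rw [h, hi1a] at hj1a
      exact absurd hj1a (lt_irrefl _)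
    · rw [← h, hρ1]
  -- the index j2
  have h2_ex : ∃ j, 2 * π ≤ ψ j := ⟨n - 1, by rw [hψN]⟩
  obtain ⟨q, hqdef⟩ : ∃ q, q = Nat.find h2_ex := ⟨_, rfl⟩
  have hqa : 2 * π ≤ ψ q := by rw [hqdef]; exact Nat.find_spec h2_ex
  have hqb : ∀ j, j < q → ψ j < 2 * π := by
    intro j hj
    rw [hqdef] at hj
    exact not_le.mp (Nat.find_min h2_ex hj)
  have hqn : q < n := by
    have : q ≤ n - 1 := by
      rw [hqdef]
      exact Nat.find_min' h2_ex (by rw [hψN])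
    omega
  have hqpos : 1 ≤ q := by
    rcases Nat.eq_zero_or_pos q with h | h
    · rw [h, hψ0] at hqa
      linarith
    · exact h
  obtain ⟨j2, hj2⟩ : ∃ j2, q = j2 + 1 := ⟨q - 1, by omega⟩
  have hj2a : ψ j2 < 2 * π := hqb j2 (by omega)
  have hst2 := step j2 (by omega)
  rw [← hj2] at hst2
  have hj2b : 3 * π / 2 ≤ ψ j2 := by linarith [hst2.2.1]
  have hρ2 : ρ j2 = ρ k := by
    refine key j2 (by omega) (ne_of_lt ?_)
    have h5 : sin (ψ j2 - 2 * π) < 0 :=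
      sin_neg_of_neg_of_neg_pi_lt (by linarith) (by linarith)
    rwa [sin_sub_two_pi] at h5
  have hρq : ρ q = ρ k := by
    rcases hst2.2.2.2 with h | h
    · rw [h] at hqa
      linarith
    · rw [h, hρ2]
  have h12 : j1 ≤ j2 := hj1c j2 (by linarith)
  refine ⟨j1, j2, ρ k, hj1pos, h12, by omega, ?_, ?_, ?_⟩
  · intro j ha hb
    rw [← hρ j]
    rcases Nat.lt_or_ge j j1 with h | h
    · have : j = i1 := by omega
      rw [this]; exact hρi1
    · rcases Nat.lt_or_ge j2 j with h' | h'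
      · have : j = q := by omega
        rw [this]; exact hρq
      · have h3 : ρ j ≤ ρ j1 := hρm j1 j h (by omega)
        have h4 : ρ j2 ≤ ρ j := hρm j j2 h' (by omega)
        rw [hρ1] at h3
        rw [hρ2] at h4
        exact le_antisymm h3 h4
  · intro j hj
    have h3 : ψ j = 0 := le_antisymm (hj1b j hj) (hψr j (by omega)).1
    rw [hψ] at h3
    linarith
  · intro j hj hjn
    have h3 : ψ j = 2 * π := le_antisymm (hψr j hjn).2 (le_trans hqa (hψm q j (by omega) hjn))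
    rw [hψ] at h3
    linarith

end Pool.Agent.H57.FC
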