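import Pool.Agent.H57.FC.Trn
import Pool.Agent.H57.FC.Sgn

set_option autoImplicit false

/-! ROW NRM (about 150 lines). From two planar chains to the normal form of the crank motion.

PROOF. Put `τ = trn w (n-1) > 0`, `τ ≤ π/2`.  Edges `e j = z (j+1) - z j`, `e' j = w (j+1) - w j`, `l j = ‖e j‖ = ‖e' j‖`.
Choose `α, α' ∈ ℝ` with `e 0 = l 0 exp (i α)`, `e' 0 = l 0 exp (i α')` (args).  By `edge_lift`: `e j = l j exp (i (α + S j))`,
`S j = ∑ i < j, trn z i`, likewise `S'`.  Put `φ j = S j - τ/2`, `φ' j = S' j + τ/2`; so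
`e j = exp (i (α + τ/2)) * l j exp (i φ j)`, `e' j = exp (i (α' - τ/2)) * l j exp (i φ' j)`.  `closure_sign` applies:
`φ (n-1) = 2π - trn z (n-1) - τ/2 = 2π + τ/2`, `φ' (n-1) = 2π - τ + τ/2`, the closures are `∑ e j = z n - z 0 = 0`.
Get `j1, j2, ρ`.  Put `u = exp (-i (α + τ/2)) exp (i ρ/2)`, `u' = exp (-i (α' - τ/2)) exp (-i ρ/2)`, `v = - u z (j1)`,
`v' = - u' w (j1)`; `Z i = u z i + v`, `W i = u' w i + v'` for `i ∈ ℕ` (both n-periodic).  Then
`Z (j+1) - Z j = l j exp (i (φ j + ρ/2))`, `W (j+1) - W j = l j exp (i (φ' j - ρ/2))`, which for `j1 - 1 ≤ j ≤ j2 + 1` are EQUAL,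
and for `j < j1` or `j2 < j < n` are complex CONJUGATE (`φ' j - ρ/2 = -(φ j + ρ/2)` mod 2π).
`Z j1 = W j1 = 0`.  So `W i = Z i` for `j1 - 1 ≤ i ≤ j2 + 2` (sum up from j1, and one step down).
`W i = conj (Z i)` for `i ≤ j1` (down from j1), in particular `W 0 = conj (Z 0)`, so `W n = conj (Z n)`, and
`W i = conj (Z i)` for `j2 + 1 ≤ i ≤ n` (down from n).  Periodicity: also for `n ≤ i ≤ n + j1`.
Take `s = j1`, `m = j2 + 1 - j1` (so `1 ≤ m`, `m + 1 < n`, `m + j1 = j2 + 1`).  The last claim is `W (j1 - 1 + n) = Z (j1 - 1 + n)`. -/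

namespace Pool.Agent.H57.FC

open Real

theorem NRM_closure {n : ℕ} {z : ℕ → ℂ} (hper : z n = z 0) {l φ : ℕ → ℝ} (β : ℝ)
    (hz : ∀ j, z (j + 1) - z j = (l j : ℂ) * Complex.exp (((β + φ j : ℝ) : ℂ) * Complex.I)) :
    ∑ j ∈ Finset.range n, (l j : ℂ) * Complex.exp ((φ j : ℂ) * Complex.I) = 0 := by
  have h1 : ∑ j ∈ Finset.range n, (z (j + 1) - z j) = 0 := by
    rw [Finset.sum_range_sub, hper, sub_self]
  have h2 : ∀ j, z (j + 1) - z j = Complex.exp ((β : ℂ) * Complex.I) *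
      ((l j : ℂ) * Complex.exp ((φ j : ℂ) * Complex.I)) := by
    intro j
    rw [hz j]
    have : (((β + φ j : ℝ) : ℂ) * Complex.I) = (β : ℂ) * Complex.I + (φ j : ℂ) * Complex.I := by
      push_cast; ring
    rw [this, Complex.exp_add]
    ring
  rw [Finset.sum_congr rfl fun j _ => h2 j, ← Finset.mul_sum] at h1
  exact (mul_eq_zero.1 h1).resolve_left (Complex.exp_ne_zero _)

theorem NRM_rot {z : ℕ → ℂ} {l : ℕ → ℝ} {S : ℝ} {β γ : ℝ} {j : ℕ}
    (hz : z (j + 1) - z j = (l j : ℂ) * Complex.exp (((β + S : ℝ) : ℂ) * Complex.I)) :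
    Complex.exp (((γ - β : ℝ) : ℂ) * Complex.I) * (z (j + 1) - z j) =
      (l j : ℂ) * Complex.exp (((S + γ : ℝ) : ℂ) * Complex.I) := by
  rw [hz]
  have : (((S + γ : ℝ) : ℂ) * Complex.I) = ((γ - β : ℝ) : ℂ) * Complex.I +
      ((β + S : ℝ) : ℂ) * Complex.I := by
    push_cast; ring
  rw [this, Complex.exp_add]
  ring

theorem NRM_conj (l x : ℝ) : (starRingEnd ℂ) ((l : ℂ) * Complex.exp ((x : ℂ) * Complex.I)) =
    (l : ℂ) * Complex.exp (((-x : ℝ) : ℂ) * Complex.I) := by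
  rw [map_mul, Complex.conj_ofReal, ← Complex.exp_conj, map_mul, Complex.conj_ofReal,
    Complex.conj_I]
  congr 2
  push_cast; ring

theorem NRM_exp_shift (x : ℝ) : Complex.exp (((4 * π - x : ℝ) : ℂ) * Complex.I) =
    Complex.exp (((-x : ℝ) : ℂ) * Complex.I) := by
  have : (((4 * π - x : ℝ) : ℂ) * Complex.I) = ((-x : ℝ) : ℂ) * Complex.I +
      ((2 : ℤ) : ℂ) * (2 * (π : ℂ) * Complex.I) := by
    push_cast; ring
  rw [this, Complex.exp_periodic.int_mul (2 : ℤ)]

/-- the combinatorial part: equal steps in the middle, conjugate steps outside -/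
theorem NRM_steps {n j1 j2 : ℕ} (h1 : 1 ≤ j1) (h12 : j1 ≤ j2) (h2 : j2 + 1 < n) {Z W : ℕ → ℂ}
    (pZ : ∀ i, Z (i + n) = Z i) (pW : ∀ i, W (i + n) = W i) (hZ : Z j1 = 0) (hW : W j1 = 0)
    (he : ∀ j, j1 ≤ j + 1 → j ≤ j2 + 1 → W (j + 1) - W j = Z (j + 1) - Z j)
    (hc : ∀ j, j < j1 → W (j + 1) - W j = (starRingEnd ℂ) (Z (j + 1) - Z j))
    (hc' : ∀ j, j2 < j → j < n → W (j + 1) - W j = (starRingEnd ℂ) (Z (j + 1) - Z j)) :
    (∀ i, j1 ≤ i → i ≤ j2 + 2 → W i = Z i) ∧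
      (∀ i, j2 + 1 ≤ i → i ≤ n + j1 → W i = (starRingEnd ℂ) (Z i)) ∧ W (j1 - 1) = Z (j1 - 1) := by
  have up : ∀ k, j1 + k ≤ j2 + 2 → W (j1 + k) = Z (j1 + k) := by
    intro k
    induction k with
    | zero => intro _; rw [Nat.add_zero, hZ, hW]
    | succ k ih =>
      intro hk
      have h3 := ih (by omega)
      have h4 := he (j1 + k) (by omega) (by omega)
      rw [h3] at h4
      have h5 := sub_left_injective h4
      exact h5
  have down : ∀ k, k ≤ j1 → W (j1 - k) = (starRingEnd ℂ) (Z (j1 - k)) := by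
    intro k
    induction k with
    | zero => intro _; rw [Nat.sub_zero, hZ, hW, map_zero]
    | succ k ih =>
      intro hk
      have h3 := ih (by omega)
      have h4 := hc (j1 - (k + 1)) (by omega)
      have h5 : j1 - (k + 1) + 1 = j1 - k := by omega
      rw [h5, h3, map_sub] at h4
      exact sub_right_injective h4
  have hlow : ∀ i, i ≤ j1 → W i = (starRingEnd ℂ) (Z i) := by
    intro i hi
    have := down (j1 - i) (by omega)
    have h5 : j1 - (j1 - i) = i := by omega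
    rwa [h5] at this
  have hn : W n = (starRingEnd ℂ) (Z n) := by
    have e1 := pZ 0
    have e2 := pW 0
    rw [Nat.zero_add] at e1 e2
    rw [e1, e2]
    exact hlow 0 (by omega)
  have down2 : ∀ k, j2 + 1 + k ≤ n → W (n - k) = (starRingEnd ℂ) (Z (n - k)) := by
    intro k
    induction k with
    | zero => intro _; simpa using hn
    | succ k ih =>
      intro hk
      have h3 := ih (by omega)
      have h4 := hc' (n - (k + 1)) (by omega) (by omega)
      have h5 : n - (k + 1) + 1 = n - k := by omega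
      rw [h5, h3, map_sub] at h4
      exact sub_right_injective h4
  refine ⟨?_, ?_, ?_⟩
  · intro i hi hi2
    have := up (i - j1) (by omega)
    have h5 : j1 + (i - j1) = i := by omega
    rwa [h5] at this
  · intro i hi hi2
    rcases le_or_gt i n with h | h
    · have := down2 (n - i) (by omega)
      have h5 : n - (n - i) = i := by omega
      rwa [h5] at this
    · have h5 : i - n + n = i := by omega
      have := hlow (i - n) (by omega)
      rw [← pZ (i - n), ← pW (i - n), h5] at this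
      exact this
  · have h4 := he (j1 - 1) (by omega) (by omega)
    have h5 : j1 - 1 + 1 = j1 := by omega
    rw [h5, hZ, hW, zero_sub, zero_sub] at h4
    exact neg_injective h4

theorem bump_case {n : ℕ} (hn : 3 ≤ n) {z w : ℕ → ℂ} (hz : Adm n z) (hw : Adm n w) (he : Eqv z w)
    (tz : ∑ i ∈ Finset.range n, trn z i = 2 * π) (tw : ∑ i ∈ Finset.range n, trn w i = 2 * π)
    (hs : ∀ i, i + 1 < n → 0 ≤ trn z i) (ha : trn z (n - 1) < 0) (ha' : trn w (n - 1) = -trn z (n - 1)) :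
    ∃ (s m : ℕ) (u v u' v' : ℂ), ‖u‖ = 1 ∧ ‖u'‖ = 1 ∧ 1 ≤ m ∧ m + 1 < n ∧
      (∀ i, i ≤ m + 1 → u' * w (i + s) + v' = u * z (i + s) + v) ∧
      (∀ i, m ≤ i → i ≤ n → u' * w (i + s) + v' = (starRingEnd ℂ) (u * z (i + s) + v)) ∧
      u' * w (n - 1 + s) + v' = u * z (n - 1 + s) + v := by
  obtain ⟨τ, hτdef⟩ : ∃ τ, τ = trn w (n - 1) := ⟨_, rfl⟩
  have hza : trn z (n - 1) = -τ := by linarith
  have hτ : 0 < τ := by linarith
  have hτ2 : τ ≤ π / 2 := by rw [hτdef]; exact (le_abs_self _).trans (abs_trn_le hw _)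
  obtain ⟨α, hα⟩ : ∃ α, α = Complex.arg (z 1 - z 0) := ⟨_, rfl⟩
  obtain ⟨α', hα'⟩ : ∃ α, α = Complex.arg (w 1 - w 0) := ⟨_, rfl⟩
  obtain ⟨l, hl⟩ : ∃ l : ℕ → ℝ, l = fun j => ‖z (j + 1) - z j‖ := ⟨_, rfl⟩
  obtain ⟨φ, hφ⟩ : ∃ φ : ℕ → ℝ, φ = fun j => ∑ i ∈ Finset.range j, trn z i - τ / 2 := ⟨_, rfl⟩
  obtain ⟨φ', hφ'⟩ : ∃ φ : ℕ → ℝ, φ = fun j => ∑ i ∈ Finset.range j, trn w i + τ / 2 := ⟨_, rfl⟩
  have ez : ∀ j, z (j + 1) - z j =
      (l j : ℂ) * Complex.exp ((((α + τ / 2) + φ j : ℝ) : ℂ) * Complex.I) := by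
    intro j
    have h0 : z 1 - z 0 = (‖z 1 - z 0‖ : ℂ) * Complex.exp (α * Complex.I) := by
      rw [hα, Complex.norm_mul_exp_arg_mul_I]
    have := edge_lift hz α h0 j
    rw [this, hl, hφ]
    simp only
    congr 3
    congr 1
    ring
  have ew : ∀ j, w (j + 1) - w j =
      (l j : ℂ) * Complex.exp ((((α' - τ / 2) + φ' j : ℝ) : ℂ) * Complex.I) := by
    intro j
    have h0 : w 1 - w 0 = (‖w 1 - w 0‖ : ℂ) * Complex.exp (α' * Complex.I) := by
      rw [hα', Complex.norm_mul_exp_arg_mul_I]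
    have := edge_lift hw α' h0 j
    have hlen : ‖w (j + 1) - w j‖ = l j := by
      have h1 := (he j).1
      rw [dist_comm (z j), dist_comm (w j), dist_eq_norm, dist_eq_norm] at h1
      rw [hl, ← h1]
    rw [this, hlen, hφ']
    simp only
    congr 3
    congr 1
    ring
  have hzn : z n = z 0 := by simpa using hz.per 0
  have hwn : w n = w 0 := by simpa using hw.per 0
  have c := NRM_closure hzn (α + τ / 2) ez
  have c' := NRM_closure hwn (α' - τ / 2) ew
  have hlpos : ∀ j, j < n → 0 < l j := by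
    intro j _
    rw [hl]
    exact norm_pos_iff.2 (sub_ne_zero.2 (hz.ne j))
  have hstep : ∀ j, φ (j + 1) - φ j = trn z j := by
    intro j
    simp only [hφ, Finset.sum_range_succ]
    ring
  have hstep' : ∀ j, φ' (j + 1) - φ' j = trn w j := by
    intro j
    simp only [hφ', Finset.sum_range_succ]
    ring
  have hsn : n - 1 + 1 = n := by omega
  have hN : φ (n - 1) = 2 * π + τ / 2 := by
    have h1 := Finset.sum_range_succ (fun i => trn z i) (n - 1)
    rw [hsn, tz, hza] at h1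
    simp only [hφ]
    linarith
  have hN' : φ' (n - 1) = 2 * π - τ / 2 := by
    have h1 := Finset.sum_range_succ (fun i => trn w i) (n - 1)
    rw [hsn, tw, ← hτdef] at h1
    simp only [hφ']
    linarith
  obtain ⟨j1, j2, ρ, h1, h12, h2, hA, hB, hC⟩ := closure_sign hn hlpos hτ hτ2
    (by simp [hφ]) (by simp [hφ']) (by
      intro j hj
      rw [hstep, hstep']
      refine ⟨hs j hj, (le_abs_self _).trans (abs_trn_le hz j), ?_⟩
      rw [← trn_eqv hz hw he j, abs_of_nonneg (hs j hj)]) hN hN' c c'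
  obtain ⟨u, hu⟩ : ∃ u : ℂ, u = Complex.exp (((ρ / 2 - (α + τ / 2) : ℝ) : ℂ) * Complex.I) :=
    ⟨_, rfl⟩
  obtain ⟨u', hu'⟩ : ∃ u : ℂ, u = Complex.exp (((-(ρ / 2) - (α' - τ / 2) : ℝ) : ℂ) * Complex.I) :=
    ⟨_, rfl⟩
  have hZs : ∀ j, u * (z (j + 1) - z j) =
      (l j : ℂ) * Complex.exp (((φ j + ρ / 2 : ℝ) : ℂ) * Complex.I) := by
    intro j
    rw [hu]
    exact NRM_rot (ez j)
  have hWs : ∀ j, u' * (w (j + 1) - w j) =
      (l j : ℂ) * Complex.exp (((φ' j + -(ρ / 2) : ℝ) : ℂ) * Complex.I) := by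
    intro j
    rw [hu']
    exact NRM_rot (ew j)
  have hd : ∀ (a b : ℂ) (x y : ℂ), (a * x + b) - (a * y + b) = a * (x - y) := by
    intro a b x y; ring
  obtain ⟨r1, r2, r3⟩ := NRM_steps (n := n) h1 h12 h2
    (Z := fun i => u * z i + -(u * z j1)) (W := fun i => u' * w i + -(u' * w j1))
    (fun i => by simp only [hz.per i]) (fun i => by simp only [hw.per i])
    (by ring) (by ring)
    (by
      intro j hj hj2
      simp only [hd]
      rw [hZs, hWs]
      have h3 := hA j hj hj2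
      have h4 : φ' j + -(ρ / 2) = φ j + ρ / 2 := by linarith
      rw [h4])
    (by
      intro j hj
      simp only [hd]
      rw [hZs, hWs, NRM_conj]
      have h3 := hB j hj
      have h4 : φ' j + -(ρ / 2) = -(φ j + ρ / 2) := by linarith
      rw [h4])
    (by
      intro j hj hj2
      simp only [hd]
      rw [hZs, hWs, NRM_conj, ← NRM_exp_shift]
      have h3 := hC j hj hj2
      have h4 : φ' j + -(ρ / 2) = 4 * π - (φ j + ρ / 2) := by linarith
      rw [h4])
  refine ⟨j1, j2 + 1 - j1, u, -(u * z j1), u', -(u' * w j1), ?_, ?_, by omega, by omega,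
    ?_, ?_, ?_⟩
  · rw [hu]; exact Complex.norm_exp_ofReal_mul_I _
  · rw [hu']; exact Complex.norm_exp_ofReal_mul_I _
  · intro i hi
    exact r1 (i + j1) (by omega) (by omega)
  · intro i hi hi2
    exact r2 (i + j1) (by omega) (by omega)
  · have h5 : n - 1 + j1 = j1 - 1 + n := by omega
    rw [h5, hz.per, hw.per]
    exact r3

end Pool.Agent.H57.FC
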