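import Pool.Agent.H57.FC.Umz

set_option autoImplicit false

/-! ROW UML (about 60 lines). Umlaufsatz, general position of the lowest vertex.

PROOF. Choose `s < n` with `z s` lexicographically minimal for (im, re) among `z 0, ..., z (n-1)`
(`Finset.exists_min_image` with the key `toLex (im, re)`, or twice).  Put `z' i = z (i + s)`, `Adm.shift`.  For `0 < j < n`,
`z' j ≠ z' 0` by `Adm.inj`, and `z' j` is some `z k`, `k < n` (reduce mod n), so either `im (z' j - z' 0) > 0`, or `im = 0` and
`re > 0`: in both cases the argument is in `[0, π)` (`Complex.arg_nonneg_iff`, `Complex.arg_lt_pi_iff`).  Apply `umlauf_low` and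
`sum_trn_shift`. -/

namespace Pool.Agent.H57.FC

open Real

theorem umlauf {n : ℕ} (hn : 3 ≤ n) {z : ℕ → ℂ} (hz : Adm n z) :
    ∑ i ∈ Finset.range n, trn z i = 2 * π ∨ ∑ i ∈ Finset.range n, trn z i = -(2 * π) := by
  obtain ⟨s, hs, hmin⟩ := Finset.exists_min_image (Finset.range n)
    (fun i => (toLex ((z i).im, (z i).re) : ℝ ×ₗ ℝ)) ⟨0, Finset.mem_range.2 (by omega)⟩
  rw [← sum_trn_shift hz s]
  refine umlauf_low hn (hz.shift s) ?_
  intro j hj0 hjn
  have hne : z (j + s) ≠ z (0 + s) := by
    rw [zero_add]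
    exact (hz.inj (i := s) (j := j + s) (by omega) (by omega)).symm
  have hk : z (j + s) = z ((j + s) % n) := by
    have h := per_mul hz.per ((j + s) % n) ((j + s) / n)
    rw [mul_comm, Nat.mod_add_div] at h
    exact h
  have hm := hmin ((j + s) % n) (Finset.mem_range.2 (Nat.mod_lt _ (by omega)))
  rw [Prod.Lex.le_iff] at hm
  simp only [ofLex_toLex] at hm
  rw [← hk] at hm
  have e : z (0 + s) = z s := by rw [zero_add]
  refine ⟨hne, ?_, ?_⟩
  · rw [Complex.arg_nonneg_iff, Complex.sub_im, e]
    rcases hm with h | ⟨h, _⟩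
    · linarith
    · linarith
  · rw [Complex.arg_lt_pi_iff, Complex.sub_im, Complex.sub_re, e]
    rcases hm with h | ⟨h, h'⟩
    · right
      intro h0
      linarith
    · left
      linarith

end Pool.Agent.H57.FC
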