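import Pool.Agent.H57.FC.Cgr
import Pool.Agent.H57.FC.Nrm
import Pool.Agent.H57.FC.Bmp
import Pool.Agent.H57.FC.Cnt
import Pool.Agent.H57.FC.Uml
import Pool.Agent.H57.FC.Flt

set_option autoImplicit false

namespace Pool.Agent.H57.FC

open Real

theorem Eqv.symm' {V W : Type*} [NormedAddCommGroup V] [NormedAddCommGroup W] {x : ℕ → V} {y : ℕ → W}
    (h : Eqv x y) : Eqv y x := fun i => ⟨(h i).1.symm, (h i).2.symm⟩

theorem Eqv.trans' {U V W : Type*} [NormedAddCommGroup U] [NormedAddCommGroup V] [NormedAddCommGroup W]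
    {x : ℕ → U} {y : ℕ → V} {z : ℕ → W} (h : Eqv x y) (h' : Eqv y z) : Eqv x z :=
  fun i => ⟨(h i).1.trans (h' i).1, (h i).2.trans (h' i).2⟩

theorem Eqv.of_dist {V W : Type*} [NormedAddCommGroup V] [NormedAddCommGroup W] {x : ℕ → V} {y : ℕ → W}
    (h : ∀ i j, dist (x i) (x j) = dist (y i) (y j)) : Eqv x y := fun i => ⟨h _ _, h _ _⟩

theorem trn_shift (z : ℕ → ℂ) (s i : ℕ) : trn (fun k => z (k + s)) i = trn z (i + s) := by
  unfold trn
  have h1 : i + s + 2 = i + 2 + s := by ring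
  have h2 : i + s + 1 = i + 1 + s := by ring
  simp only [h1, h2]

theorem Adm.plane {n : ℕ} {z : ℕ → ℂ} (hz : Adm n z) (u v : ℂ) (hu : ‖u‖ = 1) :
    Adm n (fun i => u * z i + v) := by
  let L : ℂ →ₗᵢ[ℝ] ℂ :=
    { toLinearMap := (LinearMap.mulLeft ℝ u)
      norm_map' := by intro x; simp [hu] }
  have := hz.map L v
  simpa [L] using this

theorem planar_case {n : ℕ} (hn : 3 ≤ n) {z w : ℕ → ℂ} (hz : Adm n z) (hw : Adm n w) (he : Eqv z w)
    (tz : ∑ i ∈ Finset.range n, trn z i = 2 * π) (tw : ∑ i ∈ Finset.range n, trn w i = 2 * π)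
    (a : ℕ) (ha : a < n) (h : ∀ i, i < n → i ≠ a → 0 ≤ trn z i) :
    Conn n (fun i => J (z i)) (fun i => J (w i)) := by
  rcases cases_one (σ := trn z) (σ' := trn w) ha (fun i _ => (trn_eqv hz hw he i).symm) tz tw h with
    h1 | ⟨h1, h2⟩
  · obtain ⟨u, v, hu, hv⟩ := congruent hn hz hw he h1
    have hw' : w = fun i => u * z i + v := funext hv
    rw [hw']
    exact conn_plane hz u v hu
  · have hz' := hz.shift (a + 1)
    have hw' := hw.shift (a + 1)
    have he' : Eqv (fun i => z (i + (a + 1))) (fun i => w (i + (a + 1))) := by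
      intro i
      have := he (i + (a + 1))
      have h1 : i + (a + 1) + 1 = i + 1 + (a + 1) := by ring
      have h2 : i + (a + 1) + 2 = i + 2 + (a + 1) := by ring
      rw [h1, h2] at this
      exact this
    have tz' := (sum_trn_shift hz (a + 1)).trans tz
    have tw' := (sum_trn_shift hw (a + 1)).trans tw
    have hlast : ∀ x : ℕ → ℂ, Adm n x → trn (fun i => x (i + (a + 1))) (n - 1) = trn x a := by
      intro x hx
      rw [trn_shift]
      have : n - 1 + (a + 1) = a + n := by omega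
      rw [this, trn_per hx]
    have hs : ∀ i, i + 1 < n → 0 ≤ trn (fun i => z (i + (a + 1))) i := by
      intro i hi
      rw [trn_shift]
      by_cases hc : i + (a + 1) < n
      · exact h _ hc (by omega)
      · have : i + (a + 1) = (i + (a + 1) - n) + n := by omega
        rw [this, trn_per hz]
        exact h _ (by omega) (by omega)
    obtain ⟨s, m, u, v, u', v', hu, hu', hm, hmn, k1, k2, k3⟩ :=
      bump_case hn hz' hw' he' tz' tw' hs (by rw [hlast z hz]; exact h1)
        (by rw [hlast z hz, hlast w hw]; exact h2)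
    have hz2 := (hz'.shift s).plane u v hu
    have hw2 := (hw'.shift s).plane u' v' hu'
    have c0 := bump_motion hm hmn hz2 hw2 k1 k2 k3
    have c1 := conn_plane (hz'.shift s) u v hu
    have c2 := conn_plane (hw'.shift s) u' v' hu'
    have c3 := (c1.trans c0).trans c2.symm
    have p1 : ∀ x : ℕ → ℂ, Adm n x → ∀ i, J (x (i + n)) = J (x i) := fun x hx i => by rw [hx.per]
    have c4 : Conn n (fun i => J (z (i + (a + 1)))) (fun i => J (w (i + (a + 1)))) :=
      Conn.of_shift (by omega) s (p1 _ hz') (p1 _ hw') c3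
    exact Conn.of_shift (by omega) (a + 1) (p1 _ hz) (p1 _ hw) c4

theorem planar_signs {n : ℕ} (hn : 3 ≤ n) {z w : ℕ → ℂ} (hz : Adm n z) (hw : Adm n w) (he : Eqv z w)
    (tz : ∑ i ∈ Finset.range n, trn z i = 2 * π) (tw : ∑ i ∈ Finset.range n, trn w i = 2 * π)
    (h : (∀ i, i < n → trn z i = trn w i) ∨ (∃ a, a < n ∧ ∀ i, i < n → i ≠ a → 0 ≤ trn z i) ∨
      (∃ a, a < n ∧ ∀ i, i < n → i ≠ a → 0 ≤ trn w i)) :
    Conn n (fun i => J (z i)) (fun i => J (w i)) := by
  rcases h with h | ⟨a, ha, h⟩ | ⟨a, ha, h⟩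
  · obtain ⟨u, v, hu, hv⟩ := congruent hn hz hw he h
    have hw' : w = fun i => u * z i + v := funext hv
    rw [hw']
    exact conn_plane hz u v hu
  · exact planar_case hn hz hw he tz tw a ha h
  · exact (planar_case hn hw hz he.symm' tw tz a ha h).symm

theorem two_inner {V : Type*} [NormedAddCommGroup V] [InnerProductSpace ℝ V] (a b c d : V) :
    2 * inner ℝ (b - a) (d - c) = dist b c ^ 2 + dist a d ^ 2 - dist a c ^ 2 - dist b d ^ 2 := by
  simp only [dist_eq_norm]
  rw [← real_inner_self_eq_norm_sq, ← real_inner_self_eq_norm_sq, ← real_inner_self_eq_norm_sq,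
    ← real_inner_self_eq_norm_sq]
  simp only [inner_sub_left, inner_sub_right]
  rw [real_inner_comm b c, real_inner_comm a d, real_inner_comm a c, real_inner_comm b d]
  ring

theorem inner_of_dist {V W : Type*} [NormedAddCommGroup V] [InnerProductSpace ℝ V]
    [NormedAddCommGroup W] [InnerProductSpace ℝ W] {x : ℕ → V} {y : ℕ → W}
    (h : ∀ i j, dist (x i) (x j) = dist (y i) (y j)) (a b c d : ℕ) :
    inner ℝ (x b - x a) (x d - x c) = inner ℝ (y b - y a) (y d - y c) := by
  have h1 := two_inner (x a) (x b) (x c) (x d)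
  have h2 := two_inner (y a) (y b) (y c) (y d)
  rw [h, h, h, h] at h1
  linarith

/-- product of the turning directions at the vertices `i + 1` and `j + 1` -/
noncomputable def crs {V : Type*} [NormedAddCommGroup V] [InnerProductSpace ℝ V] (x : ℕ → V) (i j : ℕ) : ℝ :=
  inner ℝ (x (i + 1) - x i) (x (j + 1) - x j) * inner ℝ (x (i + 2) - x (i + 1)) (x (j + 2) - x (j + 1)) -
    inner ℝ (x (i + 1) - x i) (x (j + 2) - x (j + 1)) * inner ℝ (x (i + 2) - x (i + 1)) (x (j + 1) - x j)

theorem crs_complex (z : ℕ → ℂ) (i j : ℕ) : crs z i j =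
    ((starRingEnd ℂ) (z (i + 1) - z i) * (z (i + 2) - z (i + 1))).im *
    ((starRingEnd ℂ) (z (j + 1) - z j) * (z (j + 2) - z (j + 1))).im := by
  unfold crs
  simp only [Complex.inner, Complex.mul_re, Complex.mul_im, Complex.conj_re, Complex.conj_im,
    Complex.sub_re, Complex.sub_im]
  ring

theorem exists_planar {n : ℕ} (hn : 3 ≤ n) {x : ℕ → E3} (hx : Adm n x)
    (fx : ∃ ν : E3, ν ≠ 0 ∧ ∀ i, inner ℝ ν (x i - x 0) = 0) :
    ∃ z : ℕ → ℂ, Adm n z ∧ Conn n x (fun i => J (z i)) ∧ (∀ i j, dist (z i) (z j) = dist (x i) (x j)) ∧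
      ∑ i ∈ Finset.range n, trn z i = 2 * π := by
  obtain ⟨ν, hν, hp⟩ := fx
  obtain ⟨z, hz, hc, hd⟩ := flatten hx ν hν hp
  rcases umlauf hn hz with h | h
  · exact ⟨z, hz, hc, hd, h⟩
  · refine ⟨fun i => (starRingEnd ℂ) (z i), ?_, hc.trans (conn_conj hz), ?_, ?_⟩
    · have := hz.map (Complex.conjLIE.toLinearIsometry) 0
      simpa using this
    · intro i j
      rw [← hd i j]
      simp only [dist_eq_norm, ← map_sub]
      exact Complex.norm_conj _
    · have : ∀ i ∈ Finset.range n, trn (fun k => (starRingEnd ℂ) (z k)) i = -trn z i :=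
        fun i _ => trn_conj hz i
      rw [Finset.sum_congr rfl this, Finset.sum_neg_distrib, h, neg_neg]

theorem reflex_signs {n : ℕ} {z : ℕ → ℂ} (hz : Adm n z)
    (tz : ∑ i ∈ Finset.range n, trn z i = 2 * π) {k : ℕ} (hk : k < n)
    (h : ∀ i j, i < n → j < n → i ≠ k → j ≠ k → 0 ≤ crs z i j) :
    ∀ i, i < n → i ≠ k → 0 ≤ trn z i := by
  intro i hi hik
  rw [trn_nonneg_iff hz]
  by_contra hneg
  push Not at hneg
  have hall : ∀ j, j < n → j ≠ k → trn z j ≤ 0 := by
    intro j hj hjk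
    have h1 := h i j hi hj hik hjk
    rw [crs_complex] at h1
    have h2 : ((starRingEnd ℂ) (z (j + 1) - z j) * (z (j + 2) - z (j + 1))).im ≤ 0 := by
      by_contra hc
      push Not at hc
      have := mul_neg_of_neg_of_pos hneg hc
      linarith
    have hz' : Adm n (fun i => (starRingEnd ℂ) (z i)) := by
      have := hz.map (Complex.conjLIE.toLinearIsometry) 0
      simpa using this
    have h3 := (trn_nonneg_iff hz' j).2 (by
      simp only [Complex.mul_im, Complex.conj_re, Complex.conj_im, Complex.sub_re, Complex.sub_im] at h2 ⊢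
      linarith)
    rw [trn_conj hz] at h3
    linarith
  have hsum : ∑ j ∈ Finset.range n, trn z j ≤ π / 2 := by
    rw [← Finset.add_sum_erase _ _ (Finset.mem_range.2 hk)]
    have h1 : ∑ j ∈ (Finset.range n).erase k, trn z j ≤ 0 := by
      apply Finset.sum_nonpos
      intro j hj
      rw [Finset.mem_erase, Finset.mem_range] at hj
      exact hall j hj.2 hj.1
    have h2 := (abs_le.1 (abs_trn_le hz k)).2
    linarith
  rw [tz] at hsum
  linarith [Real.pi_pos]

theorem main_nat {n : ℕ} (hn : 3 ≤ n) {x y : ℕ → E3} (hx : Adm n x) (hy : Adm n y) (he : Eqv x y)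
    (fx : ∃ ν : E3, ν ≠ 0 ∧ ∀ i, inner ℝ ν (x i - x 0) = 0)
    (fy : ∃ ν : E3, ν ≠ 0 ∧ ∀ i, inner ℝ ν (y i - y 0) = 0)
    (h : n ≤ 7 ∨ ∃ k, k < n ∧ ∀ i j, i < n → j < n → i ≠ k → j ≠ k → 0 ≤ crs x i j) :
    Conn n x y := by
  obtain ⟨z, hz, cz, dz, tz⟩ := exists_planar hn hx fx
  obtain ⟨w, hw, cw, dw, tw⟩ := exists_planar hn hy fy
  have ezw : Eqv z w := ((Eqv.of_dist dz).trans' he).trans' (Eqv.of_dist dw).symm'
  refine (cz.trans (planar_signs hn hz hw ezw tz tw ?_)).trans cw.symm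
  rcases h with h | ⟨k, hk, h⟩
  · exact count7 h (fun i _ => abs_trn_le hz i) (fun i _ => (trn_eqv hz hw ezw i).symm) tz tw
  · right; left
    refine ⟨k, hk, reflex_signs hz tz hk ?_⟩
    intro i j hi hj hik hjk
    have := h i j hi hj hik hjk
    have e : crs z i j = crs x i j := by
      unfold crs
      rw [inner_of_dist dz, inner_of_dist dz, inner_of_dist dz, inner_of_dist dz]
    rw [e]; exact this

end Pool.Agent.H57.FC
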