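import Pool.Agent.H57.FC.Defs

set_option autoImplicit false

/-!
Turns and possible sets of reflex vertices of a closed fixed-angle chain.
-/

namespace Pool.Agent.H57.FC

open Real

/-- the turn `π - θ` of a closed chain at the vertex `v`, where `θ` is the joint angle (0: the vertex is straight) -/
noncomputable def turn {n : ℕ} (x : Fin n → EuclideanSpace ℝ (Fin 3)) (v : Fin n) : ℝ := π - jointAngle x v

/-- `R` is a possible set of reflex vertices for the turns `τ v`: its vertices are not straight and its total turn is half the excess
of the total turn of the chain over `2 π` (by the Umlaufsatz the set of the reflex vertices of a flat state has this property). -/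
def PossibleReflex {n : ℕ} (τ : Fin n → ℝ) (R : Finset (Fin n)) : Prop :=
  (∀ v ∈ R, τ v ≠ 0) ∧ 2 * ∑ v ∈ R, τ v = ∑ v, τ v - 2 * π

/-- any two different possible sets of reflex vertices differ by the exchange of one vertex for another, or one of them has only
one element -/
def ExchangeCondition {n : ℕ} (τ : Fin n → ℝ) : Prop :=
  ∀ R R' : Finset (Fin n), PossibleReflex τ R → PossibleReflex τ R' → R ≠ R' →
    ((R \ R').card = 1 ∧ (R' \ R).card = 1) ∨ R.card = 1 ∨ R'.card = 1

end Pool.Agent.H57.FC
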