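import Pool.Agent.H57.FC.Two
import Pool.Agent.H57.FC.Fin
import Pool.Agent.H57.FC.RDefs

set_option autoImplicit false

/-! PossibleReflex sets of reflex vertices (angles only) and the exchange condition. -/

namespace Pool.Agent.H57.FC

open Real

theorem possible_neg {n : ℕ} {σ : Fin n → ℝ} (s : ∑ i, σ i = 2 * π) :
    PossibleReflex (fun i => |σ i|) (Finset.univ.filter fun i => σ i < 0) := by
  constructor
  · intro v hv
    exact abs_ne_zero.2 (Finset.mem_filter.1 hv).2.ne
  · rw [← s, ← Finset.sum_sub_distrib, Finset.sum_filter, Finset.mul_sum]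
    refine Finset.sum_congr rfl fun i _ => ?_
    split_ifs with h
    · rw [abs_of_neg h]
      ring
    · rw [abs_of_nonneg (not_lt.1 h)]
      ring

theorem planar_rel {n : ℕ} (hn : 3 ≤ n) {z w : ℕ → ℂ} (hz : Adm n z) (hw : Adm n w) (he : Eqv z w)
    (tz : ∑ i ∈ Finset.range n, trn z i = 2 * π) (tw : ∑ i ∈ Finset.range n, trn w i = 2 * π)
    (hc : ExchangeCondition (fun i : Fin n => |trn z i|)) :
    Conn n (fun i => J (z i)) (fun i => J (w i)) := by
  have habs : ∀ i, |trn w i| = |trn z i| := fun i => (trn_eqv hz hw he i).symm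
  have habs' : ∀ i, trn w i = trn z i ∨ trn w i = -trn z i := fun i => abs_eq_abs.1 (habs i)
  have tz' : ∑ i : Fin n, trn z i = 2 * π := by rw [← tz, Finset.sum_range]
  have tw' : ∑ i : Fin n, trn w i = 2 * π := by rw [← tw, Finset.sum_range]
  have p1 := possible_neg tz'
  have p2 := possible_neg tw'
  simp only [habs] at p2
  obtain ⟨R, hR⟩ : ∃ R : Finset (Fin n), R = Finset.univ.filter fun i : Fin n => trn z i < 0 := ⟨_, rfl⟩
  obtain ⟨R', hR'⟩ : ∃ R : Finset (Fin n), R = Finset.univ.filter fun i : Fin n => trn w i < 0 := ⟨_, rfl⟩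
  rw [← hR] at p1
  rw [← hR'] at p2
  have mR : ∀ i : Fin n, i ∈ R ↔ trn z i < 0 := fun i => by rw [hR]; simp
  have mR' : ∀ i : Fin n, i ∈ R' ↔ trn w i < 0 := fun i => by rw [hR']; simp
  have same : ∀ i : Fin n, (i ∈ R ↔ i ∈ R') → trn w i = trn z i := by
    intro i hi
    rw [mR, mR'] at hi
    rcases habs' i with h | h
    · exact h
    · by_cases h0 : trn z i < 0
      · have := hi.1 h0
        linarith
      · have h1 : ¬ trn w i < 0 := fun h' => h0 (hi.2 h')
        linarith [not_lt.1 h0, not_lt.1 h1]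
  by_cases hRR : R = R'
  · refine planar_signs hn hz hw he tz tw (Or.inl fun i hi => ?_)
    exact (same ⟨i, hi⟩ (by rw [hRR])).symm
  rcases hc R R' p1 p2 hRR with ⟨c1, c2⟩ | c1 | c1
  · exfalso
    obtain ⟨a, ha⟩ := Finset.card_eq_one.1 c1
    obtain ⟨b, hb⟩ := Finset.card_eq_one.1 c2
    have ha' : a ∈ R \ R' := by rw [ha]; exact Finset.mem_singleton_self a
    have hb' : b ∈ R' \ R := by rw [hb]; exact Finset.mem_singleton_self b
    rw [Finset.mem_sdiff, mR, mR'] at ha' hb'
    have hab : a ≠ b := by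
      rintro rfl
      exact hb'.2 ha'.1
    have wa : trn w a = -trn z a := by
      rcases habs' a with h | h
      · exact absurd (h ▸ ha'.1) ha'.2
      · exact h
    have wb : trn w b = -trn z b := by
      rcases habs' b with h | h
      · exact absurd (h ▸ hb'.1) hb'.2
      · exact h
    have oth : ∀ i : Fin n, i ≠ a → i ≠ b → trn w i = trn z i := by
      intro i hia hib
      apply same
      have e1 : i ∉ R \ R' := by rw [ha]; simpa using hia
      have e2 : i ∉ R' \ R := by rw [hb]; simpa using hib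
      rw [Finset.mem_sdiff] at e1 e2
      tauto
    have hsum : trn z a + trn z b = 0 := by
      have e1 : ∑ i : Fin n, (trn w i - trn z i) = (trn w a - trn z a) + (trn w b - trn z b) := by
        refine Finset.sum_eq_add a b hab ?_ ?_ ?_
        · intro c _ hc
          rw [oth c hc.1 hc.2, sub_self]
        · intro h
          exact absurd (Finset.mem_univ _) h
        · intro h
          exact absurd (Finset.mem_univ _) h
      rw [Finset.sum_sub_distrib, tz', tw', sub_self, wa, wb] at e1
      linarith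
    have oth' : ∀ i, i < n → i ≠ a.val → i ≠ b.val → trn w i = trn z i := by
      intro i hi hia hib
      exact oth ⟨i, hi⟩ (fun h => hia (congrArg Fin.val h)) (fun h => hib (congrArg Fin.val h))
    rcases lt_or_gt_of_ne (fun h => hab (Fin.ext h) : a.val ≠ b.val) with h | h
    · exact two_diff hz hw he h b.isLt ha'.1.ne wa wb hsum oth'
    · refine two_diff hz hw he h a.isLt ?_ wb wa (by linarith) fun i hi h1 h2 => oth' i hi h2 h1
      intro h0
      rw [h0] at wb
      linarith [hb'.1]
  · obtain ⟨a, ha⟩ := Finset.card_eq_one.1 c1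
    refine planar_signs hn hz hw he tz tw (Or.inr (Or.inl ⟨a.val, a.isLt, fun i hi hia => ?_⟩))
    by_contra h0
    have h1 : (⟨i, hi⟩ : Fin n) ∈ R := (mR _).2 (not_le.1 h0)
    rw [ha, Finset.mem_singleton] at h1
    exact hia (congrArg Fin.val h1)
  · obtain ⟨a, ha⟩ := Finset.card_eq_one.1 c1
    refine planar_signs hn hz hw he tz tw (Or.inr (Or.inr ⟨a.val, a.isLt, fun i hi hia => ?_⟩))
    by_contra h0
    have h1 : (⟨i, hi⟩ : Fin n) ∈ R' := (mR' _).2 (not_le.1 h0)
    rw [ha, Finset.mem_singleton] at h1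
    exact hia (congrArg Fin.val h1)

theorem ExchangeCondition.comp {n : ℕ} {τ : Fin n → ℝ} (h : ExchangeCondition τ) (e : Fin n ≃ Fin n) :
    ExchangeCondition fun i => τ (e i) := by
  have hp : ∀ R : Finset (Fin n), PossibleReflex (fun i => τ (e i)) R → PossibleReflex τ (R.map e.toEmbedding) := by
    intro R hR
    constructor
    · intro v hv
      obtain ⟨i, hi, rfl⟩ := Finset.mem_map.1 hv
      exact hR.1 i hi
    · rw [Finset.sum_map]
      have := hR.2
      rw [Equiv.sum_comp e τ] at this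
      exact this
  intro R R' h1 h2 h3
  have h4 := h _ _ (hp R h1) (hp R' h2) (fun h' => h3 (Finset.map_injective _ h'))
  rw [← Finset.map_sdiff, ← Finset.map_sdiff, Finset.card_map, Finset.card_map, Finset.card_map, Finset.card_map] at h4
  exact h4

theorem abs_trn_angle {n : ℕ} (hn : 0 < n) {z : ℕ → ℂ} (hz : Adm n z) {p : Fin n → EuclideanSpace ℝ (Fin 3)}
    (hd : ∀ i j, dist (z i) (z j) = dist (ex hn p i) (ex hn p j)) (i : Fin n) :
    |trn z i| = π - jointAngle p (finRotate n i) := by
  have e1 : finRotate n i = ⟨(i.val + 1) % n, Nat.mod_lt _ hn⟩ := by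
    conv_lhs => rw [fin_eq hn i, rotate_mk hn]
  obtain ⟨L, hL⟩ := exists_Jl
  have e2 : ∀ a b : ℂ, dist (L a) (L b) = dist a b := fun a b => L.isometry.dist_eq a b
  rw [e1, jointAngle_ex hn]
  have e3 : EuclideanGeometry.angle (ex hn p i.val) (ex hn p (i.val + 1)) (ex hn p (i.val + 2)) =
      EuclideanGeometry.angle (L (z i.val)) (L (z (i.val + 1))) (L (z (i.val + 2))) :=
    angle_of_dist (by rw [e2, hd]) (by rw [e2, hd]) (by rw [e2, hd])
  have e4 : EuclideanGeometry.angle (L (z i.val)) (L (z (i.val + 1))) (L (z (i.val + 2))) =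
      InnerProductGeometry.angle (z i.val - z (i.val + 1)) (z (i.val + 2) - z (i.val + 1)) := by
    unfold EuclideanGeometry.angle
    rw [vsub_eq_sub, vsub_eq_sub, ← map_sub, ← map_sub, LinearIsometry.angle_map]
  have e5 : z i.val - z (i.val + 1) = -(z (i.val + 1) - z i.val) := by ring
  have n1 : z (i.val + 1) - z i.val ≠ 0 := sub_ne_zero.2 (hz.ne _)
  have n2 : z (i.val + 2) - z (i.val + 1) ≠ 0 := sub_ne_zero.2 (hz.ne _)
  rw [e3, e4, e5, InnerProductGeometry.angle_neg_left, InnerProductGeometry.angle_comm,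
    Complex.angle_eq_abs_arg n2 n1, sub_sub_cancel]
  rfl

theorem joined_of_exchange {n : ℕ} (h3 : 3 ≤ n) {p q : Fin n → EuclideanSpace ℝ (Fin 3)}
    (hp : FlatState p) (hq : FlatState q) (h : SameChain q p) (ha : Nonacute p)
    (hc : ExchangeCondition (turn p)) : JoinedByMotion p q := by
  have hn : 0 < n := by omega
  have ha' : Nonacute q := fun i => by rw [h.2 i]; exact ha i
  have hx := adm_ex hn h3 hp.1 ha
  have hy := adm_ex hn h3 hq.1 ha'
  obtain ⟨z, hz, cz, dz, tz⟩ := exists_planar h3 hx (flat_ex hn hp.2)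
  obtain ⟨w, hw, cw, dw, tw⟩ := exists_planar h3 hy (flat_ex hn hq.2)
  have ezw : Eqv z w := ((Eqv.of_dist dz).trans' (eqv_ex hn h.symm)).trans' (Eqv.of_dist dw).symm'
  refine joined_of_conn hn ((cz.trans (planar_rel h3 hz hw ezw tz tw ?_)).trans cw.symm)
  have e1 := hc.comp (finRotate n)
  have e2 : (fun i : Fin n => |trn z i|) = fun i => π - jointAngle p (finRotate n i) :=
    funext fun i => abs_trn_angle hn hz dz i
  rw [e2]
  exact e1

end Pool.Agent.H57.FC
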