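import Pool.Agent.H57.FC.Cnn

set_option autoImplicit false

/-! ROW RIG (about 130 lines). Rigid motions inside 3-space of a planar chain.

`conn_of_isom`: general tool: a continuous family of isometric affine maps. `hγ0` gives the start.  `Adm` of each
`i ↦ L t (x i) + c t` by `Adm.map`, `Eqv` by isometry.
`conn_plane`: write `u = exp (i θ)` (`θ = arg u`, norm 1).  Motion `γ t i = J (exp (i t θ) * z i + t * v)`; this is
`i ↦ J (z' i)` with `z' i = exp (i t θ) * z i + t v`, `Adm.map` for the linear isometry multiplication by `exp (i t θ)`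
(`rotation`, or `LinearIsometry` by hand) and then for `J` (`exists_Jl`).
`rot_isom`: `rot t` is (the coercion of) a linear isometry; `conn_conj`: motion `γ t i = rot (π * t) (J (z i))`;
`rot π (x, y, 0) = (x, -y, 0)`. -/

namespace Pool.Agent.H57.FC

open Real

theorem conn_of_isom {n : ℕ} {x : ℕ → E3} (hx : Adm n x) (L : ℝ → E3 →ₗᵢ[ℝ] E3) (c : ℝ → E3)
    (hL : ∀ v, Continuous fun t => L t v) (hc : Continuous c) (h0 : ∀ v, L 0 v = v) (h0' : c 0 = 0) :
    Conn n x (fun i => L 1 (x i) + c 1) := by
  refine ⟨fun t i => L t (x i) + c t, fun i => (hL (x i)).add hc, ?_, rfl, ?_⟩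
  · funext i
    simp only [h0, h0', add_zero]
  · intro t _ _
    refine ⟨hx.map (L t) (c t), fun i => ⟨?_, ?_⟩⟩
    · simp only [dist_add_right, LinearIsometry.dist_map]
    · simp only [dist_add_right, LinearIsometry.dist_map]

theorem rot_isom (t : ℝ) : ∃ L : E3 →ₗᵢ[ℝ] E3, ∀ v, L v = rot t v := by
  refine ⟨⟨⟨⟨rot t, ?_⟩, ?_⟩, ?_⟩, fun v => rfl⟩
  · intro v w
    ext i
    fin_cases i
    · simp [rot]
    · simp [rot]; ring
    · simp [rot]; ring
  · intro a v
    ext i
    fin_cases i
    · simp [rot]
    · simp [rot]; ring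
    · simp [rot]; ring
  · intro v
    show ‖rot t v‖ = ‖v‖
    rw [EuclideanSpace.norm_eq, EuclideanSpace.norm_eq]
    congr 1
    simp only [Fin.sum_univ_three, Real.norm_eq_abs, sq_abs]
    simp only [rot]
    simp
    have h := Real.sin_sq_add_cos_sq t
    linear_combination (v 1 ^ 2 + v 2 ^ 2) * h

theorem rig_J_zero : J 0 = 0 := by
  ext i
  fin_cases i <;> simp [J]

theorem conn_plane {n : ℕ} {z : ℕ → ℂ} (hz : Adm n z) (u v : ℂ) (hu : ‖u‖ = 1) :
    Conn n (fun i => J (z i)) (fun i => J (u * z i + v)) := by
  obtain ⟨Jl, hJl⟩ := exists_Jl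
  have hJc : Continuous J := by
    have : J = fun z => Jl z := by funext z; exact (hJl z).symm
    rw [this]
    exact Jl.continuous
  have hmap : ∀ t : ℝ, Adm n (fun i => J (Complex.exp (t * Complex.arg u * Complex.I) * z i + t * v)) := by
    intro t
    have h1 := hz.map (rotation (Circle.exp (t * Complex.arg u))).toLinearIsometry (t * v)
    have h2 := h1.map Jl 0
    have e : (fun i => Jl ((rotation (Circle.exp (t * Complex.arg u))).toLinearIsometry (z i)
        + (t : ℂ) * v) + 0) =
        fun i => J (Complex.exp (t * Complex.arg u * Complex.I) * z i + t * v) := by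
      funext i
      rw [add_zero, hJl]
      congr 2
      show (rotation (Circle.exp (t * Complex.arg u))) (z i) = _
      rw [rotation_apply, Circle.coe_exp]
      push_cast
      ring_nf
    rw [e] at h2
    exact h2
  have hdist : ∀ (t : ℝ) (a b : ℂ),
      dist (J (Complex.exp (t * Complex.arg u * Complex.I) * a + t * v))
        (J (Complex.exp (t * Complex.arg u * Complex.I) * b + t * v)) = dist (J a) (J b) := by
    intro t a b
    rw [← hJl, ← hJl, ← hJl, ← hJl, LinearIsometry.dist_map, LinearIsometry.dist_map,
      dist_add_right, dist_eq_norm, dist_eq_norm, ← mul_sub, norm_mul]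
    have : ‖Complex.exp (t * Complex.arg u * Complex.I)‖ = 1 := by
      have h := Complex.norm_exp_ofReal_mul_I (t * Complex.arg u)
      push_cast at h
      exact h
    rw [this, one_mul]
  refine ⟨fun t i => J (Complex.exp (t * Complex.arg u * Complex.I) * z i + t * v), ?_, ?_, ?_, ?_⟩
  · intro i
    refine hJc.comp ?_
    have h1 : Continuous fun t : ℝ => (t : ℂ) := Complex.continuous_ofReal
    exact ((Complex.continuous_exp.comp ((h1.mul continuous_const).mul continuous_const)).mul
      continuous_const).add (h1.mul continuous_const)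
  · funext i
    simp
  · funext i
    have h := Complex.norm_mul_exp_arg_mul_I u
    rw [hu] at h
    simp only [Complex.ofReal_one, one_mul] at h ⊢
    rw [h]
  · intro t _ _
    exact ⟨hmap t, fun i => ⟨hdist t _ _, hdist t _ _⟩⟩

theorem conn_conj {n : ℕ} {z : ℕ → ℂ} (hz : Adm n z) :
    Conn n (fun i => J (z i)) (fun i => J ((starRingEnd ℂ) (z i))) := by
  obtain ⟨Jl, hJl⟩ := exists_Jl
  have hx : Adm n (fun i => J (z i)) := by
    have h2 := hz.map Jl 0
    have e : (fun i => Jl (z i) + 0) = fun i => J (z i) := by
      funext i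
      rw [add_zero, hJl]
    rw [e] at h2
    exact h2
  choose L hL using rot_isom
  have hc : ∀ v : E3, Continuous fun t : ℝ => rot (π * t) v := by
    intro v
    unfold rot
    have h1 : Continuous fun t : ℝ => Real.cos (π * t) :=
      Real.continuous_cos.comp (continuous_const.mul continuous_id)
    have h2 : Continuous fun t : ℝ => Real.sin (π * t) :=
      Real.continuous_sin.comp (continuous_const.mul continuous_id)
    refine (PiLp.continuous_toLp 2 (fun _ : Fin 3 => ℝ)).comp ?_
    refine continuous_pi fun i => ?_
    fin_cases i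
    · exact continuous_const
    · exact (h1.mul continuous_const).sub (h2.mul continuous_const)
    · exact (h2.mul continuous_const).add (h1.mul continuous_const)
  have h := conn_of_isom hx (fun t => L (π * t)) (fun _ => 0)
    (fun v => by
      have : (fun t : ℝ => L (π * t) v) = fun t : ℝ => rot (π * t) v := by
        funext t
        exact hL _ v
      rw [this]
      exact hc v) continuous_const
    (fun v => by
      rw [hL, mul_zero]
      ext i
      fin_cases i <;> simp [rot]) rfl
  have e : (fun i => L (π * 1) (J (z i)) + (0 : E3)) = fun i => J ((starRingEnd ℂ) (z i)) := by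
    funext i
    rw [hL, mul_one, add_zero]
    ext j
    fin_cases j <;> simp [rot, J]
  rw [e] at h
  exact h

end Pool.Agent.H57.FC
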