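import Pool.Agent.H57.FC.Base

set_option autoImplicit false

/-! ROW STK (about 70 lines). Discrete Stokes on the triangular grid of the nodes `(i, j)`, `i < j ≤ n`, without `(0, n)`.
`H i j` is the increment from `(i, j)` to `(i, j+1)`, `V i j` the increment from `(i, j)` to `(i+1, j)`.

PROOF: put `D i = ∑ k ∈ range i, (H k (k+1) + V k (k+2))` (along the diagonal to `(i, i+1)`) and
`F i j = D i + ∑ k ∈ Ico (i+1) j, H i k`.  Claim: for `i + 1 < j ≤ n`, `(i, j) ≠ (0, n)`: `F (i+1) j = F i j + V i j`.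
Induction on `j` from `j = i + 2`: there `F (i+1) (i+2) = D (i+1) = D i + H i (i+1) + V i (i+2) = F i (i+2) + V i (i+2)`.
Step `j → j + 1` (with `(i, j+1) ≠ (0, n)`, so the square `(i, j)` is allowed):
`F (i+1) (j+1) - F i (j+1) = F (i+1) j + H (i+1) j - F i j - H i j = V i j + H (i+1) j - H i j = V i (j+1)` by `h`.
Then left hand side `= D (n-1) = F (n-1) n` and
`F (n-1) n = F 1 n + ∑ i ∈ Ico 1 (n-1), V i n`, `F 1 n = F 1 (n-1) + H 1 (n-1)`, `F 1 (n-1) = F 0 (n-1) + V 0 (n-1)`,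
`F 0 (n-1) = ∑ k ∈ Ico 1 (n-1), H 0 k`.  (For `n = 3`: `F 1 2 = F 0 2 + V 0 2` is the case `j = i + 2`.) -/

namespace Pool.Agent.H57.FC

private lemma stk_claim {n : ℕ} (H V : ℕ → ℕ → ℝ)
    (h : ∀ i j, i + 1 < j → j + 1 ≤ n → ¬ (i = 0 ∧ j + 1 = n) →
      H i j + V i (j + 1) = V i j + H (i + 1) j) (i j : ℕ) (hij : i + 2 ≤ j) :
    j ≤ n → ¬ (i = 0 ∧ j = n) →
    (∑ k ∈ Finset.range (i + 1), (H k (k + 1) + V k (k + 2)) +
        ∑ k ∈ Finset.Ico (i + 1 + 1) j, H (i + 1) k) =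
      (∑ k ∈ Finset.range i, (H k (k + 1) + V k (k + 2)) +
        ∑ k ∈ Finset.Ico (i + 1) j, H i k) + V i j := by
  induction j, hij using Nat.le_induction with
  | base =>
    intro _ _
    rw [Finset.sum_range_succ]
    have e1 : Finset.Ico (i + 1 + 1) (i + 2) = ∅ := Finset.Ico_self _
    have e2 : Finset.Ico (i + 1) (i + 2) = {i + 1} := Nat.Ico_succ_singleton _
    rw [e1, e2, Finset.sum_empty, Finset.sum_singleton]
    ring
  | succ j hij ih =>
    intro hj hn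
    have ih' := ih (by omega) (by omega)
    have e1 : ∑ k ∈ Finset.Ico (i + 1 + 1) (j + 1), H (i + 1) k =
        ∑ k ∈ Finset.Ico (i + 1 + 1) j, H (i + 1) k + H (i + 1) j :=
      Finset.sum_Ico_succ_top (by omega) _
    have e2 : ∑ k ∈ Finset.Ico (i + 1) (j + 1), H i k =
        ∑ k ∈ Finset.Ico (i + 1) j, H i k + H i j :=
      Finset.sum_Ico_succ_top (by omega) _
    rw [e1, e2]
    have h1 := h i j (by omega) hj hn
    linarith

theorem stokes {n : ℕ} (hn : 3 ≤ n) (H V : ℕ → ℕ → ℝ)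
    (h : ∀ i j, i + 1 < j → j + 1 ≤ n → ¬ (i = 0 ∧ j + 1 = n) →
      H i j + V i (j + 1) = V i j + H (i + 1) j) :
    ∑ i ∈ Finset.range (n - 1), (H i (i + 1) + V i (i + 2)) =
      ∑ j ∈ Finset.Ico 1 (n - 1), H 0 j + V 0 (n - 1) + H 1 (n - 1) +
        ∑ i ∈ Finset.Ico 1 (n - 1), V i n := by
  obtain ⟨m, rfl⟩ : ∃ m, n = m + 1 := ⟨n - 1, by omega⟩
  simp only [Nat.add_sub_cancel]
  -- along the top
  have htop : ∀ l, 1 ≤ l → l ≤ m →
      (∑ k ∈ Finset.range l, (H k (k + 1) + V k (k + 2)) +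
        ∑ k ∈ Finset.Ico (l + 1) (m + 1), H l k) =
      (∑ k ∈ Finset.range 1, (H k (k + 1) + V k (k + 2)) +
        ∑ k ∈ Finset.Ico (1 + 1) (m + 1), H 1 k) + ∑ i ∈ Finset.Ico 1 l, V i (m + 1) := by
    intro l hl
    induction l, hl using Nat.le_induction with
    | base =>
      intro _
      rw [Finset.Ico_self, Finset.sum_empty, add_zero]
    | succ l hl ih =>
      intro hlm
      rw [stk_claim H V h l (m + 1) (by omega) le_rfl (by omega), ih (by omega),
        Finset.sum_Ico_succ_top hl]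
      ring
  have h1 := htop m (by omega) le_rfl
  rw [Finset.Ico_self, Finset.sum_empty, add_zero] at h1
  have h2 : ∑ k ∈ Finset.Ico (1 + 1) (m + 1), H 1 k =
      ∑ k ∈ Finset.Ico (1 + 1) m, H 1 k + H 1 m := Finset.sum_Ico_succ_top (by omega) _
  have h3 := stk_claim H V h 0 m (by omega) (by omega) (by omega)
  simp only [zero_add, Finset.range_zero, Finset.sum_empty] at h3
  rw [h1, h2]
  linarith

end Pool.Agent.H57.FC
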