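import Pool.Agent.H57.FC.Bas

set_option autoImplicit false

/-! ROW TRN (about 120 lines). Facts on the turns `trn z i = arg (e (i+1) / e i)`, `e i = z (i+1) - z i`.

`obt` says `0 ≤ Re (conj (e i) * e (i+1))`, i.e. `0 ≤ Re (e (i+1) / e i)`, so `|arg| ≤ π / 2`
(`Complex.abs_arg_le_pi_div_two_iff`).  `Eqv z w` gives `‖e i‖`, `‖e (i+1)‖` and (law of cosines, as
`z (i+2) - z i = e i + e (i+1)`) the real part of `e (i+1) / e i`; so `cos (trn z i) = cos (trn w i)` (`Complex.cos_arg`), and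
`cos` is injective on `[0, π]` (use `|trn|`, `Real.cos_abs`).
`edge_lift`: induction on j: `e (j+1) = e j * (e (j+1) / e j)` and `w = ‖w‖ * exp (arg w * I)`
(`Complex.norm_mul_exp_arg_mul_I`).
`sum_trn_shift`: sum of an n-periodic function over a period (induction on s; `Finset.sum_range_succ` /
`Finset.sum_range_succ'`). -/

namespace Pool.Agent.H57.FC

open Real

private theorem trn_re {a b : ℂ} (ha : a ≠ 0) :
    (b / a).re = inner ℝ a b / ‖a‖ ^ 2 := by
  have h1 : ‖a‖ ≠ 0 := norm_ne_zero_iff.2 ha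
  rw [Complex.inner, Complex.div_re, ← Complex.normSq_eq_norm_sq]
  simp only [Complex.mul_re, Complex.conj_re, Complex.conj_im]
  ring

private theorem trn_im {a b : ℂ} (ha : a ≠ 0) :
    (b / a).im = ((starRingEnd ℂ) a * b).im / ‖a‖ ^ 2 := by
  have h1 : ‖a‖ ≠ 0 := norm_ne_zero_iff.2 ha
  rw [Complex.div_im, ← Complex.normSq_eq_norm_sq]
  simp only [Complex.mul_im, Complex.conj_re, Complex.conj_im]
  ring

private theorem trn_edge_ne {n : ℕ} {z : ℕ → ℂ} (hz : Adm n z) (i : ℕ) :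
    z (i + 1) - z i ≠ 0 := sub_ne_zero.2 (hz.ne i)

theorem trn_per {n : ℕ} {z : ℕ → ℂ} (hz : Adm n z) (i : ℕ) : trn z (i + n) = trn z i := by
  unfold trn
  have h1 : i + n + 2 = i + 2 + n := by ring
  have h2 : i + n + 1 = i + 1 + n := by ring
  rw [h1, h2, hz.per, hz.per, hz.per]

theorem abs_trn_le {n : ℕ} {z : ℕ → ℂ} (hz : Adm n z) (i : ℕ) : |trn z i| ≤ π / 2 := by
  unfold trn
  rw [Complex.abs_arg_le_pi_div_two_iff, trn_re (trn_edge_ne hz i)]
  exact div_nonneg (hz.obt i) (by positivity)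

private theorem trn_cos {n : ℕ} {z : ℕ → ℂ} (hz : Adm n z) (i : ℕ) :
    cos |trn z i| = (dist (z i) (z (i + 2)) ^ 2 - dist (z i) (z (i + 1)) ^ 2 -
      dist (z (i + 1)) (z (i + 2)) ^ 2) / 2 /
        (dist (z i) (z (i + 1)) * dist (z (i + 1)) (z (i + 2))) := by
  have ha := trn_edge_ne hz i
  have hb := trn_edge_ne hz (i + 1)
  set a := z (i + 1) - z i with haa
  have hb' : z (i + 2) - z (i + 1) ≠ 0 := hb
  set b := z (i + 2) - z (i + 1) with hbb
  have h1 : dist (z i) (z (i + 1)) = ‖a‖ := by rw [dist_comm, dist_eq_norm]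
  have h2 : dist (z (i + 1)) (z (i + 2)) = ‖b‖ := by rw [dist_comm, dist_eq_norm]
  have h3 : dist (z i) (z (i + 2)) = ‖a + b‖ := by
    rw [dist_comm, dist_eq_norm]
    congr 1
    rw [haa, hbb]
    ring
  have hna : ‖a‖ ≠ 0 := norm_ne_zero_iff.2 ha
  have hnb : ‖b‖ ≠ 0 := norm_ne_zero_iff.2 hb'
  have h4 : ‖a + b‖ ^ 2 = ‖a‖ ^ 2 + 2 * inner ℝ a b + ‖b‖ ^ 2 := norm_add_sq_real a b
  rw [cos_abs]
  unfold trn
  rw [← haa, ← hbb, Complex.cos_arg (div_ne_zero hb' ha), trn_re ha, norm_div, h1, h2, h3, h4]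
  field_simp
  ring

theorem trn_eqv {n : ℕ} {z w : ℕ → ℂ} (hz : Adm n z) (hw : Adm n w) (he : Eqv z w) (i : ℕ) :
    |trn z i| = |trn w i| := by
  have h1 : cos |trn z i| = cos |trn w i| := by
    rw [trn_cos hz, trn_cos hw, (he i).1, (he i).2, (he (i + 1)).1]
  have h2 := abs_trn_le hz i
  have h3 := abs_trn_le hw i
  have hpi := pi_pos
  exact injOn_cos ⟨abs_nonneg _, by linarith⟩ ⟨abs_nonneg _, by linarith⟩ h1

theorem trn_conj {n : ℕ} {z : ℕ → ℂ} (hz : Adm n z) (i : ℕ) :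
    trn (fun k => (starRingEnd ℂ) (z k)) i = -trn z i := by
  have h1 := abs_trn_le hz i
  have hpi := pi_pos
  unfold trn at h1 ⊢
  have h2 : ((starRingEnd ℂ) (z (i + 2)) - (starRingEnd ℂ) (z (i + 1))) /
      ((starRingEnd ℂ) (z (i + 1)) - (starRingEnd ℂ) (z i)) =
      (starRingEnd ℂ) ((z (i + 2) - z (i + 1)) / (z (i + 1) - z i)) := by
    rw [map_div₀, map_sub, map_sub]
  show Complex.arg (((starRingEnd ℂ) (z (i + 2)) - (starRingEnd ℂ) (z (i + 1))) /
      ((starRingEnd ℂ) (z (i + 1)) - (starRingEnd ℂ) (z i))) = _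
  rw [h2, Complex.arg_conj, if_neg]
  intro h3
  rw [h3, abs_of_pos hpi] at h1
  linarith

/-- the sign of the turn is the sign of the planar cross product -/
theorem trn_nonneg_iff {n : ℕ} {z : ℕ → ℂ} (hz : Adm n z) (i : ℕ) :
    0 ≤ trn z i ↔ 0 ≤ ((starRingEnd ℂ) (z (i + 1) - z i) * (z (i + 2) - z (i + 1))).im := by
  have ha := trn_edge_ne hz i
  have h1 : 0 < ‖z (i + 1) - z i‖ ^ 2 := by
    have := norm_pos_iff.2 ha
    positivity
  unfold trn
  rw [Complex.arg_nonneg_iff, trn_im ha, le_div_iff₀ h1, zero_mul]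

theorem edge_lift {n : ℕ} {z : ℕ → ℂ} (hz : Adm n z) (φ : ℝ)
    (h0 : z 1 - z 0 = (‖z 1 - z 0‖ : ℂ) * Complex.exp (φ * Complex.I)) (j : ℕ) :
    z (j + 1) - z j = (‖z (j + 1) - z j‖ : ℂ) *
      Complex.exp (((φ + ∑ i ∈ Finset.range j, trn z i : ℝ) : ℂ) * Complex.I) := by
  induction j with
  | zero => simpa using h0
  | succ j ih =>
    have ha := trn_edge_ne hz j
    have hna : (‖z (j + 1) - z j‖ : ℂ) ≠ 0 := by
      exact_mod_cast norm_ne_zero_iff.2 ha
    have h1 : z (j + 1 + 1) - z (j + 1) = (z (j + 1) - z j) *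
        ((z (j + 2) - z (j + 1)) / (z (j + 1) - z j)) := by
      field_simp
    have h2 := Complex.norm_mul_exp_arg_mul_I ((z (j + 2) - z (j + 1)) / (z (j + 1) - z j))
    rw [norm_div, Complex.ofReal_div] at h2
    have h3 : Complex.exp (((φ + ∑ i ∈ Finset.range (j + 1), trn z i : ℝ) : ℂ) * Complex.I) =
        Complex.exp (((φ + ∑ i ∈ Finset.range j, trn z i : ℝ) : ℂ) * Complex.I) *
          Complex.exp ((trn z j : ℂ) * Complex.I) := by
      rw [← Complex.exp_add, Finset.sum_range_succ]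
      congr 1
      push_cast
      ring
    rw [h3]
    have h4 : z (j + 1 + 1) - z (j + 1) =
        ((‖z (j + 1) - z j‖ : ℂ) *
          Complex.exp (((φ + ∑ i ∈ Finset.range j, trn z i : ℝ) : ℂ) * Complex.I)) *
        ((‖z (j + 2) - z (j + 1)‖ : ℂ) / (‖z (j + 1) - z j‖ : ℂ) *
          Complex.exp ((trn z j : ℂ) * Complex.I)) := by
      rw [← ih]
      unfold trn
      rw [h2]
      exact h1
    have h5 : (‖z (j + 1 + 1) - z (j + 1)‖ : ℂ) = (‖z (j + 2) - z (j + 1)‖ : ℂ) := rfl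
    rw [h5]
    refine h4.trans ?_
    field_simp

theorem sum_shift {n : ℕ} {f : ℕ → ℝ} (hf : ∀ i, f (i + n) = f i) (s : ℕ) :
    ∑ i ∈ Finset.range n, f (i + s) = ∑ i ∈ Finset.range n, f i := by
  induction s with
  | zero => rfl
  | succ s ih =>
    rw [← ih]
    have h1 := Finset.sum_range_succ (fun i => f (i + s)) n
    have h2 := Finset.sum_range_succ' (fun i => f (i + s)) n
    have h3 : f (n + s) = f (0 + s) := by
      rw [zero_add, add_comm n s, hf]
    have h4 : ∑ i ∈ Finset.range n, f (i + (s + 1)) = ∑ i ∈ Finset.range n, f (i + 1 + s) := by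
      refine Finset.sum_congr rfl fun i _ => ?_
      congr 1
      ring
    rw [h4]
    rw [h2, h3] at h1
    exact add_right_cancel h1

theorem sum_trn_shift {n : ℕ} {z : ℕ → ℂ} (hz : Adm n z) (s : ℕ) :
    ∑ i ∈ Finset.range n, trn (fun k => z (k + s)) i = ∑ i ∈ Finset.range n, trn z i := by
  rw [← sum_shift (trn_per hz) s]
  refine Finset.sum_congr rfl fun i _ => ?_
  unfold trn
  have h1 : i + 2 + s = i + s + 2 := by ring
  have h2 : i + 1 + s = i + s + 1 := by ring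
  show Complex.arg ((z (i + 2 + s) - z (i + 1 + s)) / (z (i + 1 + s) - z (i + s))) = _
  rw [h1, h2]

end Pool.Agent.H57.FC
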