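import Pool.Agent.H57.FC.Trn
import Pool.Agent.H57.FC.Bas

set_option autoImplicit false

/-! Two flat states of a closed chain cannot turn differently at exactly two vertices: the arc between these two vertices would be
closed. -/

namespace Pool.Agent.H57.FC

open Real

theorem two_diff {n : ℕ} {z w : ℕ → ℂ} (hz : Adm n z) (hw : Adm n w) (he : Eqv z w) {a b : ℕ} (hab : a < b) (hb : b < n)
    (ha0 : trn z a ≠ 0) (h1 : trn w a = -trn z a) (h2 : trn w b = -trn z b) (hs : trn z a + trn z b = 0)
    (h : ∀ i, i < n → i ≠ a → i ≠ b → trn w i = trn z i) : False := by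
  have hπ := Real.pi_pos
  obtain ⟨α, hα⟩ : ∃ α, α = Complex.arg (z 1 - z 0) := ⟨_, rfl⟩
  obtain ⟨α', hα'⟩ : ∃ α, α = Complex.arg (w 1 - w 0) := ⟨_, rfl⟩
  have ez := edge_lift hz α (by rw [hα, Complex.norm_mul_exp_arg_mul_I])
  have ew := edge_lift hw α' (by rw [hα', Complex.norm_mul_exp_arg_mul_I])
  have hnorm : ∀ j, ‖w (j + 1) - w j‖ = ‖z (j + 1) - z j‖ := by
    intro j
    have := (he j).1
    rw [dist_comm (z j), dist_comm (w j), dist_eq_norm, dist_eq_norm] at this
    exact this.symm
  -- partial sums
  have hS : ∀ j, j ≤ n → ∑ i ∈ Finset.range j, trn w i = ∑ i ∈ Finset.range j, trn z i +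
      (if a < j ∧ j ≤ b then -(2 * trn z a) else 0) := by
    intro j
    induction j with
    | zero => intro _; simp
    | succ j ih =>
      intro hj
      rw [Finset.sum_range_succ, Finset.sum_range_succ, ih (by omega)]
      by_cases hja : j = a
      · subst hja
        rw [if_neg (by omega), if_pos (by omega), h1]
        ring
      · by_cases hjb : j = b
        · subst hjb
          rw [if_pos (by omega), if_neg (by omega), h2]
          linarith
        · rw [h j (by omega) hja hjb]
          by_cases hc : a < j ∧ j ≤ b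
          · rw [if_pos hc, if_pos (by omega)]
            ring
          · rw [if_neg hc, if_neg (by omega)]
            ring
  obtain ⟨u, hu⟩ : ∃ u : ℂ, u = Complex.exp (((-(2 * trn z a) : ℝ) : ℂ) * Complex.I) := ⟨_, rfl⟩
  obtain ⟨K, hK⟩ : ∃ K : ℂ, K = Complex.exp (((α' - α : ℝ) : ℂ) * Complex.I) := ⟨_, rfl⟩
  have hK0 : K ≠ 0 := by rw [hK]; exact Complex.exp_ne_zero _
  have hedge : ∀ j, j < n → w (j + 1) - w j = K * ((z (j + 1) - z j) +
      (if a < j ∧ j ≤ b then (u - 1) * (z (j + 1) - z j) else 0)) := by
    intro j hj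
    rw [ew j, hnorm j, hS j hj.le]
    have key : Complex.exp (((α' + (∑ i ∈ Finset.range j, trn z i +
        (if a < j ∧ j ≤ b then -(2 * trn z a) else 0)) : ℝ) : ℂ) * Complex.I) =
        K * (Complex.exp (((α + ∑ i ∈ Finset.range j, trn z i : ℝ) : ℂ) * Complex.I) *
          (if a < j ∧ j ≤ b then u else 1)) := by
      rw [hK]
      split_ifs with hc
      · rw [hu, ← Complex.exp_add, ← Complex.exp_add]
        congr 1
        push_cast
        ring
      · rw [mul_one, ← Complex.exp_add]
        congr 1
        push_cast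
        ring
    rw [key]
    have e2 : (z (j + 1) - z j) + (if a < j ∧ j ≤ b then (u - 1) * (z (j + 1) - z j) else 0) =
        (z (j + 1) - z j) * (if a < j ∧ j ≤ b then u else 1) := by
      split_ifs
      · ring
      · ring
    rw [e2]
    conv_rhs => rw [ez j]
    ring
  have hzn : z n = z 0 := by have := hz.per 0; rwa [zero_add] at this
  have hwn : w n = w 0 := by have := hw.per 0; rwa [zero_add] at this
  have hsum : ∑ j ∈ Finset.range n, (w (j + 1) - w j) = 0 := by
    rw [Finset.sum_range_sub, hwn, sub_self]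
  rw [Finset.sum_congr rfl (fun j hj => hedge j (Finset.mem_range.1 hj)), ← Finset.mul_sum,
    Finset.sum_add_distrib, Finset.sum_range_sub, hzn, sub_self, zero_add, ← Finset.sum_filter] at hsum
  have hf : (Finset.range n).filter (fun j => a < j ∧ j ≤ b) = Finset.Ico (a + 1) (b + 1) := by
    ext j
    rw [Finset.mem_filter, Finset.mem_range, Finset.mem_Ico]
    omega
  rw [hf, ← Finset.mul_sum, Finset.sum_Ico_eq_sub _ (by omega), Finset.sum_range_sub, Finset.sum_range_sub] at hsum
  have h3 : (u - 1) * (z (b + 1) - z (a + 1)) = 0 := by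
    have h4 : (u - 1) * (z (b + 1) - z 0 - (z (a + 1) - z 0)) = 0 := (mul_eq_zero.1 hsum).resolve_left hK0
    rw [sub_sub_sub_cancel_right] at h4
    exact h4
  rcases mul_eq_zero.1 h3 with h4 | h4
  · have h5 : u = 1 := sub_eq_zero.1 h4
    rw [hu] at h5
    rw [Complex.exp_eq_one_iff] at h5
    obtain ⟨k, hk⟩ := h5
    have h6 : -(2 * trn z a) = 2 * π * k := by
      have h7 : ((-(2 * trn z a) : ℝ) : ℂ) * Complex.I = ((2 * π * k : ℝ) : ℂ) * Complex.I := by
        rw [hk]
        push_cast
        ring
      have h8 := mul_right_cancel₀ Complex.I_ne_zero h7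
      exact_mod_cast h8
    have h9 := abs_trn_le hz a
    rw [abs_le] at h9
    have h10 : (k : ℝ) < 1 := by
      by_contra hc
      rw [not_lt] at hc
      nlinarith [h9.1, h9.2]
    have h11 : (-1 : ℝ) < k := by
      by_contra hc
      rw [not_lt] at hc
      nlinarith [h9.1, h9.2]
    have h12 : k < 1 := by exact_mod_cast h10
    have h13 : -1 < k := by exact_mod_cast h11
    have h14 : k = 0 := by omega
    rw [h14] at h6
    apply ha0
    push_cast at h6
    linarith
  · exact hz.inj (i := a + 1) (j := b + 1) (by omega) (by omega) (sub_eq_zero.1 h4).symm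

end Pool.Agent.H57.FC
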