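import Pool.Agent.H57.FC.RDefs
import Pool.Agent.H57.FC.GDefs

set_option autoImplicit false

/-!
The set of the reflex vertices of a flat state, and critical sets.
-/

namespace Pool.Agent.H57.FC

open Real

/-- `R` is the set of the reflex vertices of the flat state `x`: two vertices which are both in `R` or both outside of `R` turn to
the same side (or one of them is straight), a vertex in `R` and a vertex outside of `R` turn to different sides (or the second one is
straight), and `R` is a possible set of reflex vertices (this excludes straight vertices in `R`, and the exchange of the two sides). -/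
def IsReflexSet {n : ℕ} (x : Fin n → EuclideanSpace ℝ (Fin 3)) (R : Finset (Fin n)) : Prop :=
  PossibleReflex (turn x) R ∧ ∀ v w, ((v ∈ R ↔ w ∈ R) → 0 ≤ turnVec x v ⬝ᵥ turnVec x w) ∧
    (¬ (v ∈ R ↔ w ∈ R) → turnVec x v ⬝ᵥ turnVec x w ≤ 0)

/-- `R'` is critical for `R` (for the turns `τ`): it is another possible set of reflex vertices, both sets have at least two
elements, and they do not differ by the exchange of one vertex for another -/
def Critical {n : ℕ} (τ : Fin n → ℝ) (R R' : Finset (Fin n)) : Prop :=
  PossibleReflex τ R' ∧ R' ≠ R ∧ 2 ≤ R.card ∧ 2 ≤ R'.card ∧ ¬ ((R \ R').card = 1 ∧ (R' \ R).card = 1)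

end Pool.Agent.H57.FC
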