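import Pool.Agent.H57.FC.Arg
import Pool.Agent.H57.FC.Stk
import Pool.Agent.H57.FC.Trn

set_option autoImplicit false

/-! ROW UMZ (about 120 lines). Umlaufsatz when `z 0` is the lowest vertex.

PROOF. Write `u j = z j - z 0`.  Apply `stokes` with `H i j = arg ((z (j+1) - z i) / (z j - z i))`,
`V i j = arg ((z j - z (i+1)) / (z j - z i))`; its hypothesis is `arg_square` (p = z i, p' = z (i+1), q = z j, q' = z (j+1)), the
segments are disjoint by `hz.simp` (`i + 1 < j`, and `j + 1 < i + n`: if `i = 0` because `j + 1 ≠ n`, else clear).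
Left side: `H i (i+1) + V i (i+2) = trn z i` by `arg_tri` (a = z (i+1) - z i, b = z (i+2) - z (i+1), `|arg (b/a)| ≤ π/2` by
`abs_trn_le`), so it is `∑ i ∈ range (n-1), trn z i`.
Right side: with `α = arg (u 1)`, `β = arg (u (n-1))`: for `1 ≤ j ≤ n - 2`, `H 0 j = arg (u (j+1) / u j) = arg (u (j+1)) - arg (u j)`
(both args in `[0, π)`), sum `= β - α`; `V j n = arg ((z n - z (j+1)) / (z n - z j))`, `z n = z 0`, equals `arg (u (j+1) / u j)`
again, sum `= β - α`.  `V 0 (n-1) + H 1 (n-1)` = `arg_tri` with a = u (n-1), b = - u 1 (a + b = z (n-1) - z 1):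
`= arg (- u 1 / u (n-1))`.  Last turn: `trn z (n-1) = arg ((z (n+1) - z n) / (z n - z (n-1))) = arg (u 1 / (- u (n-1)))`, the same
number; call it `δ`, `|δ| ≤ π/2`.  Total `= 2 (β - α) + 2 δ`.  And `δ = α - β + π` if `β > α`, `δ = α - β - π` if `β < α`
(`β = α` would make `- u 1 / u (n-1)` a negative real, `δ = π`, contradicting `|δ| ≤ π/2`).  So the total is `2 π` or `-2 π`. -/

namespace Pool.Agent.H57.FC

open Real

private theorem UMZ_div {x y : ℂ} (hx : x ≠ 0) (hy : y ≠ 0) (hx0 : 0 ≤ Complex.arg x)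
    (hx1 : Complex.arg x < π) (hy0 : 0 ≤ Complex.arg y) (hy1 : Complex.arg y < π) :
    Complex.arg (x / y) = Complex.arg x - Complex.arg y := by
  have hi : Complex.arg y⁻¹ = -Complex.arg y := by
    rw [Complex.arg_inv, if_neg hy1.ne]
  rw [div_eq_mul_inv, (Complex.arg_mul_eq_add_arg_iff hx (inv_ne_zero hy)).2, hi, sub_eq_add_neg]
  rw [hi]
  constructor <;> linarith [pi_pos]

private theorem UMZ_tele (f : ℕ → ℝ) {m : ℕ} (hm : 1 ≤ m) :
    ∑ j ∈ Finset.Ico 1 m, (f (j + 1) - f j) = f m - f 1 := by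
  induction m, hm using Nat.le_induction with
  | base => simp
  | succ m hm ih =>
    rw [Finset.sum_Ico_succ_top hm, ih]
    ring

theorem umlauf_low {n : ℕ} (hn : 3 ≤ n) {z : ℕ → ℂ} (hz : Adm n z)
    (hlow : ∀ j, 0 < j → j < n → z j ≠ z 0 ∧ 0 ≤ Complex.arg (z j - z 0) ∧ Complex.arg (z j - z 0) < π) :
    ∑ i ∈ Finset.range n, trn z i = 2 * π ∨ ∑ i ∈ Finset.range n, trn z i = -(2 * π) := by
  have hzn : z n = z 0 := by have := hz.per 0; simpa using this
  have hzn1 : z (n + 1) = z 1 := by have := hz.per 1; rwa [add_comm 1 n] at this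
  have hst := stokes hn (fun i j => Complex.arg ((z (j + 1) - z i) / (z j - z i)))
    (fun i j => Complex.arg ((z j - z (i + 1)) / (z j - z i))) (by
      intro i j h1 h2 h3
      refine arg_square (hz.simp i j h1 ?_)
      rcases Nat.eq_zero_or_pos i with h4 | h4
      · subst h4
        simp only [true_and] at h3
        omega
      · omega)
  -- the left side
  have hL : ∑ i ∈ Finset.range (n - 1), (Complex.arg ((z (i + 1 + 1) - z i) / (z (i + 1) - z i)) +
      Complex.arg ((z (i + 2) - z (i + 1)) / (z (i + 2) - z i))) =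
      ∑ i ∈ Finset.range (n - 1), trn z i := by
    refine Finset.sum_congr rfl fun i _ => ?_
    have h := arg_tri (a := z (i + 1) - z i) (b := z (i + 2) - z (i + 1))
      (sub_ne_zero.2 (hz.ne i)) (sub_ne_zero.2 (hz.ne (i + 1))) (by
        intro h
        have h1 := abs_trn_le hz i
        unfold trn at h1
        rw [h, abs_of_pos pi_pos] at h1
        linarith [pi_pos])
    have e : z (i + 1) - z i + (z (i + 2) - z (i + 1)) = z (i + 2) - z i := by ring
    rw [e] at h
    exact h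
  -- the arguments
  have hH : ∑ j ∈ Finset.Ico 1 (n - 1), Complex.arg ((z (j + 1) - z 0) / (z j - z 0)) =
      Complex.arg (z (n - 1) - z 0) - Complex.arg (z 1 - z 0) := by
    rw [← UMZ_tele (fun j => Complex.arg (z j - z 0)) (by omega : 1 ≤ n - 1)]
    refine Finset.sum_congr rfl fun j hj => ?_
    rw [Finset.mem_Ico] at hj
    obtain ⟨a1, a2, a3⟩ := hlow (j + 1) (by omega) (by omega)
    obtain ⟨b1, b2, b3⟩ := hlow j (by omega) (by omega)
    exact UMZ_div (sub_ne_zero.2 a1) (sub_ne_zero.2 b1) a2 a3 b2 b3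
  have hV : ∑ i ∈ Finset.Ico 1 (n - 1), Complex.arg ((z n - z (i + 1)) / (z n - z i)) =
      Complex.arg (z (n - 1) - z 0) - Complex.arg (z 1 - z 0) := by
    rw [← hH]
    refine Finset.sum_congr rfl fun j _ => ?_
    congr 1
    rw [hzn, ← neg_sub (z (j + 1)) (z 0), ← neg_sub (z j) (z 0), neg_div_neg_eq]
  -- the last turn
  have e1 : n - 1 + 2 = n + 1 := by omega
  have e2 : n - 1 + 1 = n := by omega
  have hδ : trn z (n - 1) = Complex.arg (-(z 1 - z 0) / (z (n - 1) - z 0)) := by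
    unfold trn
    rw [e1, e2, hzn1, hzn]
    congr 1
    rw [← neg_sub (z (n - 1)) (z 0), div_neg, neg_div]
  have hδ1 := abs_trn_le hz (n - 1)
  obtain ⟨a1, a2, a3⟩ := hlow 1 (by omega) (by omega)
  obtain ⟨b1, b2, b3⟩ := hlow (n - 1) (by omega) (by omega)
  have hδ2 : Complex.arg (-(z 1 - z 0) / (z (n - 1) - z 0)) ≠ π := by
    intro h
    rw [hδ, h, abs_of_pos pi_pos] at hδ1
    linarith [pi_pos]
  have hC : Complex.arg ((z (n - 1) - z 1) / (z (n - 1) - z 0)) +
      Complex.arg ((z n - z 1) / (z (n - 1) - z 1)) = trn z (n - 1) := by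
    have h := arg_tri (a := z (n - 1) - z 0) (b := -(z 1 - z 0))
      (sub_ne_zero.2 b1) (neg_ne_zero.2 (sub_ne_zero.2 a1)) hδ2
    have e3 : z (n - 1) - z 0 + -(z 1 - z 0) = z (n - 1) - z 1 := by ring
    have e4 : -(z 1 - z 0) = z n - z 1 := by rw [hzn]; ring
    rw [e3] at h
    rw [hδ, ← h, e4]
  -- the total
  have htot : ∑ i ∈ Finset.range n, trn z i =
      2 * (Complex.arg (z (n - 1) - z 0) - Complex.arg (z 1 - z 0)) + 2 * trn z (n - 1) := by
    have h1 : ∑ i ∈ Finset.range n, trn z i =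
        ∑ i ∈ Finset.range (n - 1), trn z i + trn z (n - 1) := by
      conv_lhs => rw [← e2]
      rw [Finset.sum_range_succ]
    beta_reduce at hst
    rw [hL, hH, hV, e2] at hst
    simp only [zero_add] at hst
    rw [h1, hst]
    linarith [hC]
  have hw := UMZ_div (sub_ne_zero.2 a1) (sub_ne_zero.2 b1) a2 a3 b2 b3
  set w : ℂ := (z 1 - z 0) / (z (n - 1) - z 0) with hwdef
  have hnw : trn z (n - 1) = Complex.arg (-w) := by
    rw [hδ, hwdef, neg_div]
  rcases lt_trichotomy w.im 0 with h | h | h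
  · left
    rw [htot, hnw, Complex.arg_neg_eq_arg_add_pi_of_im_neg h, hw]
    ring
  · exfalso
    have hw0 : w ≠ 0 := div_ne_zero (sub_ne_zero.2 a1) (sub_ne_zero.2 b1)
    have hre : w.re ≠ 0 := by
      intro h'
      exact hw0 (Complex.ext h' h)
    rcases lt_or_gt_of_ne hre with h' | h'
    · have : Complex.arg w = π := Complex.arg_eq_pi_iff.2 ⟨h', h⟩
      rw [hw] at this
      linarith
    · have h3 : Complex.arg (-w) = π := Complex.arg_eq_pi_iff.2 ⟨by simpa using h', by simp [h]⟩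
      rw [hnw, h3, abs_of_pos pi_pos] at hδ1
      linarith [pi_pos]
  · right
    rw [htot, hnw, Complex.arg_neg_eq_arg_sub_pi_of_im_pos h, hw]
    ring

end Pool.Agent.H57.FC
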