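import Pool.Agent.H57.FC.UDefs
import Pool.Agent.H57.FC.Gen4

set_option autoImplicit false

/-! The unified theorem. -/

namespace Pool.Agent.H57.FC

open Real

theorem possible_map {n : ℕ} {τ : Fin n → ℝ} (e : Fin n ≃ Fin n) {R : Finset (Fin n)}
    (hR : PossibleReflex (fun i => τ (e i)) R) : PossibleReflex τ (R.map e.toEmbedding) := by
  constructor
  · intro v hv
    obtain ⟨i, hi, rfl⟩ := Finset.mem_map.1 hv
    exact hR.1 i hi
  · rw [Finset.sum_map]
    have := hR.2
    rw [Equiv.sum_comp e τ] at this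
    exact this

/-- the indices of the negative turns -/
noncomputable def negs (n : ℕ) (z : ℕ → ℂ) : Finset (Fin n) := Finset.univ.filter fun i : Fin n => trn z i < 0

theorem mem_negs {n : ℕ} {z : ℕ → ℂ} (i : Fin n) : i ∈ negs n z ↔ trn z i < 0 := by
  unfold negs
  simp

/-- two planar flat states of the same chain -/
theorem planar_pair {n : ℕ} (hn : 3 ≤ n) {z w : ℕ → ℂ} (hz : Adm n z) (hw : Adm n w) (he : Eqv z w)
    (tz : ∑ i ∈ Finset.range n, trn z i = 2 * π) (tw : ∑ i ∈ Finset.range n, trn w i = 2 * π)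
    (hc : negs n z = negs n w ∨ ((negs n z \ negs n w).card = 1 ∧ (negs n w \ negs n z).card = 1) ∨ (negs n z).card ≤ 1 ∨
      (negs n w).card ≤ 1) :
    Conn n (fun i => J (z i)) (fun i => J (w i)) := by
  have habs : ∀ i, |trn w i| = |trn z i| := fun i => (trn_eqv hz hw he i).symm
  have habs' : ∀ i, trn w i = trn z i ∨ trn w i = -trn z i := fun i => abs_eq_abs.1 (habs i)
  have tz' : ∑ i : Fin n, trn z i = 2 * π := by rw [← tz, Finset.sum_range]
  have tw' : ∑ i : Fin n, trn w i = 2 * π := by rw [← tw, Finset.sum_range]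
  have same : ∀ i : Fin n, (i ∈ negs n z ↔ i ∈ negs n w) → trn w i = trn z i := by
    intro i hi
    rw [mem_negs, mem_negs] at hi
    rcases habs' i with h | h
    · exact h
    · by_cases h0 : trn z i < 0
      · have := hi.1 h0
        linarith
      · have h1 : ¬ trn w i < 0 := fun h' => h0 (hi.2 h')
        linarith [not_lt.1 h0, not_lt.1 h1]
  rcases hc with hc | ⟨c1, c2⟩ | c1 | c1
  · refine planar_signs hn hz hw he tz tw (Or.inl fun i hi => ?_)
    exact (same ⟨i, hi⟩ (by rw [hc])).symm
  · exfalso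
    obtain ⟨a, ha⟩ := Finset.card_eq_one.1 c1
    obtain ⟨b, hb⟩ := Finset.card_eq_one.1 c2
    have ha' : a ∈ negs n z \ negs n w := by rw [ha]; exact Finset.mem_singleton_self a
    have hb' : b ∈ negs n w \ negs n z := by rw [hb]; exact Finset.mem_singleton_self b
    rw [Finset.mem_sdiff, mem_negs, mem_negs] at ha' hb'
    have hab : a ≠ b := by
      rintro rfl
      exact hb'.2 ha'.1
    have wa : trn w a = -trn z a := by
      rcases habs' a with h | h
      · exact absurd (h ▸ ha'.1) ha'.2
      · exact h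
    have wb : trn w b = -trn z b := by
      rcases habs' b with h | h
      · exact absurd (h ▸ hb'.1) hb'.2
      · exact h
    have oth : ∀ i : Fin n, i ≠ a → i ≠ b → trn w i = trn z i := by
      intro i hia hib
      apply same
      have e1 : i ∉ negs n z \ negs n w := by rw [ha]; simpa using hia
      have e2 : i ∉ negs n w \ negs n z := by rw [hb]; simpa using hib
      rw [Finset.mem_sdiff] at e1 e2
      tauto
    have hsum : trn z a + trn z b = 0 := by
      have e1 : ∑ i : Fin n, (trn w i - trn z i) = (trn w a - trn z a) + (trn w b - trn z b) := by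
        refine Finset.sum_eq_add a b hab ?_ ?_ ?_
        · intro c _ hc
          rw [oth c hc.1 hc.2, sub_self]
        · intro h
          exact absurd (Finset.mem_univ _) h
        · intro h
          exact absurd (Finset.mem_univ _) h
      rw [Finset.sum_sub_distrib, tz', tw', sub_self, wa, wb] at e1
      linarith
    have oth' : ∀ i, i < n → i ≠ a.val → i ≠ b.val → trn w i = trn z i := by
      intro i hi hia hib
      exact oth ⟨i, hi⟩ (fun h => hia (congrArg Fin.val h)) (fun h => hib (congrArg Fin.val h))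
    rcases lt_or_gt_of_ne (fun h => hab (Fin.ext h) : a.val ≠ b.val) with h | h
    · exact two_diff hz hw he h b.isLt ha'.1.ne wa wb hsum oth'
    · refine two_diff hz hw he h a.isLt ?_ wb wa (by linarith) fun i hi h1 h2 => oth' i hi h2 h1
      intro h0
      rw [h0] at wb
      linarith [hb'.1]
  · obtain ⟨a, ha⟩ : ∃ a : Fin n, ∀ i ∈ negs n z, i = a := by
      rcases (negs n z).eq_empty_or_nonempty with h | ⟨a, ha⟩
      · exact ⟨⟨0, by omega⟩, fun i hi => by rw [h] at hi; exact absurd hi (Finset.notMem_empty _)⟩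
      · exact ⟨a, fun i hi => Finset.card_le_one.1 c1 i hi a ha⟩
    refine planar_signs hn hz hw he tz tw (Or.inr (Or.inl ⟨a.val, a.isLt, fun i hi hia => ?_⟩))
    by_contra h0
    have h1 : (⟨i, hi⟩ : Fin n) ∈ negs n z := (mem_negs _).2 (not_le.1 h0)
    exact hia (congrArg Fin.val (ha _ h1))
  · obtain ⟨a, ha⟩ : ∃ a : Fin n, ∀ i ∈ negs n w, i = a := by
      rcases (negs n w).eq_empty_or_nonempty with h | ⟨a, ha⟩
      · exact ⟨⟨0, by omega⟩, fun i hi => by rw [h] at hi; exact absurd hi (Finset.notMem_empty _)⟩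
      · exact ⟨a, fun i hi => Finset.card_le_one.1 c1 i hi a ha⟩
    refine planar_signs hn hz hw he tz tw (Or.inr (Or.inr ⟨a.val, a.isLt, fun i hi hia => ?_⟩))
    by_contra h0
    have h1 : (⟨i, hi⟩ : Fin n) ∈ negs n w := (mem_negs _).2 (not_le.1 h0)
    exact hia (congrArg Fin.val (ha _ h1))

/-- the reflex vertices of a flat state -/
noncomputable def rv (n : ℕ) (z : ℕ → ℂ) : Finset (Fin n) := (negs n z).map (finRotate n).toEmbedding

theorem mem_rv {n : ℕ} {z : ℕ → ℂ} (i : Fin n) : finRotate n i ∈ rv n z ↔ trn z i < 0 := by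
  unfold rv
  rw [← mem_negs, Finset.mem_map_equiv, Equiv.symm_apply_apply]

theorem reflexSet_rv {n : ℕ} (hn : 0 < n) {z : ℕ → ℂ} (hz : Adm n z) {p : Fin n → EuclideanSpace ℝ (Fin 3)}
    (hd : ∀ i j, dist (z i) (z j) = dist (ex hn p i) (ex hn p j)) (tz : ∑ i ∈ Finset.range n, trn z i = 2 * π) :
    IsReflexSet p (rv n z) := by
  have tz' : ∑ i : Fin n, trn z i = 2 * π := by rw [← tz, Finset.sum_range]
  constructor
  · have h1 := possible_neg tz'
    have e2 : (fun i : Fin n => |trn z i|) = fun i => turn p (finRotate n i) :=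
      funext fun i => abs_trn_angle hn hz hd i
    rw [e2] at h1
    exact possible_map (finRotate n) h1
  · have hdot : ∀ i j : Fin n, ∃ P : ℝ, 0 < P ∧ turnVec p (finRotate n i) ⬝ᵥ turnVec p (finRotate n j) =
        P * (sin (trn z i) * sin (trn z j)) := by
      intro i j
      have r : ∀ i : Fin n, finRotate n i = ⟨(i.val + 1) % n, Nat.mod_lt _ hn⟩ := by
        intro i
        conv_lhs => rw [fin_eq hn i, rotate_mk hn]
      have h1 := crs_ex hn p i.val j.val
      have h2 : crs z i.val j.val = crs (ex hn p) i.val j.val := by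
        unfold crs
        rw [inner_of_dist hd, inner_of_dist hd, inner_of_dist hd, inner_of_dist hd]
      have h3 := crs_complex z i.val j.val
      have n1 : ∀ i, z (i + 1) - z i ≠ 0 := fun i => sub_ne_zero.2 (hz.ne _)
      have n2 : ∀ i, z (i + 2) - z (i + 1) ≠ 0 := fun i => sub_ne_zero.2 (hz.ne _)
      rw [im_conj_mul (n1 _), im_conj_mul (n1 _), h2, h1] at h3
      rw [r i, r j]
      refine ⟨(‖z (i.val + 1) - z i.val‖ * ‖z (i.val + 2) - z (i.val + 1)‖) *
        (‖z (j.val + 1) - z j.val‖ * ‖z (j.val + 2) - z (j.val + 1)‖), ?_, ?_⟩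
      · have := norm_pos_iff.2 (n1 i.val)
        have := norm_pos_iff.2 (n2 i.val)
        have := norm_pos_iff.2 (n1 j.val)
        have := norm_pos_iff.2 (n2 j.val)
        positivity
      · rw [h3]
        unfold trn
        ring
    have hπ := Real.pi_pos
    have hneg : ∀ i : Fin n, trn z i < 0 → sin (trn z i) ≤ 0 := by
      intro i hi
      have := (abs_le.1 (abs_trn_le hz i)).1
      exact (Real.sin_neg_of_neg_of_neg_pi_lt hi (by linarith)).le
    have hpos : ∀ i : Fin n, ¬ trn z i < 0 → 0 ≤ sin (trn z i) := by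
      intro i hi
      have := (abs_le.1 (abs_trn_le hz i)).2
      exact Real.sin_nonneg_of_nonneg_of_le_pi (not_lt.1 hi) (by linarith)
    intro v w
    obtain ⟨i, rfl⟩ : ∃ i, finRotate n i = v := ⟨(finRotate n).symm v, Equiv.apply_symm_apply _ _⟩
    obtain ⟨j, rfl⟩ : ∃ i, finRotate n i = w := ⟨(finRotate n).symm w, Equiv.apply_symm_apply _ _⟩
    obtain ⟨P, hP, h⟩ := hdot i j
    rw [mem_rv, mem_rv, h]
    constructor
    · intro hc
      apply mul_nonneg hP.le
      by_cases h1 : trn z i < 0
      · exact mul_nonneg_of_nonpos_of_nonpos (hneg i h1) (hneg j (hc.1 h1))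
      · exact mul_nonneg (hpos i h1) (hpos j fun h2 => h1 (hc.2 h2))
    · intro hc
      apply mul_nonpos_of_nonneg_of_nonpos hP.le
      by_cases h1 : trn z i < 0
      · exact mul_nonpos_of_nonpos_of_nonneg (hneg i h1) (hpos j fun h2 => hc ⟨fun _ => h2, fun _ => h1⟩)
      · by_cases h2 : trn z j < 0
        · exact mul_nonpos_of_nonneg_of_nonpos (hpos i h1) (hneg j h2)
        · exact absurd ⟨fun h => absurd h h1, fun h => absurd h h2⟩ hc

end Pool.Agent.H57.FC
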