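import Pool.Agent.H57.FC.Uni

set_option autoImplicit false

/-! The unified theorem, second part. -/

namespace Pool.Agent.H57.FC

open Real

/-- the closure of `w` gives a linear relation for the lengths -/
theorem closure_mem {n : ℕ} {z w : ℕ → ℂ} (hw : Adm n w) (s : Fin n → Bool) (hst : ∀ i, i < n → sturn z s i = trn w i)
    (l : Fin n → ℝ) (hlen : ∀ i : Fin n, ‖w (i.val + 1) - w i.val‖ = l i * ‖z (i.val + 1) - z i.val‖) :
    l ∈ relations (slink z s) := by
  rw [mem_relations]
  obtain ⟨α, hα⟩ : ∃ α, α = Complex.arg (w 1 - w 0) := ⟨_, rfl⟩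
  have ew := edge_lift hw α (by rw [hα, Complex.norm_mul_exp_arg_mul_I])
  have hwn : w n = w 0 := by have := hw.per 0; rwa [zero_add] at this
  have hsum : ∑ j ∈ Finset.range n, (w (j + 1) - w j) = 0 := by
    rw [Finset.sum_range_sub, hwn, sub_self]
  rw [Finset.sum_range] at hsum
  have h1 : ∀ j : Fin n, w (j.val + 1) - w j.val = Complex.exp ((α : ℂ) * Complex.I) * (l j • slink z s j) := by
    intro j
    rw [ew j.val, hlen j]
    unfold slink
    have h2 : ∑ i ∈ Finset.range j.val, sturn z s i = ∑ i ∈ Finset.range j.val, trn w i :=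
      Finset.sum_congr rfl fun i hi => hst i (lt_trans (Finset.mem_range.1 hi) j.isLt)
    rw [h2, Complex.real_smul]
    have h3 : Complex.exp (((α + ∑ i ∈ Finset.range j.val, trn w i : ℝ) : ℂ) * Complex.I) =
        Complex.exp ((α : ℂ) * Complex.I) * Complex.exp (((∑ i ∈ Finset.range j.val, trn w i : ℝ) : ℂ) * Complex.I) := by
      rw [← Complex.exp_add]
      congr 1
      push_cast
      ring
    rw [h3]
    push_cast
    ring
  rw [Finset.sum_congr rfl fun j _ => h1 j, ← Finset.mul_sum] at hsum
  exact (mul_eq_zero.1 hsum).resolve_left (Complex.exp_ne_zero _)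

/-- if the signed turns satisfy all relations of the links, they are the turns of `z` -/
theorem turns_of_relations {n : ℕ} (hn : 3 ≤ n) {z : ℕ → ℂ} (hz : Adm n z) (tz : ∑ i ∈ Finset.range n, trn z i = 2 * π)
    (s : Fin n → Bool) (ts : ∑ i ∈ Finset.range n, sturn z s i = 2 * π)
    (hl : ∀ l' : Fin n → ℝ, ∑ i : Fin n, l' i • (z (i.val + 1) - z i.val) = 0 → l' ∈ relations (slink z s)) :
    ∀ i, i < n → sturn z s i = trn z i := by
  have hπ := Real.pi_pos
  have hrig := sign_rigid hn hz tz (sturn z s) (sturn_pm z s) (by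
    intro l' hl'
    rw [Finset.sum_range] at hl'
    have h1 := hl (fun i => l' i.val) (by
      rw [← hl']
      exact Finset.sum_congr rfl fun i _ => Complex.real_smul)
    rw [mem_relations] at h1
    rw [Finset.sum_range, ← h1]
    refine Finset.sum_congr rfl fun i _ => ?_
    rw [Complex.real_smul]
    rfl)
  obtain ⟨m, rfl⟩ : ∃ m, n = m + 1 := ⟨n - 1, by omega⟩
  have tz' := tz
  have ts' := ts
  rw [Finset.sum_range_succ] at tz' ts'
  rcases hrig with h1 | h1
  · have h3 : ∑ i ∈ Finset.range m, sturn z s i = ∑ i ∈ Finset.range m, trn z i :=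
      Finset.sum_congr rfl fun i hi => h1 i (by have := Finset.mem_range.1 hi; omega)
    intro i hi
    rcases Nat.lt_or_ge i m with h4 | h4
    · exact h1 i (by omega)
    · have h5 : i = m := by omega
      rw [h5]
      linarith
  · exfalso
    have h2 : ∀ i ∈ Finset.range m, sturn z s i = -trn z i := by
      intro i hi
      have hi' := Finset.mem_range.1 hi
      exact h1 i (by omega)
    rw [Finset.sum_congr rfl h2, Finset.sum_neg_distrib] at ts'
    have h3 := (abs_le.1 (abs_trn_le hz m)).2
    have h4 : sturn z s m ≤ π / 2 := by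
      rcases sturn_pm z s m with h | h
      · rw [h]; exact (abs_le.1 (abs_trn_le hz m)).2
      · rw [h]
        have := (abs_le.1 (abs_trn_le hz m)).1
        linarith
    linarith

/-- the signs which make the vertices of `R'` reflex -/
noncomputable def sgn {n : ℕ} (z : ℕ → ℂ) (R' : Finset (Fin n)) : Fin n → Bool := fun i =>
  decide (finRotate n i ∈ R' ↔ trn z i < 0)

theorem sturn_sgn {n : ℕ} (z : ℕ → ℂ) (R' : Finset (Fin n)) (i : Fin n) :
    sturn z (sgn z R') i = if finRotate n i ∈ R' then -|trn z i| else |trn z i| := by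
  unfold sturn sgn
  rw [dif_pos i.isLt]
  by_cases h1 : finRotate n i ∈ R' <;> by_cases h2 : trn z i < 0
  · rw [if_pos (decide_eq_true ⟨fun _ => h2, fun _ => h1⟩), if_pos h1, abs_of_neg h2, neg_neg]
  · rw [if_neg (by rw [decide_eq_true_eq]; exact fun h => h2 (h.1 h1)), if_pos h1, abs_of_nonneg (not_lt.1 h2)]
  · rw [if_neg (by rw [decide_eq_true_eq]; exact fun h => h1 (h.2 h2)), if_neg h1, abs_of_neg h2]
  · rw [if_pos (decide_eq_true ⟨fun h => absurd h h1, fun h => absurd h h2⟩), if_neg h1, abs_of_nonneg (not_lt.1 h2)]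

open Classical in
/-- the proper subspaces -/
noncomputable def US {n : ℕ} (o : Fin n → EuclideanSpace ℝ (Fin 3)) (z : ℕ → ℂ) (R' : Finset (Fin n)) :
    Submodule ℝ (Fin n → ℝ) :=
  if PossibleReflex (turn o) R' ∧ R' ≠ rv n z then closing o ⊓ relations (slink z (sgn z R')) else ⊥

theorem ones_closing {n : ℕ} (o : Fin n → EuclideanSpace ℝ (Fin 3)) : (1 : Fin n → ℝ) ∈ closing o := by
  unfold closing
  rw [mem_relations]
  simp only [Pi.one_apply, one_smul]
  rw [Finset.sum_sub_distrib, Equiv.sum_comp (finRotate n) o, sub_self]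

theorem US_lt {n : ℕ} (hn : 3 ≤ n) {o : Fin n → EuclideanSpace ℝ (Fin 3)} {z : ℕ → ℂ} (hz : Adm n z)
    (hd : ∀ i j, dist (z i) (z j) = dist (ex (by omega : 0 < n) o i) (ex (by omega : 0 < n) o j))
    (tz : ∑ i ∈ Finset.range n, trn z i = 2 * π) (R' : Finset (Fin n)) : US o z R' < closing o := by
  have hn0 : 0 < n := by omega
  unfold US
  split_ifs with hc
  · refine lt_of_le_of_ne inf_le_left fun heq => hc.2 ?_
    have ts : ∑ i ∈ Finset.range n, sturn z (sgn z R') i = 2 * π := by
      rw [Finset.sum_range]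
      have h1 : ∀ i : Fin n, sturn z (sgn z R') i = turn o (finRotate n i) -
          (if finRotate n i ∈ R' then 2 * turn o (finRotate n i) else 0) := by
        intro i
        have e1 : |trn z i| = turn o (finRotate n i) := abs_trn_angle hn0 hz hd i
        rw [sturn_sgn, e1]
        split_ifs <;> ring
      rw [Finset.sum_congr rfl fun i _ => h1 i, Finset.sum_sub_distrib,
        Equiv.sum_comp (finRotate n) (fun v => turn o v),
        Equiv.sum_comp (finRotate n) (fun v => if v ∈ R' then 2 * turn o v else 0), Finset.sum_ite_mem, Finset.univ_inter,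
        ← Finset.mul_sum]
      have := hc.1.2
      linarith
    have h1 := turns_of_relations hn hz tz (sgn z R') ts (by
      intro l' hl'
      have h1 : l' ∈ closing o := (closing_iff hn0 hd l').2 hl'
      rw [← heq] at h1
      exact h1.2)
    ext v
    obtain ⟨i, rfl⟩ : ∃ i, finRotate n i = v := ⟨(finRotate n).symm v, Equiv.apply_symm_apply _ _⟩
    rw [mem_rv, ← h1 i.val i.isLt, sturn_sgn]
    have h2 : finRotate n i ∈ R' → 0 < |trn z i| := by
      intro h
      have h3 := hc.1.1 _ h
      rw [show turn o (finRotate n i) = |trn z i| from (abs_trn_angle hn0 hz hd i).symm] at h3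
      exact lt_of_le_of_ne (abs_nonneg _) (Ne.symm h3)
    constructor
    · intro h
      rw [if_pos h]
      linarith [h2 h]
    · intro h
      by_contra h3
      rw [if_neg h3] at h
      linarith [abs_nonneg (trn z i)]
  · rw [bot_lt_iff_ne_bot]
    intro h
    have h1 := ones_closing o
    rw [h, Submodule.mem_bot] at h1
    exact one_ne_zero (congrFun h1 ⟨0, hn0⟩)

theorem unified {n : ℕ} (h3 : 3 ≤ n) {o : Fin n → EuclideanSpace ℝ (Fin 3)} (ho : FlatState o) (ha : Nonacute o) :
    ∃ R : Finset (Fin n), IsReflexSet o R ∧ ∃ U : Finset (Fin n) → Submodule ℝ (Fin n → ℝ), (∀ R', U R' < closing o) ∧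
      ∀ l : Fin n → ℝ, (∀ i, 0 < l i) →
        ∀ p : Fin n → EuclideanSpace ℝ (Fin 3), FlatState p →
          (∀ i, p (finRotate n i) - p i = l i • (o (finRotate n i) - o i)) →
          (∀ q, FlatState q → SameChain q p → ∃ R', IsReflexSet q R' ∧
            ((R' = R ∧ ∀ i j, dist (q i) (q j) = dist (p i) (p j)) ∨ (R' ≠ R ∧ l ∈ U R'))) ∧
          ((∀ R', Critical (turn o) R R' → l ∉ U R') →
            ∀ q q', FlatState q → FlatState q' → SameChain q p → SameChain q' p → JoinedByMotion q q') := by
  have hn : 0 < n := by omega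
  have hx := adm_ex hn h3 ho.1 ha
  obtain ⟨z, hz, cz, dz, tz⟩ := exists_planar h3 hx (flat_ex hn ho.2)
  refine ⟨rv n z, reflexSet_rv hn hz dz tz, US o z, US_lt h3 hz dz tz, ?_⟩
  intro l hl p hp hlp
  have hap : Nonacute p := fun i => by rw [jointAngle_scaled hl hlp i]; exact ha i
  have hturnp : turn p = turn o := funext fun v => by unfold turn; rw [jointAngle_scaled hl hlp v]
  have hy := adm_ex hn h3 hp.1 hap
  obtain ⟨z1, hz1, c1, d1, tz1⟩ := exists_planar h3 hy (flat_ex hn hp.2)
  have hturn := turns_scaled hn hl hlp hz hz1 dz d1 tz tz1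
  have hnegs : negs n z1 = negs n z := by
    ext i
    rw [mem_negs, mem_negs, hturn i.val i.isLt]
  have hlc : l ∈ closing o := by
    unfold closing
    rw [mem_relations]
    have e1 : ∑ i, l i • (o (finRotate n i) - o i) = ∑ i, (p (finRotate n i) - p i) :=
      Finset.sum_congr rfl fun i _ => (hlp i).symm
    rw [e1, Finset.sum_sub_distrib, Equiv.sum_comp (finRotate n) p, sub_self]
  have main : ∀ q, FlatState q → SameChain q p → ∃ w : ℕ → ℂ, Adm n w ∧ Conn n (ex hn q) (fun i => J (w i)) ∧
      (∀ i j, dist (w i) (w j) = dist (ex hn q i) (ex hn q j)) ∧ ∑ i ∈ Finset.range n, trn w i = 2 * π ∧ Eqv z1 w ∧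
      (rv n w ≠ rv n z → PossibleReflex (turn o) (rv n w) ∧ l ∈ US o z (rv n w)) ∧
      (rv n w = rv n z → ∀ i, i < n → trn z1 i = trn w i) := by
    intro q hq hqp
    have haq : Nonacute q := fun i => by rw [hqp.2 i]; exact hap i
    have hyq := adm_ex hn h3 hq.1 haq
    obtain ⟨w, hw, cw, dw, tw⟩ := exists_planar h3 hyq (flat_ex hn hq.2)
    have ezw : Eqv z1 w := ((Eqv.of_dist d1).trans' (eqv_ex hn hqp.symm)).trans' (Eqv.of_dist dw).symm'
    have habs : ∀ i, i < n → |trn w i| = |trn z i| := by
      intro i hi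
      rw [← hturn i hi]
      exact (trn_eqv hz1 hw ezw i).symm
    have hlen : ∀ i : Fin n, ‖w (i.val + 1) - w i.val‖ = l i * ‖z (i.val + 1) - z i.val‖ := by
      intro i
      have e1 := (ezw i.val).1
      have e2 : dist (z1 i.val) (z1 (i.val + 1)) = l i * dist (z i.val) (z (i.val + 1)) := by
        rw [d1, dz, ex_succ, ex_succ, ex_val, ex_val, dist_comm (p i), dist_comm (o i), dist_eq_norm, dist_eq_norm,
          hlp i, norm_smul, Real.norm_of_nonneg (hl i).le]
      rw [← dist_eq_norm, ← dist_eq_norm, dist_comm (w _), dist_comm (z (i.val + 1)), ← e1, e2]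
    refine ⟨w, hw, cw, dw, tw, ezw, ?_, ?_⟩
    · intro hne
      have hposs : PossibleReflex (turn o) (rv n w) := by
        have h1 := (reflexSet_rv hn hw dw tw).1
        have h2 : turn q = turn p := funext fun v => by unfold turn; rw [hqp.2 v]
        rw [h2, hturnp] at h1
        exact h1
      refine ⟨hposs, ?_⟩
      unfold US
      rw [if_pos ⟨hposs, hne⟩]
      refine ⟨hlc, closure_mem hw _ ?_ l hlen⟩
      intro i hi
      have h1 := sturn_sgn z (rv n w) ⟨i, hi⟩
      rw [show sturn z (sgn z (rv n w)) i = _ from h1]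
      have h2 := mem_rv (z := w) (⟨i, hi⟩ : Fin n)
      by_cases h4 : trn w i < 0
      · rw [if_pos (h2.2 h4)]
        have := habs i hi
        rw [abs_of_neg h4] at this
        show -|trn z i| = trn w i
        linarith
      · rw [if_neg fun h => h4 (h2.1 h)]
        have := habs i hi
        rw [abs_of_nonneg (not_lt.1 h4)] at this
        show |trn z i| = trn w i
        linarith
    · intro heq i hi
      rw [hturn i hi]
      have h1 := mem_rv (z := w) (⟨i, hi⟩ : Fin n)
      have h2 := mem_rv (z := z) (⟨i, hi⟩ : Fin n)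
      rw [heq] at h1
      rcases abs_eq_abs.1 (habs i hi) with h4 | h4
      · exact h4.symm
      · by_cases h5 : trn z i < 0
        · have := h1.1 (h2.2 h5)
          have h6 : trn w i < 0 := this
          linarith
        · have h6 : ¬ trn w i < 0 := fun h6 => h5 (h2.1 (h1.2 h6))
          linarith [not_lt.1 h5, not_lt.1 h6]
  constructor
  · intro q hq hqp
    obtain ⟨w, hw, cw, dw, tw, ezw, m1, m2⟩ := main q hq hqp
    refine ⟨rv n w, reflexSet_rv hn hw dw tw, ?_⟩
    by_cases heq : rv n w = rv n z
    · left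
      refine ⟨heq, ?_⟩
      obtain ⟨u, v, hu, hv⟩ := congruent h3 hz1 hw ezw (m2 heq)
      intro i j
      rw [← ex_val hn q i, ← ex_val hn q j, ← ex_val hn p i, ← ex_val hn p j, ← dw, ← d1, hv, hv, dist_eq_norm,
        dist_eq_norm, add_sub_add_right_eq_sub, ← mul_sub, norm_mul, hu, one_mul]
    · exact Or.inr ⟨heq, (m1 heq).2⟩
  · intro hcr
    have conn : ∀ q, FlatState q → SameChain q p → Conn n (ex hn p) (ex hn q) := by
      intro q hq hqp
      obtain ⟨w, hw, cw, dw, tw, ezw, m1, m2⟩ := main q hq hqp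
      refine (c1.trans (planar_pair h3 hz1 hw ezw tz1 tw ?_)).trans cw.symm
      rw [hnegs]
      by_cases heq : rv n w = rv n z
      · left
        exact (Finset.map_injective _ heq).symm
      · right
        by_contra hno
        rw [not_or, not_or] at hno
        obtain ⟨n1, n2, n3⟩ := hno
        refine hcr (rv n w) ⟨(m1 heq).1, heq, ?_, ?_, ?_⟩ (m1 heq).2
        · unfold rv
          rw [Finset.card_map]
          omega
        · unfold rv
          rw [Finset.card_map]
          omega
        · intro hc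
          apply n1
          unfold rv at hc
          rw [← Finset.map_sdiff, ← Finset.map_sdiff, Finset.card_map, Finset.card_map] at hc
          exact hc
    intro q q' hq hq' h1 h2
    exact joined_of_conn hn ((conn q hq h1).symm.trans (conn q' hq' h2))

end Pool.Agent.H57.FC
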